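import Pool.Agent.H43.UF.Grb

/-!
# [H43 UF GR] Growth near the line 1 in terms of `X`

`‖L(s,χ)‖ <= 2 log X` for `q <= (log X)^B`, `1/2 <= |Im s| <= X^2`, `Re s >= 1 - (log X)^(-0.925)`.

PROOF. `ℓ = log X`, `τ = |Im s|`, `η = ℓ^(-0.925)`, `σ = Re s >= 1 - η >= 1/2`.
Case A: `log τ >= (16 (B+1) log ℓ)^2` (and `τ >= T1`). Then `√(log τ)/4 >= 4(B+1) log ℓ >= B log ℓ + log 8`
for `ℓ` large, so `8q <= exp(√(log τ)/4)`. `log τ <= 2ℓ`, so `(log τ)^(0.92) <= 2^0.92 ℓ^0.92 <= ℓ^0.925` for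
`ℓ` large, hence `η <= (log τ)^(-0.92)`; `grb`: `‖L‖ <= log τ <= 2ℓ`.
Case B: `log τ <= (16 (B+1) log ℓ)^2 + log T1 =: u` (`u <= (log ℓ)^3` for `ℓ` large). If `σ >= 2`:
`‖L‖ <= Σ n^(-2) <= 2 <= 2ℓ` (`H92.SW.norm_LSeries_le_re` gives `σ/(σ-1) <= 2`, with
`DirichletCharacter.LFunction_eq_LSeries`). Let `σ < 2`. `LF.lap` with `M = ⌈(q(τ+2))^2⌉₊`, `‖s‖ <= τ+2`:
the error is `<= 4q(τ+2) M^(-1/2) * 2 <= 8`. Term with `rho`: `<= M^(1-σ)/τ <= 2 M^η` (`‖s-1‖ >= τ >= 1/2`;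
`0 <= rho <= 1`: `LF.em_rho`; for `σ > 1` `M^(1-σ) <= 1`). Sum: `Σ_{n<=M} n^(-σ) <= M^η Σ 1/n <= M^η (1 + log M)`.
`log M <= 2 log q + 2 log(τ+2) + 1 <= 4 (log ℓ)^3`, so `M^η = exp(η log M) <= e` for `ℓ` large. Total
`<= 8 + 2e + e (1 + 4 (log ℓ)^3) <= 2ℓ` for `ℓ` large.
-/

namespace Pool.Agent.H43.UF

open Finset

private theorem gru_size (B T L : ℝ) (hB : 0 < B) (hT : 0 ≤ T)
    (hL : (16 * (B + 1)) ^ 2 + T + 1000 ≤ L) :
    (16 * (B + 1) * L) ^ 2 + T ≤ L ^ 3 ∧ 5 + 2 * (B * L) ≤ 2 * L ^ 3 ∧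
    20 * L ^ 3 ≤ Real.exp (0.925 * L) ∧ 1000 ≤ L := by
  have ha : 0 ≤ (16 * (B + 1)) ^ 2 := by positivity
  have h1 : 1000 ≤ L := by linarith
  have hLpos : 0 < L := by linarith
  have h2 : 1 ≤ L ^ 2 := one_le_pow₀ (by linarith)
  refine ⟨?_, ?_, ?_, h1⟩
  · have h3 : ((16 * (B + 1)) ^ 2 + T + 1000) * L ^ 2 ≤ L * L ^ 2 :=
      mul_le_mul_of_nonneg_right hL (by positivity)
    have h4 : T * 1 ≤ T * L ^ 2 := mul_le_mul_of_nonneg_left h2 hT
    have h5 : (16 * (B + 1) * L) ^ 2 = (16 * (B + 1)) ^ 2 * L ^ 2 := by ring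
    have h6 : L ^ 3 = L * L ^ 2 := by ring
    rw [h5, h6]
    have h7 : ((16 * (B + 1)) ^ 2 + T + 1000) * L ^ 2 =
        (16 * (B + 1)) ^ 2 * L ^ 2 + T * L ^ 2 + 1000 * L ^ 2 := by ring
    linarith
  · have h3 : B ≤ L := by
      have e1 : (16 * (B + 1)) ^ 2 = 256 * (B * B) + 512 * B + 256 := by ring
      have e2 := mul_self_nonneg B
      linarith
    have h4 : B * L ≤ L * L := mul_le_mul_of_nonneg_right h3 hLpos.le
    have h5 : 1000 * L ^ 2 ≤ L * L ^ 2 := mul_le_mul_of_nonneg_right h1 (by positivity)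
    have h6 : L ^ 3 = L * L ^ 2 := by ring
    have h7 : L * L = L ^ 2 := by ring
    rw [h6]
    linarith
  · have h3 := Real.pow_div_factorial_le_exp (0.925 * L) (by positivity) 4
    have h4 : (0.925 * L) ^ 4 / (Nat.factorial 4 : ℝ) = 0.925 ^ 4 / 24 * (L * L ^ 3) := by
      norm_num [Nat.factorial]
      ring
    rw [h4] at h3
    refine le_trans ?_ h3
    have h5 : 1000 * L ^ 3 ≤ L * L ^ 3 := mul_le_mul_of_nonneg_right h1 (by positivity)
    have h6 : 0 ≤ L ^ 3 := by positivity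
    norm_num
    linarith

theorem gru (B : ℝ) (hB : 0 < B) : ∃ X0 : ℝ, 10 ≤ X0 ∧ ∀ X : ℝ, X0 ≤ X →
    ∀ (q : ℕ) [NeZero q], (q : ℝ) ≤ (Real.log X) ^ B → ∀ (χ : DirichletCharacter ℂ q) (s : ℂ),
    1 / 2 ≤ |s.im| → |s.im| ≤ X ^ 2 → 1 - (Real.log X) ^ (-(0.925 : ℝ)) ≤ s.re →
    ‖χ.LFunction s‖ ≤ 2 * Real.log X := by
  obtain ⟨T1, hT1, hgrb⟩ := grb
  obtain ⟨A, hA⟩ : ∃ A : ℝ, A = (16 * (B + 1)) ^ 2 + |Real.log T1| + 1000 := ⟨_, rfl⟩
  have hA1 : 1000 ≤ A := by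
    rw [hA]
    have h1 := abs_nonneg (Real.log T1)
    have h2 : 0 ≤ (16 * (B + 1)) ^ 2 := by positivity
    linarith
  refine ⟨Real.exp (Real.exp A), ?_, ?_⟩
  · have h2 := Real.add_one_le_exp A
    have h3 := Real.add_one_le_exp (Real.exp A)
    linarith
  intro X hX q _ hq χ s hs1 hs2 hσ
  have hXpos : 0 < X := lt_of_lt_of_le (Real.exp_pos _) hX
  obtain ⟨ℓ, hℓ⟩ : ∃ ℓ, ℓ = Real.log X := ⟨_, rfl⟩
  rw [← hℓ] at hq hσ ⊢
  have hℓA : Real.exp A ≤ ℓ := by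
    rw [hℓ]
    exact (Real.le_log_iff_exp_le hXpos).2 hX
  have hℓpos : 0 < ℓ := lt_of_lt_of_le (Real.exp_pos _) hℓA
  obtain ⟨L, hL⟩ : ∃ L, L = Real.log ℓ := ⟨_, rfl⟩
  have hLA : A ≤ L := by
    rw [hL]
    exact (Real.le_log_iff_exp_le hℓpos).2 hℓA
  have hℓL : Real.exp L = ℓ := by
    rw [hL]
    exact Real.exp_log hℓpos
  obtain ⟨c1, c2, c3, c4⟩ := gru_size B |Real.log T1| L hB (abs_nonneg _) (by rw [← hA]; exact hLA)
  obtain ⟨τ, hτ⟩ : ∃ τ, τ = |s.im| := ⟨_, rfl⟩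
  rw [← hτ] at hs1 hs2
  have hτpos : 0 < τ := by linarith
  have hpow : ∀ r : ℝ, ℓ ^ r = Real.exp (L * r) := fun r => by
    rw [Real.rpow_def_of_pos hℓpos, ← hL]
  obtain ⟨η, hη⟩ : ∃ η, η = ℓ ^ (-(0.925 : ℝ)) := ⟨_, rfl⟩
  rw [← hη] at hσ
  have hηpos : 0 < η := by
    rw [hη]
    exact Real.rpow_pos_of_pos hℓpos _
  have hLpos : 0 < L := by linarith
  have hL3 : 1000 ≤ L ^ 3 := by
    have h1 : (1 : ℝ) ≤ L ^ 2 := one_le_pow₀ (by linarith)
    have h2 : L * 1 ≤ L * L ^ 2 := mul_le_mul_of_nonneg_left h1 hLpos.le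
    have h3 : L ^ 3 = L * L ^ 2 := by ring
    linarith
  have hη1 : η * (20 * L ^ 3) ≤ 1 := by
    have h1 : η * Real.exp (0.925 * L) = 1 := by
      rw [hη, hpow, ← Real.exp_add]
      have h2 : L * -(0.925 : ℝ) + 0.925 * L = 0 := by ring
      rw [h2, Real.exp_zero]
    have h2 := mul_le_mul_of_nonneg_left c3 hηpos.le
    linarith
  have hηhalf : η ≤ 1 / 2 := by
    have h1 : η * 20000 ≤ η * (20 * L ^ 3) := mul_le_mul_of_nonneg_left (by linarith) hηpos.le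
    linarith
  have hσhalf : 1 / 2 ≤ s.re := by linarith
  have hσpos : 0 < s.re := by linarith
  by_cases hcase : T1 ≤ τ ∧ (16 * (B + 1) * L) ^ 2 ≤ Real.log τ
  · obtain ⟨hcT, hcL⟩ := hcase
    have hlogτ : Real.log τ ≤ 2 * ℓ := by
      have h1 := Real.log_le_log hτpos hs2
      rw [Real.log_pow, ← hℓ] at h1
      simpa using h1
    have hBL : 1000 ≤ (B + 1) * L := by
      have e1 : 1 * L ≤ (B + 1) * L := mul_le_mul_of_nonneg_right (by linarith) hLpos.le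
      linarith
    have hlpos : 0 < Real.log τ := by
      have h1 : 0 < (16 * (B + 1) * L) ^ 2 := by positivity
      linarith
    have hsq : 4 * (B + 1) * L ≤ Real.sqrt (Real.log τ) / 4 := by
      have h := Real.le_sqrt_of_sq_le hcL
      linarith
    have hq8 : 8 * (q : ℝ) ≤ Real.exp (Real.sqrt (Real.log τ) / 4) := by
      have h8 : (8 : ℝ) ≤ Real.exp ((3 * B + 4) * L) := by
        have h9 := Real.add_one_le_exp ((3 * B + 4) * L)
        have h10 : 0 < B * L := mul_pos hB hLpos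
        have h11 : (3 * B + 4) * L = 3 * (B * L) + 4 * L := by ring
        linarith
      have hq' : (q : ℝ) ≤ Real.exp (L * B) := by
        rw [← hpow]
        exact hq
      calc 8 * (q : ℝ) ≤ Real.exp ((3 * B + 4) * L) * Real.exp (L * B) :=
            mul_le_mul h8 hq' (Nat.cast_nonneg q) (Real.exp_pos _).le
        _ = Real.exp (4 * (B + 1) * L) := by
            rw [← Real.exp_add]
            congr 1
            ring
        _ ≤ _ := Real.exp_le_exp.2 hsq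
    have hση : 1 - (Real.log τ) ^ (-(0.92 : ℝ)) ≤ s.re := by
      have h1 : η ≤ (Real.log τ) ^ (-(0.92 : ℝ)) := by
        have h2 : (Real.log τ) ^ (0.92 : ℝ) ≤ ℓ ^ (0.925 : ℝ) := by
          have h3 : (2 : ℝ) ^ (0.92 : ℝ) ≤ ℓ ^ (0.005 : ℝ) := by
            calc (2 : ℝ) ^ (0.92 : ℝ) ≤ 2 ^ (1 : ℝ) :=
                  Real.rpow_le_rpow_of_exponent_le (by norm_num) (by norm_num)
              _ = 2 := by norm_num
              _ ≤ L * 0.005 + 1 := by linarith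
              _ ≤ Real.exp (L * 0.005) := Real.add_one_le_exp _
              _ = ℓ ^ (0.005 : ℝ) := (hpow _).symm
          calc (Real.log τ) ^ (0.92 : ℝ) ≤ (2 * ℓ) ^ (0.92 : ℝ) :=
                Real.rpow_le_rpow hlpos.le hlogτ (by norm_num)
            _ = 2 ^ (0.92 : ℝ) * ℓ ^ (0.92 : ℝ) := Real.mul_rpow (by norm_num) hℓpos.le
            _ ≤ ℓ ^ (0.005 : ℝ) * ℓ ^ (0.92 : ℝ) :=
                mul_le_mul_of_nonneg_right h3 (Real.rpow_nonneg hℓpos.le _)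
            _ = ℓ ^ (0.925 : ℝ) := by
                rw [← Real.rpow_add hℓpos]
                norm_num
        rw [hη, Real.rpow_neg hℓpos.le, Real.rpow_neg hlpos.le]
        exact inv_anti₀ (Real.rpow_pos_of_pos hlpos _) h2
      linarith
    have hfin := hgrb q χ s (by rw [← hτ]; exact hcT) (by rw [← hτ]; exact hq8)
      (by rw [← hτ]; exact hση)
    rw [← hτ] at hfin
    exact hfin.trans hlogτ
  · have hlogτ : Real.log τ ≤ L ^ 3 := by
      rcases lt_or_ge τ T1 with h | h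
      · have h1 : Real.log τ ≤ Real.log T1 := Real.log_le_log hτpos h.le
        have h2 := le_abs_self (Real.log T1)
        have h3 : 0 ≤ (16 * (B + 1) * L) ^ 2 := sq_nonneg _
        linarith
      · have h1 : Real.log τ < (16 * (B + 1) * L) ^ 2 := by
          by_contra h2
          exact hcase ⟨h, not_lt.1 h2⟩
        have h2 := abs_nonneg (Real.log T1)
        linarith
    have hq1 : (1 : ℝ) ≤ q := by
      exact_mod_cast Nat.one_le_iff_ne_zero.2 (NeZero.ne q)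
    have hqpos : (0 : ℝ) < q := by linarith
    obtain ⟨R, hR⟩ : ∃ R : ℝ, R = (q : ℝ) * (τ + 2) := ⟨_, rfl⟩
    have hR2 : 2 ≤ R := by
      rw [hR]
      have e1 : (1 : ℝ) * 2 ≤ (q : ℝ) * (τ + 2) :=
        mul_le_mul hq1 (by linarith) (by norm_num) hqpos.le
      linarith
    have hRpos : 0 < R := by linarith
    obtain ⟨M, hM⟩ : ∃ M : ℕ, M = ⌈R ^ 2⌉₊ := ⟨_, rfl⟩
    have hMge : R ^ 2 ≤ M := by
      rw [hM]
      exact Nat.le_ceil _
    have hMlt : (M : ℝ) < R ^ 2 + 1 := by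
      rw [hM]
      exact Nat.ceil_lt_add_one (by positivity)
    have hR4 : (4 : ℝ) ≤ R ^ 2 := by
      have e1 : (2 : ℝ) ^ 2 ≤ R ^ 2 := pow_le_pow_left₀ (by norm_num) hR2 2
      norm_num at e1
      exact e1
    have hMone : (1 : ℝ) ≤ M := by linarith
    have hMpos : (0 : ℝ) < M := by linarith
    have hM1 : 1 ≤ M := by exact_mod_cast hMone
    have hlogq : Real.log q ≤ B * L := by
      have h1 := Real.log_le_log hqpos hq
      rwa [Real.log_rpow hℓpos, ← hL] at h1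
    have hlogM : Real.log M ≤ 4 * L ^ 3 := by
      have h0 : R ≤ q * (5 * τ) := by
        rw [hR]
        exact mul_le_mul_of_nonneg_left (by linarith) hqpos.le
      have h1 : (M : ℝ) ≤ 2 * (q * (5 * τ)) ^ 2 := by
        have h2 : R ^ 2 ≤ (q * (5 * τ)) ^ 2 := pow_le_pow_left₀ hRpos.le h0 2
        linarith
      have h2 : Real.log (2 * (q * (5 * τ)) ^ 2) =
          Real.log 2 + 2 * (Real.log q + (Real.log 5 + Real.log τ)) := by
        rw [Real.log_mul (by norm_num) (by positivity), Real.log_pow,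
          Real.log_mul (by positivity) (by positivity), Real.log_mul (by norm_num) (by positivity)]
        push_cast
        ring
      have h3 := Real.log_le_log hMpos h1
      have h4 : Real.log 2 ≤ 1 := by
        have := Real.log_two_lt_d9
        linarith
      have h5 : Real.log 5 ≤ 2 := by
        rw [Real.log_le_iff_le_exp (by norm_num)]
        have h6 := Real.exp_one_gt_d9
        have h7 : Real.exp 2 = Real.exp 1 * Real.exp 1 := by
          rw [← Real.exp_add]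
          norm_num
        rw [h7]
        have h8 := mul_le_mul h6.le h6.le (by norm_num) (Real.exp_pos 1).le
        norm_num at h8
        linarith
      rw [h2] at h3
      linarith
    have hMη : (M : ℝ) ^ η ≤ Real.exp 1 := by
      rw [Real.rpow_def_of_pos hMpos]
      apply Real.exp_le_exp.2
      have h1 : Real.log M * η ≤ 4 * L ^ 3 * η := mul_le_mul_of_nonneg_right hlogM hηpos.le
      have h2 : 0 < η * L ^ 3 := by positivity
      have h3 : η * (20 * L ^ 3) = 20 * (η * L ^ 3) := by ring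
      have h4 : 4 * L ^ 3 * η = 4 * (η * L ^ 3) := by ring
      linarith
    have hMσ : (M : ℝ) ^ (1 - s.re) ≤ Real.exp 1 :=
      (Real.rpow_le_rpow_of_exponent_le hMone (by linarith)).trans hMη
    have hs1' : s ≠ 1 := by
      intro h
      have : s.im = 0 := by rw [h]; simp
      rw [hτ, this] at hs1
      norm_num at hs1
    have hlap := Pool.Agent.H43.LF.lap χ s hσpos hs1' M hM1
    have hsnorm : ‖s‖ ≤ s.re + τ := by
      calc ‖s‖ ≤ |s.re| + |s.im| := Complex.norm_le_abs_re_add_abs_im s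
        _ = s.re + τ := by rw [abs_of_nonneg hσpos.le, hτ]
    have herr : 4 * q * ‖s‖ * (M : ℝ) ^ (-s.re) / s.re ≤ 8 := by
      have e1 : (M : ℝ) ^ (-s.re) ≤ R⁻¹ := by
        have e2 : (M : ℝ) ^ (-s.re) ≤ (M : ℝ) ^ (-(1 / 2) : ℝ) :=
          Real.rpow_le_rpow_of_exponent_le hMone (by linarith)
        refine e2.trans ?_
        rw [Real.rpow_neg hMpos.le]
        apply inv_anti₀ hRpos
        rw [← Real.sqrt_eq_rpow]
        exact Real.le_sqrt_of_sq_le hMge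
      have e2 : ‖s‖ / s.re ≤ 1 + 2 * τ := by
        rw [div_le_iff₀ hσpos]
        have a1 : τ * (1 / 2) ≤ τ * s.re := mul_le_mul_of_nonneg_left hσhalf hτpos.le
        have a2 : (1 + 2 * τ) * s.re = s.re + 2 * (τ * s.re) := by ring
        linarith
      have e3 : 4 * q * ‖s‖ * (M : ℝ) ^ (-s.re) / s.re =
          4 * q * (‖s‖ / s.re) * (M : ℝ) ^ (-s.re) := by
        field_simp
      have e4 : 4 * q * (1 + 2 * τ) ≤ 8 * R := by
        rw [hR]
        have a1 : (q : ℝ) * (1 + 2 * τ) ≤ q * (2 * (τ + 2)) :=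
          mul_le_mul_of_nonneg_left (by linarith) hqpos.le
        linarith
      calc 4 * q * ‖s‖ * (M : ℝ) ^ (-s.re) / s.re
          = 4 * q * (‖s‖ / s.re) * (M : ℝ) ^ (-s.re) := e3
        _ ≤ 4 * q * (1 + 2 * τ) * R⁻¹ := by gcongr
        _ ≤ 8 * R * R⁻¹ := by gcongr
        _ = 8 := by rw [mul_assoc, mul_inv_cancel₀ hRpos.ne', mul_one]
    have hrho : ‖(Pool.Agent.H43.LF.rho χ : ℂ) * (M : ℂ) ^ (1 - s) / (s - 1)‖ ≤
        2 * Real.exp 1 := by
      have hr0 : 0 ≤ Pool.Agent.H43.LF.rho χ := by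
        unfold Pool.Agent.H43.LF.rho
        split_ifs <;> positivity
      have hr1 : Pool.Agent.H43.LF.rho χ ≤ 1 := by
        unfold Pool.Agent.H43.LF.rho
        split_ifs
        · rw [div_le_one hqpos]
          exact_mod_cast Nat.totient_le q
        · exact zero_le_one
      have hnum : ‖(M : ℂ) ^ (1 - s)‖ = (M : ℝ) ^ (1 - s.re) := by
        have : (M : ℂ) = ((M : ℝ) : ℂ) := by push_cast; rfl
        rw [this, Complex.norm_cpow_eq_rpow_re_of_pos hMpos]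
        simp
      have hden : τ ≤ ‖s - 1‖ := by
        have := Complex.abs_im_le_norm (s - 1)
        simpa [hτ] using this
      have hd0 : 0 < ‖s - 1‖ := by linarith
      rw [norm_div, norm_mul, Complex.norm_real, Real.norm_eq_abs, abs_of_nonneg hr0, hnum,
        div_le_iff₀ hd0]
      have h1 : Pool.Agent.H43.LF.rho χ * (M : ℝ) ^ (1 - s.re) ≤ 1 * Real.exp 1 :=
        mul_le_mul hr1 hMσ (by positivity) zero_le_one
      have h2 : Real.exp 1 * (1 / 2) ≤ Real.exp 1 * ‖s - 1‖ :=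
        mul_le_mul_of_nonneg_left (by linarith) (Real.exp_pos 1).le
      linarith
    have hsum : ‖∑ n ∈ Icc 1 M, χ n * (n : ℂ) ^ (-s)‖ ≤
        Real.exp 1 * (1 + 4 * L ^ 3) := by
      have h1 : ∀ n ∈ Icc 1 M, ‖χ n * (n : ℂ) ^ (-s)‖ ≤ Real.exp 1 * (n : ℝ)⁻¹ := by
        intro n hn
        rw [mem_Icc] at hn
        have hn1 : (1 : ℝ) ≤ n := by exact_mod_cast hn.1
        have hnpos : (0 : ℝ) < n := by linarith
        have hnM : (n : ℝ) ≤ M := by exact_mod_cast hn.2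
        have h1 : ‖(n : ℂ) ^ (-s)‖ = (n : ℝ) ^ (-s.re) := by
          have : (n : ℂ) = ((n : ℝ) : ℂ) := by push_cast; rfl
          rw [this, Complex.norm_cpow_eq_rpow_re_of_pos hnpos]
          simp
        have h2 : (n : ℝ) ^ (-s.re) = (n : ℝ) ^ (1 - s.re) * (n : ℝ)⁻¹ := by
          rw [show (-s.re) = (1 - s.re) - 1 by ring, Real.rpow_sub hnpos, Real.rpow_one,
            div_eq_mul_inv]
        have h3 : (n : ℝ) ^ (1 - s.re) ≤ Real.exp 1 := by
          calc (n : ℝ) ^ (1 - s.re) ≤ (n : ℝ) ^ η :=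
                Real.rpow_le_rpow_of_exponent_le hn1 (by linarith)
            _ ≤ (M : ℝ) ^ η := Real.rpow_le_rpow hnpos.le hnM hηpos.le
            _ ≤ Real.exp 1 := hMη
        have h4 := χ.norm_le_one (n : ZMod q)
        rw [norm_mul, h1, h2]
        calc ‖χ (n : ZMod q)‖ * ((n : ℝ) ^ (1 - s.re) * (n : ℝ)⁻¹)
            ≤ 1 * (Real.exp 1 * (n : ℝ)⁻¹) := by gcongr
          _ = _ := one_mul _
      have h2 : ∑ n ∈ Icc 1 M, (n : ℝ)⁻¹ ≤ 1 + Real.log M := by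
        have := harmonic_le_one_add_log M
        rw [harmonic_eq_sum_Icc] at this
        push_cast at this
        exact this
      calc ‖∑ n ∈ Icc 1 M, χ n * (n : ℂ) ^ (-s)‖
          ≤ ∑ n ∈ Icc 1 M, ‖χ n * (n : ℂ) ^ (-s)‖ := norm_sum_le _ _
        _ ≤ ∑ n ∈ Icc 1 M, Real.exp 1 * (n : ℝ)⁻¹ := Finset.sum_le_sum h1
        _ = Real.exp 1 * ∑ n ∈ Icc 1 M, (n : ℝ)⁻¹ := by rw [Finset.mul_sum]
        _ ≤ Real.exp 1 * (1 + Real.log M) := by gcongr
        _ ≤ Real.exp 1 * (1 + 4 * L ^ 3) := by gcongr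
    have hfin : ‖χ.LFunction s‖ ≤ ‖χ.LFunction s - ∑ n ∈ Icc 1 M, χ n * (n : ℂ) ^ (-s) -
          (Pool.Agent.H43.LF.rho χ : ℂ) * (M : ℂ) ^ (1 - s) / (s - 1)‖ +
          ‖∑ n ∈ Icc 1 M, χ n * (n : ℂ) ^ (-s)‖ +
          ‖(Pool.Agent.H43.LF.rho χ : ℂ) * (M : ℂ) ^ (1 - s) / (s - 1)‖ := by
      calc ‖χ.LFunction s‖ = ‖(χ.LFunction s - ∑ n ∈ Icc 1 M, χ n * (n : ℂ) ^ (-s) -
          (Pool.Agent.H43.LF.rho χ : ℂ) * (M : ℂ) ^ (1 - s) / (s - 1)) +
          ∑ n ∈ Icc 1 M, χ n * (n : ℂ) ^ (-s) +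
          (Pool.Agent.H43.LF.rho χ : ℂ) * (M : ℂ) ^ (1 - s) / (s - 1)‖ := by congr 1; ring
        _ ≤ _ := norm_add₃_le
    have he : Real.exp 1 ≤ 3 := by
      have := Real.exp_one_lt_d9
      linarith
    have hℓ20 : 20 * L ^ 3 ≤ ℓ := by
      refine c3.trans ?_
      rw [← hℓL]
      exact Real.exp_le_exp.2 (by linarith)
    have h9 : Real.exp 1 * (1 + 4 * L ^ 3) ≤ 3 * (1 + 4 * L ^ 3) :=
      mul_le_mul_of_nonneg_right he (by positivity)
    linarith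

end Pool.Agent.H43.UF
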