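import Pool.Agent.H43.LF.Lan
import Pool.Agent.H43.LF.L341
import Pool.Agent.H92.SW.Lower
import Pool.Agent.H43.UF.Gr

/-!
# [H43 UF ZF] Zero-free region, `1 <= |Im s| <= X`

`L(s,χ) ≠ 0` for `q <= (log X)^B`, `1 <= |Im s| <= X`, `Re s >= 1 - (log X)^(-0.93)`.

PROOF. Adapt `LF/Zf.lean`; everything is in terms of `ℓ = log X` now. For `Re s >= 1`:
`DirichletCharacter.LFunction_ne_zero_of_one_le_re`. Suppose `L(β+iγ,χ) = 0`, `β < 1`, `1-β <= ℓ^(-0.93)`.
`R = ℓ^(-0.925)/2`, `M = 10 log ℓ`, `λ = R/(100 M)`, `σ0 = 1+λ`, `d = σ0 - β`.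
(1) `f(z) = L(σ0+iγ+z, χ)` on the closed ball of radius `R <= 1/2`: there `|Im| ∈ [1/2, X^2]`,
`Re >= 1+λ-R >= 1 - ℓ^(-0.925)`, so by `gru` `|f| <= 2ℓ`; `f` is analytic (`Im ≠ 0`). `|f(0)| >= λ/2`
(`H92.SW.lower_trivial`), so `|f| <= (4ℓ/λ)|f(0)| <= e^M |f(0)|` for `ℓ` large
(`4ℓ/λ = 400 M ℓ/R = 8000 ℓ^1.925 log ℓ <= ℓ^10`). `f(z) ≠ 0` if `Re z > 0`. `f(-d) = 0`,
`0 < d = λ + (1-β) <= R/(100M) + ℓ^(-0.93) <= R/100` for `ℓ` large. `LF.landau`:
`Re f'/f(0) >= -2M/R + 1/d - d/R^2 >= -3M/R + 1/d`.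
(2) The same with `χ^2`, `2γ`, the same `R` (`|Im| <= 2X + 1 <= X^2`): `Re (L'/L)(σ0+2iγ,χ^2) >= -2M/R`.
(3) `LF.l341` at `σ0`, `t = γ`: `4(1/d - 3M/R) - 2M/R <= 3/λ + C = 300M/R + C`, so `4/d <= 320 M/R`,
`d >= R/(80M)`, `1-β = d - λ >= R/(400M) = ℓ^(-0.925)/(8000 log ℓ) > ℓ^(-0.93)` for `ℓ` large: contradiction.
-/

namespace Pool.Agent.H43.UF

open Complex Metric Filter

private theorem zf_num (C : ℝ) : ∃ l0 : ℝ, ∀ l : ℝ, l0 ≤ l → 1 ≤ l ∧ 1 ≤ Real.log l ∧
    8000 * Real.log l * l ^ (-(0.93 : ℝ)) < l ^ (-(0.925 : ℝ)) ∧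
    8000 * Real.log l * l ^ (1.925 : ℝ) ≤ l ^ 10 ∧ C ≤ Real.log l := by
  have h1 : ∀ᶠ l : ℝ in atTop, Real.log l ≤ (1 / 16000) * l ^ (0.005 : ℝ) := by
    have h := (isLittleO_log_rpow_atTop (r := (0.005 : ℝ)) (by norm_num)).def
      (show (0 : ℝ) < 1 / 16000 by norm_num)
    filter_upwards [h, eventually_ge_atTop (1 : ℝ)] with l hl h1
    have h2 : ‖Real.log l‖ = Real.log l := Real.norm_of_nonneg (Real.log_nonneg h1)
    have h3 : ‖l ^ (0.005 : ℝ)‖ = l ^ (0.005 : ℝ) := Real.norm_of_nonneg (by positivity)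
    rw [h2, h3] at hl
    exact hl
  obtain ⟨l0, hl0⟩ := eventually_atTop.1 (h1.and ((eventually_ge_atTop (8000 : ℝ)).and
    (Real.tendsto_log_atTop.eventually_ge_atTop C)))
  refine ⟨l0, fun l hl => ?_⟩
  obtain ⟨a1, a2, a3⟩ := hl0 l hl
  have hl1 : 1 ≤ l := by linarith
  have hlpos : 0 < l := by linarith
  have hlog1 : 1 ≤ Real.log l := by
    rw [Real.le_log_iff_exp_le hlpos]
    have := Real.exp_one_lt_d9
    linarith
  refine ⟨hl1, hlog1, ?_, ?_, a3⟩
  · have h4 : 8000 * Real.log l < l ^ (0.005 : ℝ) := by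
      have h5 : 0 < l ^ (0.005 : ℝ) := by positivity
      linarith
    have h6 : l ^ (-(0.925 : ℝ)) = l ^ (0.005 : ℝ) * l ^ (-(0.93 : ℝ)) := by
      rw [← Real.rpow_add hlpos]
      norm_num
    rw [h6]
    exact mul_lt_mul_of_pos_right h4 (by positivity)
  · have h7 : Real.log l ≤ l := (Real.log_le_sub_one_of_pos hlpos).trans (by linarith)
    have h8 : l ^ (1.925 : ℝ) ≤ l ^ 2 := by
      rw [← Real.rpow_natCast l 2]
      exact Real.rpow_le_rpow_of_exponent_le hl1 (by norm_num)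
    have h9 : l ^ 4 ≤ l ^ 10 := pow_le_pow_right₀ hl1 (by norm_num)
    calc 8000 * Real.log l * l ^ (1.925 : ℝ) ≤ l * l * l ^ 2 := by gcongr
      _ = l ^ 4 := by ring
      _ ≤ l ^ 10 := h9

private theorem zf_local {q : ℕ} [NeZero q] {X : ℝ}
    (χ : DirichletCharacter ℂ q) {l R lam γ : ℝ}
    (hgr : ∀ (s : ℂ), 1 / 2 ≤ |s.im| → |s.im| ≤ X ^ 2 →
      1 - l ^ (-(0.925 : ℝ)) ≤ s.re → ‖χ.LFunction s‖ ≤ 2 * l)
    (hl : 1 ≤ l) (hlog : 1 ≤ Real.log l)
    (hR : R = l ^ (-(0.925 : ℝ)) / 2) (hlam : lam = R / (1000 * Real.log l))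
    (h2 : 8000 * Real.log l * l ^ (1.925 : ℝ) ≤ l ^ 10) (hγ1 : 1 ≤ |γ|)
    (hγ2 : |γ| + 1 ≤ X ^ 2) :
    -(2 * (10 * Real.log l) / R) ≤ (deriv χ.LFunction (((1 + lam : ℝ) : ℂ) + γ * I) /
        χ.LFunction (((1 + lam : ℝ) : ℂ) + γ * I)).re ∧
    ∀ d : ℝ, 0 < d → d < R → χ.LFunction (((1 + lam : ℝ) : ℂ) + γ * I + (-(d : ℂ))) = 0 →
      -(2 * (10 * Real.log l) / R) + 1 / d - d / R ^ 2 ≤
        (deriv χ.LFunction (((1 + lam : ℝ) : ℂ) + γ * I) /
        χ.LFunction (((1 + lam : ℝ) : ℂ) + γ * I)).re := by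
  have hlpos : 0 < l := by linarith
  have hRpos : 0 < R := by rw [hR]; positivity
  have hRle : R ≤ 1 / 2 := by
    rw [hR]
    have : l ^ (-(0.925 : ℝ)) ≤ 1 := Real.rpow_le_one_of_one_le_of_nonpos hl (by norm_num)
    linarith
  have hlampos : 0 < lam := by rw [hlam]; positivity
  have hlamle : lam ≤ 1 := by
    rw [hlam, div_le_one (by positivity)]
    linarith
  set s0 : ℂ := ((1 + lam : ℝ) : ℂ) + γ * I with hs0
  have hs0re : s0.re = 1 + lam := by simp [hs0]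
  have hs0im : s0.im = γ := by simp [hs0]
  have hRl : R ≤ l ^ (-(0.925 : ℝ)) := by
    have h5 : 0 ≤ l ^ (-(0.925 : ℝ)) := by positivity
    rw [hR]
    linarith
  -- the ball
  have hball : ∀ z ∈ closedBall (0 : ℂ) R, 1 - R ≤ (s0 + z).re ∧ 1 / 2 ≤ |(s0 + z).im| ∧
      |(s0 + z).im| ≤ |γ| + 1 := by
    intro z hz
    rw [mem_closedBall, dist_zero_right] at hz
    have hzre := (abs_le.1 ((abs_re_le_norm z).trans hz))
    have hzim := (abs_im_le_norm z).trans hz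
    rw [add_re, add_im, hs0re, hs0im]
    refine ⟨by linarith [hzre.1], ?_, ?_⟩
    · have h3 : |γ| ≤ |γ + z.im| + |z.im| := by
        calc |γ| = |(γ + z.im) - z.im| := by ring_nf
          _ ≤ _ := abs_sub _ _
      linarith
    · have h3 : |γ + z.im| ≤ |γ| + |z.im| := abs_add_le _ _
      linarith
  have hbound : ∀ z ∈ closedBall (0 : ℂ) R, ‖χ.LFunction (s0 + z)‖ ≤ 2 * l := by
    intro z hz
    obtain ⟨b1, b2, b3⟩ := hball z hz
    exact hgr _ b2 (b3.trans hγ2) (by linarith)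
  have hne : ∀ z ∈ closedBall (0 : ℂ) R, s0 + z ≠ 1 := by
    intro z hz h
    have := (hball z hz).2.1
    rw [h, one_im, abs_zero] at this
    linarith
  have hlow := Pool.Agent.H92.SW.lower_trivial χ (s := s0) (by rw [hs0re]; linarith)
    (by rw [hs0re]; linarith)
  rw [hs0re, add_sub_cancel_left] at hlow
  have hf0 : χ.LFunction s0 ≠ 0 := by
    intro h
    rw [h, norm_zero] at hlow
    linarith
  have hexp : Real.exp (10 * Real.log l) = l ^ 10 := by
    have : (10 : ℝ) * Real.log l = Real.log (l ^ 10) := by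
      rw [Real.log_pow]
      norm_num
    rw [this, Real.exp_log (by positivity)]
  have hmain : 2 * l ≤ l ^ 10 * (lam / 2) := by
    rw [hlam, hR]
    have h3 : l ^ (1.925 : ℝ) * l ^ (-(0.925 : ℝ)) = l := by
      rw [← Real.rpow_add hlpos]
      norm_num
    have h4 : 0 < l ^ (-(0.925 : ℝ)) := by positivity
    have h5 : 8000 * Real.log l * l ≤ l ^ 10 * l ^ (-(0.925 : ℝ)) := by
      calc 8000 * Real.log l * l = 8000 * Real.log l * l ^ (1.925 : ℝ) * l ^ (-(0.925 : ℝ)) := by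
            rw [mul_assoc (8000 * Real.log l), h3]
        _ ≤ l ^ 10 * l ^ (-(0.925 : ℝ)) := mul_le_mul_of_nonneg_right h2 h4.le
    have hlogpos : 0 < Real.log l := by linarith
    have h6 : l ^ 10 * (l ^ (-(0.925 : ℝ)) / 2 / (1000 * Real.log l) / 2) =
        l ^ 10 * l ^ (-(0.925 : ℝ)) / (4000 * Real.log l) := by
      field_simp
      ring
    rw [h6, le_div_iff₀ (by positivity)]
    linarith
  have hg : ∀ z : ℂ, χ.LFunction (s0 + z) = (fun z => χ.LFunction (s0 + z)) z := fun _ => rfl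
  have hopen : IsOpen {z : ℂ | s0 + z ≠ 1} := by
    apply isOpen_ne_fun (by fun_prop) (by fun_prop)
  have hana : AnalyticOnNhd ℂ (fun z => χ.LFunction (s0 + z)) (closedBall 0 R) := by
    have h3 : AnalyticOnNhd ℂ (fun z => χ.LFunction (s0 + z)) {z : ℂ | s0 + z ≠ 1} := by
      refine DifferentiableOn.analyticOnNhd ?_ hopen
      intro z hz
      have h4 : DifferentiableAt ℂ χ.LFunction (s0 + z) :=
        DirichletCharacter.differentiableAt_LFunction χ _ (Or.inl hz)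
      have h5 : DifferentiableAt ℂ (fun z : ℂ => s0 + z) z := by fun_prop
      exact (h4.comp z h5).differentiableWithinAt
    exact h3.mono fun z hz => hne z hz
  have hland := LF.landau (f := fun z => χ.LFunction (s0 + z)) (R := R) (M := 10 * Real.log l) hRpos
    (by linarith) hana (by simpa using hf0) (by
      intro z hz
      rw [hexp]
      simp only [add_zero]
      calc ‖χ.LFunction (s0 + z)‖ ≤ 2 * l := hbound z hz
        _ ≤ l ^ 10 * (lam / 2) := hmain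
        _ ≤ l ^ 10 * ‖χ.LFunction s0‖ := by gcongr) (by
      intro z hz hz2
      apply DirichletCharacter.LFunction_ne_zero_of_one_le_re χ
        (Or.inr (hne z (ball_subset_closedBall hz)))
      rw [add_re, hs0re]
      linarith)
  have hder : deriv (fun z => χ.LFunction (s0 + z)) 0 = deriv χ.LFunction s0 := by
    have h3 := deriv_comp_const_add (f := χ.LFunction) s0 0
    rw [h3, add_zero]
  rw [hder, add_zero] at hland
  exact hland

private theorem zf_fin {A B C d lam p g R : ℝ} (hC : C ≤ g) (hRpos : 0 < R) (hRle : R ≤ 1 / 2)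
    (hg : 1 ≤ g) (hlam : lam = R / (1000 * g)) (hp : p < R / (4000 * g)) (hd : d ≤ lam + p)
    (hdpos : 0 < d) (hdR : d < R)
    (h1 : -(2 * (10 * g) / R) + 1 / d - d / R ^ 2 ≤ A) (h2 : -(2 * (10 * g) / R) ≤ B)
    (h3 : 4 * A + B ≤ 3 / lam + C) : False := by
  have hgpos : 0 < g := by linarith
  obtain ⟨y, hy⟩ : ∃ y : ℝ, y = g / R := ⟨_, rfl⟩
  have hypos : 0 < y := by rw [hy]; positivity
  have hC' : C ≤ y := by
    have h4 : g ≤ y := by
      rw [hy, le_div_iff₀ hRpos]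
      nlinarith
    linarith
  have h4 : 2 * (10 * g) / R = 20 * y := by rw [hy]; ring
  have h5 : 3 / lam = 3000 * y := by
    rw [hlam, hy]
    field_simp
    ring
  have h6 : d / R ^ 2 ≤ y := by
    rw [hy, div_le_div_iff₀ (by positivity) hRpos]
    have h7 : d ≤ g * R := by nlinarith
    nlinarith
  rw [h4] at h1 h2
  rw [h5] at h3
  have h7 : 4 * (1 / d) ≤ 3105 * y := by linarith
  have h8 : y * lam = 1 / 1000 := by
    rw [hlam, hy]
    field_simp
  have h9 : y * (R / (4000 * g)) = 1 / 4000 := by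
    rw [hy]
    field_simp
  have h10 : y * d < 1 / 1000 + 1 / 4000 := by
    calc y * d ≤ y * (lam + p) := by gcongr
      _ < y * (lam + R / (4000 * g)) := by gcongr
      _ = 1 / 1000 + 1 / 4000 := by rw [mul_add, h8, h9]
  have h11 : 4 ≤ 3105 * (y * d) := by
    have h12 : 4 * (1 / d) * d ≤ 3105 * y * d := by gcongr
    have h13 : 4 * (1 / d) * d = 4 := by field_simp
    linarith
  linarith

theorem zfu (B : ℝ) (hB : 0 < B) : ∃ X0 : ℝ, 10 ≤ X0 ∧ ∀ X : ℝ, X0 ≤ X →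
    ∀ (q : ℕ) [NeZero q], (q : ℝ) ≤ (Real.log X) ^ B → ∀ (χ : DirichletCharacter ℂ q) (s : ℂ),
    1 ≤ |s.im| → |s.im| ≤ X → 1 - (Real.log X) ^ (-(0.93 : ℝ)) ≤ s.re →
    χ.LFunction s ≠ 0 := by
  obtain ⟨X1, hX1, hgr0⟩ := gru B hB
  obtain ⟨C, hC, h341⟩ := LF.l341
  obtain ⟨l0, hl0⟩ := zf_num C
  refine ⟨max X1 (Real.exp l0), le_max_of_le_left hX1, ?_⟩
  intro X hX q _ hq χ s hs hsX hre hzero
  have hXX1 : X1 ≤ X := (le_max_left _ _).trans hX
  have hXe : Real.exp l0 ≤ X := (le_max_right _ _).trans hX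
  have hX10 : 10 ≤ X := hX1.trans hXX1
  have hXpos : 0 < X := by linarith
  have hspos : 0 < |s.im| := by linarith
  have hl0' : l0 ≤ Real.log X := (Real.le_log_iff_exp_le hXpos).2 hXe
  have hgr := hgr0 X hXX1 q hq
  obtain ⟨hl, hlog, e1, e2, e3⟩ := hl0 _ hl0'
  set l := Real.log X with hldef
  have hlpos : 0 < l := by linarith
  set R : ℝ := l ^ (-(0.925 : ℝ)) / 2 with hR
  set lam : ℝ := R / (1000 * Real.log l) with hlam
  have hRpos : 0 < R := by rw [hR]; positivity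
  have hlampos : 0 < lam := by rw [hlam]; positivity
  have hRle : R ≤ 1 / 2 := by
    rw [hR]
    have : l ^ (-(0.925 : ℝ)) ≤ 1 := Real.rpow_le_one_of_one_le_of_nonpos hl (by norm_num)
    linarith
  -- real part < 1
  have hlt : s.re < 1 := by
    by_contra h
    rw [not_lt] at h
    refine DirichletCharacter.LFunction_ne_zero_of_one_le_re χ (Or.inr ?_) h hzero
    intro h3
    rw [h3, Complex.one_im, abs_zero] at hspos
    exact lt_irrefl _ hspos
  set γ := s.im with hγ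
  set d : ℝ := 1 + lam - s.re with hd
  have hdpos : 0 < d := by linarith
  have hdle : d ≤ lam + l ^ (-(0.93 : ℝ)) := by linarith
  have h93 : l ^ (-(0.93 : ℝ)) < R / (4000 * Real.log l) := by
    rw [lt_div_iff₀ (by positivity), hR]
    linarith
  have hdR : d < R := by
    have h3 : lam ≤ R / 1000 := by
      rw [hlam]
      apply div_le_div_of_nonneg_left hRpos.le (by norm_num)
      linarith
    have h4 : R / (4000 * Real.log l) ≤ R / 4000 := by
      apply div_le_div_of_nonneg_left hRpos.le (by norm_num)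
      linarith
    linarith
  have hp1 := (zf_local χ (fun s => hgr χ s) hl hlog hR hlam e2 (γ := γ) hs (by nlinarith)).2
    d hdpos hdR (by
      rw [← hzero]
      congr 1
      apply Complex.ext
      · simp [hd]
      · simp [hγ])
  have hp2 := (zf_local (χ ^ 2) (fun s => hgr (χ ^ 2) s) hl hlog hR hlam e2 (γ := 2 * γ)
    (by rw [abs_mul, abs_two]; linarith)
    (by rw [abs_mul, abs_two]; nlinarith)).1
  have h3 := h341 q χ (1 + lam) γ (by linarith) (by
    have h3 : lam ≤ R := by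
      rw [hlam]
      apply div_le_self hRpos.le
      linarith
    linarith)
  have hcast : ((1 + lam : ℝ) : ℂ) + 2 * γ * I = ((1 + lam : ℝ) : ℂ) + ((2 * γ : ℝ) : ℂ) * I := by
    push_cast
    ring
  rw [hcast, add_sub_cancel_left] at h3
  exact zf_fin (by linarith) hRpos hRle hlog hlam h93 hdle hdpos hdR hp1 hp2 h3

end Pool.Agent.H43.UF
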