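import Pool.Agent.H43.LF.Inv
import Pool.Agent.H43.UF.Zf

/-!
# [H43 UF INV] Bound for `1/L`, `3/2 <= |Im s| <= X - 1`

PROOF. Adapt `LF/Inv.lean`, in terms of `ℓ = log X`. `r = ℓ^(-0.935)` (`<= 1/4`). If `Re s >= 1 + r/4`: for
`Re s <= 2` `‖1/L(s)‖ <= 2/(Re s - 1) <= 8/r <= ℓ^12` (`H92.SW.lower_trivial`), for `Re s > 2` as in `LF/Inv.lean`.
Let `1 - ℓ^(-0.94) <= Re s < 1 + r/4`, `s1 = 1 + r/2 + i Im s`. In the ball `B(s1, r)`:
`Re >= 1 - r/2 >= 1 - ℓ^(-0.93)`, `|Im| ∈ [|Im s|-1/4, |Im s|+1/4] ⊆ [1, X]`, so `L` has no zeros there (`zfu`)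
and `|L| <= 2ℓ` (`gru`). `L = L(s1) exp(h)`, `h(s1) = 0`, `Re h <= log(2ℓ * 4/r) <= 3 log ℓ =: M`.
`|s - s1| <= r/2 + ℓ^(-0.94) <= 0.6 r`, Borel-Caratheodory: `|h(s)| <= 3M = 9 log ℓ`. Hence
`|1/L(s)| <= (4/r) ℓ^9 <= ℓ^12`.
-/

namespace Pool.Agent.H43.UF

open Complex Metric Filter

private theorem invu_bc {f : ℂ → ℂ} {c : ℂ} {r M : ℝ} (hr : 0 < r) (hM : 0 < M)
    (hf : DifferentiableOn ℂ f (ball c r)) (h0 : ∀ z ∈ ball c r, f z ≠ 0)
    (hb : ∀ z ∈ ball c r, ‖f z‖ ≤ Real.exp M * ‖f c‖) {z : ℂ} (hz : ‖z - c‖ ≤ 0.6 * r) :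
    ‖(f z)⁻¹‖ ≤ ‖(f c)⁻¹‖ * Real.exp (3 * M) := by
  set F : ℂ → ℂ := fun w => f (c + w) with hF
  have hmem : ∀ w ∈ ball (0 : ℂ) r, c + w ∈ ball c r := by
    intro w hw
    rw [mem_ball, dist_eq_norm] at hw ⊢
    rw [sub_zero] at hw
    rwa [add_sub_cancel_left]
  have hFd : DifferentiableOn ℂ F (ball 0 r) := by
    refine hf.comp (g := f) (f := fun w => c + w) ?_ hmem
    fun_prop
  have hF0 : ∀ w ∈ ball (0 : ℂ) r, F w ≠ 0 := fun w hw => h0 _ (hmem w hw)
  have hquo : DifferentiableOn ℂ (fun w => deriv F w / F w) (ball 0 r) :=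
    (hFd.deriv isOpen_ball).div hFd hF0
  obtain ⟨h, hh0, hh⟩ := (hquo.isExactOn_ball).with_val_at 0 0
  have hhd : DifferentiableOn ℂ h (ball 0 r) := fun w hw =>
    (hh w hw).differentiableAt.differentiableWithinAt
  have h0mem : (0 : ℂ) ∈ ball (0 : ℂ) r := mem_ball_self hr
  have hG : ∀ w ∈ ball (0 : ℂ) r, HasDerivAt (fun w => F w * Complex.exp (-h w)) 0 w := by
    intro w hw
    have h1 : HasDerivAt F (deriv F w) w :=
      (hFd.differentiableAt (isOpen_ball.mem_nhds hw)).hasDerivAt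
    have h2 : HasDerivAt (fun w => Complex.exp (-h w))
        (Complex.exp (-h w) * -(deriv F w / F w)) w := (hh w hw).neg.cexp
    have h3 := h1.mul h2
    have h4 : deriv F w * Complex.exp (-h w) +
        F w * (Complex.exp (-h w) * -(deriv F w / F w)) = 0 := by
      have := hF0 w hw
      field_simp
      ring
    rw [h4] at h3
    exact h3
  have hconst : ∀ w ∈ ball (0 : ℂ) r, F w = F 0 * Complex.exp (h w) := by
    intro w hw
    have h1 := IsOpen.is_const_of_deriv_eq_zero isOpen_ball (convex_ball (0 : ℂ) r).isPreconnected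
      (f := fun w => F w * Complex.exp (-h w))
      (fun w hw => (hG w hw).differentiableAt.differentiableWithinAt)
      (fun w hw => (hG w hw).deriv) hw h0mem
    simp only [hh0, neg_zero, Complex.exp_zero, mul_one] at h1
    rw [← h1, mul_assoc, ← Complex.exp_add, neg_add_cancel, Complex.exp_zero, mul_one]
  have hFc : F 0 = f c := by simp [hF]
  have hc0 : 0 < ‖f c‖ := norm_pos_iff.2 (h0 c (mem_ball_self hr))
  have hre : Set.MapsTo h (ball 0 r) {z | z.re ≤ M} := by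
    intro w hw
    have h1 := hb _ (hmem w hw)
    have h2 : f (c + w) = f c * Complex.exp (h w) := by
      rw [← hFc]
      exact hconst w hw
    rw [h2, norm_mul, Complex.norm_exp, mul_comm] at h1
    have h3 := le_of_mul_le_mul_right h1 hc0
    exact Real.exp_le_exp.1 h3
  have hzb : z - c ∈ ball (0 : ℂ) r := by
    rw [mem_ball_zero_iff]
    linarith
  have h1 := borelCaratheodory_zero hM hhd hre hr hzb hh0
  have h2 : ‖h (z - c)‖ ≤ 3 * M := by
    refine h1.trans ?_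
    rw [div_le_iff₀ (by linarith)]
    nlinarith [norm_nonneg (z - c)]
  have h3 := hconst (z - c) hzb
  have h4 : F (z - c) = f z := by simp [hF]
  rw [h4, hFc] at h3
  rw [h3, mul_inv, norm_mul, ← Complex.exp_neg, Complex.norm_exp]
  have h5 : (-h (z - c)).re ≤ 3 * M := by
    have := abs_re_le_norm (h (z - c))
    rw [neg_re]
    linarith [neg_abs_le (h (z - c)).re]
  gcongr

private theorem invu_num : ∃ l0 : ℝ, 1 ≤ l0 ∧ ∀ l : ℝ, l0 ≤ l → 1 ≤ Real.log l ∧ 8 ≤ l ∧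
    l ^ (-(0.94 : ℝ)) ≤ 0.1 * l ^ (-(0.935 : ℝ)) ∧ l ^ (-(0.935 : ℝ)) ≤ 1 / 4 := by
  have h1 : ∀ᶠ l : ℝ in atTop, 10 ≤ l ^ (0.005 : ℝ) :=
    (tendsto_rpow_atTop (by norm_num : (0 : ℝ) < 0.005)).eventually_ge_atTop 10
  have h2 : ∀ᶠ l : ℝ in atTop, 4 ≤ l ^ (0.935 : ℝ) :=
    (tendsto_rpow_atTop (by norm_num : (0 : ℝ) < 0.935)).eventually_ge_atTop 4
  obtain ⟨l0, hl0⟩ := eventually_atTop.1 ((h1.and h2).and (eventually_ge_atTop (8 : ℝ)))
  refine ⟨max l0 1, le_max_right _ _, fun l hl => ?_⟩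
  obtain ⟨⟨a1, a3⟩, a2⟩ := hl0 l ((le_max_left _ _).trans hl)
  have hlpos : 0 < l := by linarith
  refine ⟨?_, a2, ?_, ?_⟩
  · rw [Real.le_log_iff_exp_le hlpos]
    have := Real.exp_one_lt_d9
    linarith
  · have h6 : l ^ (-(0.935 : ℝ)) = l ^ (0.005 : ℝ) * l ^ (-(0.94 : ℝ)) := by
      rw [← Real.rpow_add hlpos]
      norm_num
    rw [h6]
    have h7 : 0 < l ^ (-(0.94 : ℝ)) := by positivity
    nlinarith
  · rw [Real.rpow_neg hlpos.le, one_div]
    exact inv_anti₀ (by norm_num) a3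

private theorem invu_right {q : ℕ} [NeZero q] (χ : DirichletCharacter ℂ q) {s : ℂ}
    (hs : 1 < s.re) : ‖(χ.LFunction s)⁻¹‖ ≤ 1 + 1 / (s.re - 1) := by
  have h1 := DirichletCharacter.LSeries.mul_mu_eq_one χ hs
  rw [← χ.LFunction_eq_LSeries hs] at h1
  have h2 := (eq_inv_of_mul_eq_one_right h1).symm
  rw [h2]
  refine (Pool.Agent.H92.SW.norm_LSeries_le_re ?_ hs).trans (le_of_eq ?_)
  · intro n
    rw [Pi.mul_apply, norm_mul]
    have h3 : ‖χ n‖ ≤ 1 := DirichletCharacter.norm_le_one _ _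
    have h4 : ‖((ArithmeticFunction.moebius n : ℤ) : ℂ)‖ ≤ 1 := by
      rw [Complex.norm_intCast]
      exact_mod_cast ArithmeticFunction.abs_moebius_le_one
    calc ‖χ n‖ * ‖((ArithmeticFunction.moebius n : ℤ) : ℂ)‖ ≤ 1 * 1 := by gcongr
      _ = 1 := one_mul 1
  · have h3 : s.re - 1 ≠ 0 := by linarith
    field_simp
    ring

theorem invu (B : ℝ) (hB : 0 < B) : ∃ X0 : ℝ, 10 ≤ X0 ∧ ∀ X : ℝ, X0 ≤ X →
    ∀ (q : ℕ) [NeZero q], (q : ℝ) ≤ (Real.log X) ^ B → ∀ (χ : DirichletCharacter ℂ q) (s : ℂ),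
    3 / 2 ≤ |s.im| → |s.im| ≤ X - 1 → 1 - (Real.log X) ^ (-(0.94 : ℝ)) ≤ s.re →
    χ.LFunction s ≠ 0 ∧ ‖(χ.LFunction s)⁻¹‖ ≤ (Real.log X) ^ (12 : ℝ) := by
  obtain ⟨X1, hX1, hgr⟩ := gru B hB
  obtain ⟨X2, hX2, hzf⟩ := zfu B hB
  obtain ⟨l0, hl01, hl0⟩ := invu_num
  refine ⟨max (max X1 X2) (Real.exp l0), ?_, ?_⟩
  · exact le_max_of_le_left (le_max_of_le_left (by linarith))
  intro X hX q _ hq χ s hsl hsu hre
  have hs1 : X1 ≤ X := ((le_max_left _ _).trans (le_max_left _ _)).trans hX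
  have hs2 : X2 ≤ X := ((le_max_right _ _).trans (le_max_left _ _)).trans hX
  have hse : Real.exp l0 ≤ X := (le_max_right _ _).trans hX
  have hXpos : 0 < X := by linarith
  have hspos : 0 < |s.im| := by linarith
  have hl0' : l0 ≤ Real.log X := (Real.le_log_iff_exp_le hXpos).2 hse
  obtain ⟨hlog, hl8, e1, e2⟩ := hl0 _ hl0'
  have hgr' := hgr X hs1 q hq χ
  have hzf' := hzf X hs2 q hq χ
  generalize hldef : Real.log X = l at *
  have hlpos : 0 < l := by linarith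
  have hl1 : 1 ≤ l := by linarith
  obtain ⟨r, hr⟩ : ∃ r : ℝ, r = l ^ (-(0.935 : ℝ)) := ⟨_, rfl⟩
  have hrpos : 0 < r := by rw [hr]; positivity
  rw [← hr] at e1 e2
  have hrle : r ≤ 1 := by linarith
  have hrinv : 1 / r ≤ l := by
    rw [hr, Real.rpow_neg hlpos.le, one_div, inv_inv]
    calc l ^ (0.935 : ℝ) ≤ l ^ (1 : ℝ) := Real.rpow_le_rpow_of_exponent_le hl1 (by norm_num)
      _ = l := Real.rpow_one l
  have h12 : l ^ (12 : ℝ) = l ^ 12 := by
    rw [← Real.rpow_natCast]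
    norm_num
  rw [h12]
  have hs1' : s ≠ 1 := by
    intro h
    rw [h, one_im, abs_zero] at hspos
    exact lt_irrefl _ hspos
  by_cases hA : 1 + r / 4 ≤ s.re
  · refine ⟨DirichletCharacter.LFunction_ne_zero_of_one_le_re χ (Or.inr hs1') (by linarith), ?_⟩
    refine (invu_right χ (by linarith)).trans ?_
    have h1 : 1 / (s.re - 1) ≤ 4 / r := by
      rw [div_le_div_iff₀ (by linarith) hrpos]
      linarith
    have h2 : 4 / r ≤ 4 * l := by
      calc 4 / r = 4 * (1 / r) := by ring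
        _ ≤ 4 * l := by gcongr
    have h3 : l ^ 2 ≤ l ^ 12 := pow_le_pow_right₀ hl1 (by norm_num)
    nlinarith
  rw [not_le] at hA
  have h93 : l ^ (-(0.94 : ℝ)) ≤ l ^ (-(0.93 : ℝ)) :=
    Real.rpow_le_rpow_of_exponent_le hl1 (by norm_num)
  refine ⟨hzf' s (by linarith) (by linarith) (by linarith), ?_⟩
  -- the ball
  set c : ℂ := ((1 + r / 2 : ℝ) : ℂ) + s.im * I with hc
  have hcre : c.re = 1 + r / 2 := by simp [hc]
  have hcim : c.im = s.im := by simp [hc]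
  have hball : ∀ w ∈ ball c r, 1 - r / 2 ≤ w.re ∧ 1 ≤ |w.im| ∧ |w.im| ≤ X := by
    intro w hw
    rw [mem_ball, dist_eq_norm] at hw
    have h1 := (abs_re_le_norm (w - c)).trans hw.le
    have h2 := (abs_im_le_norm (w - c)).trans hw.le
    rw [sub_re, hcre] at h1
    rw [sub_im, hcim] at h2
    have h1' := (abs_le.1 h1).1
    have h3 : |s.im| ≤ |w.im| + |w.im - s.im| := by
      calc |s.im| = |w.im - (w.im - s.im)| := by ring_nf
        _ ≤ _ := abs_sub _ _
    have h4 : |w.im| ≤ |s.im| + |w.im - s.im| := by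
      calc |w.im| = |s.im + (w.im - s.im)| := by ring_nf
        _ ≤ _ := abs_add_le _ _
    exact ⟨by linarith, by linarith, by linarith⟩
  have hexpo : ∀ (a : ℝ), a ≤ 0.93 → ∀ w ∈ ball c r, 1 - l ^ (-a) ≤ w.re := by
    intro a ha2 w hw
    obtain ⟨b1, b2, b3⟩ := hball w hw
    have h7 : r ≤ l ^ (-a) := by
      rw [hr]
      exact Real.rpow_le_rpow_of_exponent_le hl1 (by linarith)
    linarith
  have hLb : ∀ w ∈ ball c r, ‖χ.LFunction w‖ ≤ 2 * l := by
    intro w hw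
    obtain ⟨b1, b2, b3⟩ := hball w hw
    exact hgr' w (by linarith) (by nlinarith) (hexpo 0.925 (by norm_num) w hw)
  have hL0 : ∀ w ∈ ball c r, χ.LFunction w ≠ 0 := by
    intro w hw
    obtain ⟨b1, b2, b3⟩ := hball w hw
    exact hzf' w b2 b3 (hexpo 0.93 le_rfl w hw)
  have hlow := Pool.Agent.H92.SW.lower_trivial χ (s := c) (by rw [hcre]; linarith)
    (by rw [hcre]; linarith)
  rw [hcre, add_sub_cancel_left] at hlow
  have hexp : Real.exp (3 * Real.log l) = l ^ 3 := by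
    have : (3 : ℝ) * Real.log l = Real.log (l ^ 3) := by
      rw [Real.log_pow]
      norm_num
    rw [this, Real.exp_log (by positivity)]
  have hexp9 : Real.exp (3 * (3 * Real.log l)) = l ^ 9 := by
    have : (3 : ℝ) * (3 * Real.log l) = Real.log (l ^ 9) := by
      rw [Real.log_pow]
      norm_num
      ring
    rw [this, Real.exp_log (by positivity)]
  have hrl : 1 ≤ l * r := by
    rw [div_le_iff₀ hrpos] at hrinv
    linarith
  have hmain := invu_bc (f := χ.LFunction) (c := c) (r := r) (M := 3 * Real.log l) hrpos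
    (by linarith) (by
      intro w hw
      refine (DirichletCharacter.differentiableAt_LFunction χ w (Or.inl ?_)).differentiableWithinAt
      intro h
      have := (hball w hw).2.1
      rw [h, one_im, abs_zero] at this
      linarith) hL0 (by
      intro w hw
      rw [hexp]
      have h3 : 2 * l ≤ l ^ 3 * (r / 2 / 2) := by
        have h4 : 8 * l ≤ l ^ 2 := by nlinarith
        have h5 : l ^ 3 * (r / 2 / 2) = l ^ 2 * (l * r) / 4 := by ring
        rw [h5]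
        nlinarith
      calc ‖χ.LFunction w‖ ≤ 2 * l := hLb w hw
        _ ≤ l ^ 3 * (r / 2 / 2) := h3
        _ ≤ l ^ 3 * ‖χ.LFunction c‖ := by gcongr) (z := s) (by
      have h3 : s - c = ((s.re - (1 + r / 2) : ℝ) : ℂ) := by
        apply Complex.ext
        · simp [hcre]
        · simp [hcim]
      rw [h3, Complex.norm_real, Real.norm_eq_abs, abs_le]
      constructor <;> linarith)
  rw [hexp9] at hmain
  refine hmain.trans ?_
  have h3 : ‖(χ.LFunction c)⁻¹‖ ≤ 4 * l := by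
    rw [norm_inv]
    have h4 : 1 / (4 * l) ≤ ‖χ.LFunction c‖ := by
      refine le_trans ?_ hlow
      rw [div_le_iff₀ (by positivity)]
      linarith
    have h5 : 0 < ‖χ.LFunction c‖ := lt_of_lt_of_le (by positivity) h4
    rw [inv_le_comm₀ h5 (by positivity), ← one_div]
    exact h4
  calc ‖(χ.LFunction c)⁻¹‖ * l ^ 9 ≤ 4 * l * l ^ 9 := by gcongr
    _ ≤ l * l * l ^ 9 := by gcongr; linarith
    _ = l ^ 11 := by ring
    _ ≤ l ^ 12 := pow_le_pow_right₀ hl1 (by norm_num)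

end Pool.Agent.H43.UF
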