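import Pool.Agent.H43.LF.Defs

/-!
# L-functions near the line 1, UNIFORM in the modulus `q <= (log X)^B` (H43/UF): plan

The fixed modulus library `H43/LF`, `H43/SI` once more, now for all `q <= (log X)^B`, `X >= X0(B)`.
The modulus enters only through: the splitting into classes (`Chi`, harmless as `8q <= exp(√log|t| / 4)`),
the error term of `LF.lap`, small `|t|` (`Gr`, elementary), and `|t| <= 2` (`Sm`, the theorem of Siegel in the
form `H92.SW.lower_bound`; `Ze`, `Tr` for the principal character).

* `Chi`, `Grb`, `Gr`: growth; `Zf`: zero free region; `Inv`: the bound for `1/L`, `|t| >= 3/2`.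
* `Ze`, `Tr`, `Sm`: the same near the real axis.
* `Mud`, `Mu`: the series and the sums of `μ(n) χ(n)`; `Smf`, `Lwb`: sums of `χ(n) n^(-1-it)`.
* `Pw`: one factor; `Msum`, `Psi`: sums of `μ χ` and `Λ χ`.
-/
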