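import Pool.Agent.H92.SW.Sieg5
import Pool.Agent.H92.SW.LogDer
import Pool.Agent.H43.UF.Defs

/-!
# [H43 UF SM] Siegel's theorem: `L(s,χ)` near the real segment, `χ ≠ 1`

PROOF. `ℓ = log X`. Primitive `χ` mod `q` first, `q <= ℓ^B`. `ε = 1/(20(B+1))`: for `1 < Re s <= 2`, `|Im s| <= 2`
`H92.SW.lower_bound H92.SW.siegel` gives `‖L(s,χ)‖ >= c q^(-ε) 4^(-A) >= c' ℓ^(-0.05)`. `d = 1/(100(B+1))`:
`H92.SW.ld_deriv_le`: for `1 < Re s' <= 2`, `|Im s'| <= 2`, `‖w - s'‖ <= d/2`: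
`‖L'(w)‖ <= 16 q^(2d)/d^2 <= C ℓ^0.02`. Let `Re s >= 1 - ℓ^(-1/2)`, `Re s <= 2` and
`s' = max(Re s, 1 + ℓ^(-1/2)) + i Im s` (`Re s' <= 2`, `‖s-s'‖ <= 2ℓ^(-1/2) <= d/2` for `ℓ` large). The segment lies in
the ball around `s'`, so (`Convex.norm_image_sub_le_of_norm_deriv_le`) `‖L(s) - L(s')‖ <= 2Cℓ^(-0.48)`
`<= (c'/2) ℓ^(-0.05)` for `ℓ` large, so `‖L(s,χ)‖ >= (c'/2) ℓ^(-0.05)`.
General `χ ≠ 1` mod `q`: `χ = changeLevel χ.primitiveCharacter` (Mathlib: `DirichletCharacter.primitiveCharacter`,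
`changeLevel_primitiveCharacter`, `primitiveCharacter_isPrimitive`, `conductor_dvd_level`), the primitive
character is `≠ 1`, its level is `<= q`; `DirichletCharacter.LFunction_changeLevel`:
`L(s,χ) = L(s,χ*) ∏_{p ∣ q} (1 - χ*(p) p^(-s))`, each factor `>= 1 - p^(-1/2) >= 1/4` in norm, `2^ω(q) <= q`, so the
product is `>= q^(-2) >= ℓ^(-2B)`. Total `>= (c'/2) ℓ^(-0.05-2B) >= ℓ^(-(2B+1))`.
-/

namespace Pool.Agent.H43.UF

open Finset

private theorem sm_two_pow (q : ℕ) (hq : q ≠ 0) : 2 ^ q.primeFactors.card ≤ q := by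
  have h1 : 2 ^ q.primeFactors.card ≤ ∏ p ∈ q.primeFactors, p := by
    rw [← Finset.prod_const]
    exact Finset.prod_le_prod' fun p hp => (Nat.prime_of_mem_primeFactors hp).two_le
  exact h1.trans (Nat.le_of_dvd (Nat.pos_of_ne_zero hq) (Nat.prod_primeFactors_dvd q))

private theorem sm_factor {p : ℕ} (hp : p.Prime) {z : ℂ} (hz : ‖z‖ ≤ 1) {s : ℂ}
    (hs : 1 / 2 ≤ s.re) : 1 / 4 ≤ ‖1 - z * (p : ℂ) ^ (-s)‖ := by
  have hp0 : 0 < p := hp.pos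
  have hp2 : (2 : ℝ) ≤ p := by exact_mod_cast hp.two_le
  have h1 : ‖(p : ℂ) ^ (-s)‖ = (p : ℝ) ^ (-s.re) := by
    rw [Complex.norm_natCast_cpow_of_pos hp0, Complex.neg_re]
  have h2 : (p : ℝ) ^ (-s.re) ≤ 3 / 4 := by
    have h3 : (p : ℝ) ^ (-s.re) ≤ (p : ℝ) ^ (-(1 / 2 : ℝ)) :=
      Real.rpow_le_rpow_of_exponent_le (by linarith) (by linarith)
    have h4 : (p : ℝ) ^ (-(1 / 2 : ℝ)) ≤ (2 : ℝ) ^ (-(1 / 2 : ℝ)) :=
      Real.rpow_le_rpow_of_nonpos (by norm_num) hp2 (by norm_num)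
    have h5 : (2 : ℝ) ^ (-(1 / 2 : ℝ)) ≤ 3 / 4 := by
      rw [Real.rpow_neg (by norm_num), ← Real.sqrt_eq_rpow]
      rw [inv_le_comm₀ (by positivity) (by norm_num)]
      apply Real.le_sqrt_of_sq_le
      norm_num
    exact h3.trans (h4.trans h5)
  have h3 : ‖z * (p : ℂ) ^ (-s)‖ ≤ 3 / 4 := by
    rw [norm_mul, h1]
    have h4 : 0 ≤ (p : ℝ) ^ (-s.re) := by positivity
    nlinarith [norm_nonneg z]
  have h4 : ‖(1 : ℂ)‖ - ‖z * (p : ℂ) ^ (-s)‖ ≤ ‖1 - z * (p : ℂ) ^ (-s)‖ :=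
    norm_sub_norm_le _ _
  rw [norm_one] at h4
  linarith

private theorem sm_prod {M : ℕ} (ψ : DirichletCharacter ℂ M) (q : ℕ) (hq : q ≠ 0) {s : ℂ}
    (hs : 1 / 2 ≤ s.re) :
    (q : ℝ) ^ (-(2 : ℝ)) ≤ ‖∏ p ∈ q.primeFactors, (1 - ψ p * (p : ℂ) ^ (-s))‖ := by
  have hq0 : 0 < (q : ℝ) := by exact_mod_cast Nat.pos_of_ne_zero hq
  rw [norm_prod]
  have h1 : ∏ _p ∈ q.primeFactors, (1 / 4 : ℝ) ≤
      ∏ p ∈ q.primeFactors, ‖1 - ψ p * (p : ℂ) ^ (-s)‖ := by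
    refine Finset.prod_le_prod (fun _ _ => by norm_num) fun p hp => ?_
    exact sm_factor (Nat.prime_of_mem_primeFactors hp) (ψ.norm_le_one _) hs
  refine le_trans ?_ h1
  rw [Finset.prod_const]
  have h2 : ((2 : ℝ) ^ q.primeFactors.card) ≤ q := by exact_mod_cast sm_two_pow q hq
  have h3 : (1 / 4 : ℝ) ^ q.primeFactors.card = (((2 : ℝ) ^ q.primeFactors.card) ^ 2)⁻¹ := by
    rw [← pow_mul, mul_comm, pow_mul, one_div, inv_pow]
    norm_num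
  rw [h3, Real.rpow_neg hq0.le]
  have h4 : (q : ℝ) ^ (2 : ℝ) = (q : ℝ) ^ 2 := by
    rw [← Real.rpow_natCast]; norm_num
  rw [h4]
  apply inv_anti₀ (by positivity)
  gcongr

/-- the case of a primitive character -/
private theorem sm_prim (B : ℝ) (hB : 0 < B) : ∃ c : ℝ, 0 < c ∧ ∃ l0 : ℝ, 4 ≤ l0 ∧
    ∀ l : ℝ, l0 ≤ l → ∀ (q : ℕ) [NeZero q], (q : ℝ) ≤ l ^ B →
    ∀ (χ : DirichletCharacter ℂ q), χ.IsPrimitive → χ ≠ 1 →
    ∀ s : ℂ, |s.im| ≤ 2 → 1 - l ^ (-(1 : ℝ) / 2) ≤ s.re → s.re ≤ 2 →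
    c * l ^ (-(0.05 : ℝ)) ≤ ‖χ.LFunction s‖ := by
  set ε : ℝ := 1 / (20 * (B + 1)) with hε
  have hε0 : 0 < ε := by rw [hε]; positivity
  have hBε : B * ε ≤ 0.05 := by
    rw [hε, mul_one_div, div_le_iff₀ (by positivity)]
    linarith
  obtain ⟨c, hc, A, hA, hlow⟩ := H92.SW.lower_bound H92.SW.siegel hε0
  set d : ℝ := 1 / (100 * (B + 1)) with hd
  have hd0 : 0 < d := by rw [hd]; positivity
  have hd1 : 2 * d ≤ 1 := by
    rw [hd, mul_one_div, div_le_one (by positivity)]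
    linarith
  have hBd : B * (2 * d) ≤ 0.02 := by
    have : B * (2 * d) = 2 * B / (100 * (B + 1)) := by rw [hd]; ring
    rw [this, div_le_iff₀ (by positivity)]
    linarith
  set c' : ℝ := c * 4 ^ (-A) with hc'
  have hc'0 : 0 < c' := by positivity
  set K : ℝ := 32 / d ^ 2 with hK
  have hK0 : 0 < K := by positivity
  -- largeness
  have e1 : ∀ᶠ l : ℝ in Filter.atTop, 2 * K / c' ≤ l ^ (0.43 : ℝ) :=
    (tendsto_rpow_atTop (by norm_num)).eventually_ge_atTop _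
  have e2 : ∀ᶠ l : ℝ in Filter.atTop, 4 / d ≤ l ^ (1 / 2 : ℝ) :=
    (tendsto_rpow_atTop (by norm_num)).eventually_ge_atTop _
  obtain ⟨l0, hl0⟩ := Filter.eventually_atTop.1 (e1.and e2)
  refine ⟨c' / 2, by positivity, max 4 l0, le_max_left _ _, ?_⟩
  intro l hl q _ hq χ hprim hχ s him hre hre2
  obtain ⟨e1, e2⟩ := hl0 l ((le_max_right _ _).trans hl)
  have hl4 : 4 ≤ l := (le_max_left _ _).trans hl
  have hl1 : 1 ≤ l := by linarith
  have hlpos : 0 < l := by linarith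
  have hq0 : 0 < (q : ℝ) := by exact_mod_cast Nat.pos_of_ne_zero (NeZero.ne q)
  set h : ℝ := l ^ (-(1 : ℝ) / 2) with hh
  have hh0 : 0 < h := by positivity
  have hmul : h * l ^ (1 / 2 : ℝ) = 1 := by
    rw [hh, ← Real.rpow_add hlpos]; norm_num
  have hh1 : h ≤ 1 := Real.rpow_le_one_of_one_le_of_nonpos hl1 (by norm_num)
  have hhd : 4 * h ≤ d := by
    have h1 : 4 ≤ l ^ (1 / 2 : ℝ) * d := by
      rwa [div_le_iff₀ hd0] at e2
    have h2 : h * 4 ≤ h * (l ^ (1 / 2 : ℝ) * d) := by gcongr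
    rw [← mul_assoc, hmul, one_mul] at h2
    linarith
  set s' : ℂ := ⟨max s.re (1 + h), s.im⟩ with hs'
  have hs're : s'.re = max s.re (1 + h) := rfl
  have hs'im : s'.im = s.im := rfl
  have hs'1 : 1 < s'.re := by
    rw [hs're]; exact lt_of_lt_of_le (by linarith) (le_max_right _ _)
  have hs'2 : s'.re ≤ 2 := by
    rw [hs're]; exact max_le hre2 (by linarith)
  have hdist : ‖s - s'‖ ≤ 2 * h := by
    have h1 : s - s' = ((s.re - s'.re : ℝ) : ℂ) := by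
      apply Complex.ext
      · simp
      · simp [hs'im]
    rw [h1, Complex.norm_real, Real.norm_eq_abs, abs_le]
    rw [hs're]
    rcases max_cases s.re (1 + h) with ⟨h2, h3⟩ | ⟨h2, h3⟩
    · rw [h2]; constructor <;> linarith
    · rw [h2]; constructor <;> linarith
  -- lower bound at s'
  have hL' : c' * l ^ (-(0.05 : ℝ)) ≤ ‖χ.LFunction s'‖ := by
    refine le_trans ?_ (hlow q χ hprim hχ s' hs'1 hs'2)
    have h1 : l ^ (-(0.05 : ℝ)) ≤ (q : ℝ) ^ (-ε) := by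
      have h2 : (l ^ B) ^ (-ε) ≤ (q : ℝ) ^ (-ε) :=
        Real.rpow_le_rpow_of_nonpos hq0 hq (by linarith)
      refine le_trans ?_ h2
      rw [← Real.rpow_mul hlpos.le]
      apply Real.rpow_le_rpow_of_exponent_le hl1
      linarith
    have h2 : (4 : ℝ) ^ (-A) ≤ (|s'.im| + 2) ^ (-A) := by
      apply Real.rpow_le_rpow_of_nonpos (by positivity) _ (by linarith)
      rw [hs'im]; linarith
    calc c' * l ^ (-(0.05 : ℝ)) = c * l ^ (-(0.05 : ℝ)) * 4 ^ (-A) := by rw [hc']; ring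
      _ ≤ c * (q : ℝ) ^ (-ε) * (|s'.im| + 2) ^ (-A) := by gcongr
  -- derivative
  have hder : ∀ w ∈ Metric.closedBall s' (d / 2), ‖deriv χ.LFunction w‖ ≤
      16 / d ^ 2 * l ^ (0.02 : ℝ) := by
    intro w hw
    rw [mem_closedBall_iff_norm] at hw
    refine (H92.SW.ld_deriv_le hχ hd0 hd1 hs'1 hs'2 hw).trans ?_
    rw [hs'im]
    have h1 : (q : ℝ) ^ (2 * d) ≤ l ^ (0.02 : ℝ) := by
      have h2 : (q : ℝ) ^ (2 * d) ≤ (l ^ B) ^ (2 * d) :=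
        Real.rpow_le_rpow hq0.le hq (by linarith)
      refine h2.trans ?_
      rw [← Real.rpow_mul hlpos.le]
      exact Real.rpow_le_rpow_of_exponent_le hl1 hBd
    have h2 : 4 * (|s.im| + 2) ≤ 16 := by linarith
    calc 4 * (|s.im| + 2) * (q : ℝ) ^ (2 * d) / d ^ 2 ≤ 16 * l ^ (0.02 : ℝ) / d ^ 2 := by
          gcongr
      _ = 16 / d ^ 2 * l ^ (0.02 : ℝ) := by ring
  have hs_mem : s ∈ Metric.closedBall s' (d / 2) := by
    rw [mem_closedBall_iff_norm]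
    linarith
  have hs'_mem : s' ∈ Metric.closedBall s' (d / 2) := Metric.mem_closedBall_self (by linarith)
  have hmv := (convex_closedBall s' (d / 2)).norm_image_sub_le_of_norm_deriv_le
    (f := χ.LFunction) (fun w _ => (DirichletCharacter.differentiable_LFunction hχ) w) hder
    hs'_mem hs_mem
  have hmv2 : ‖χ.LFunction s - χ.LFunction s'‖ ≤ c' / 2 * l ^ (-(0.05 : ℝ)) := by
    refine hmv.trans ?_
    have h1 : 16 / d ^ 2 * l ^ (0.02 : ℝ) * ‖s - s'‖ ≤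
        16 / d ^ 2 * l ^ (0.02 : ℝ) * (2 * h) := by gcongr
    refine h1.trans ?_
    have h2 : 16 / d ^ 2 * l ^ (0.02 : ℝ) * (2 * h) = K * l ^ (-(0.48 : ℝ)) := by
      have h3 : l ^ (-(0.48 : ℝ)) = l ^ (0.02 : ℝ) * h := by
        rw [hh, ← Real.rpow_add hlpos]; norm_num
      rw [h3, hK]; ring
    rw [h2]
    have h4 : l ^ (-(0.05 : ℝ)) = l ^ (0.43 : ℝ) * l ^ (-(0.48 : ℝ)) := by
      rw [← Real.rpow_add hlpos]; norm_num
    rw [h4]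
    have h5 : 2 * K ≤ l ^ (0.43 : ℝ) * c' := by rwa [div_le_iff₀ hc'0] at e1
    have h6 : 0 ≤ l ^ (-(0.48 : ℝ)) := by positivity
    calc K * l ^ (-(0.48 : ℝ)) ≤ (c' / 2 * l ^ (0.43 : ℝ)) * l ^ (-(0.48 : ℝ)) := by
          apply mul_le_mul_of_nonneg_right _ h6
          linarith
      _ = c' / 2 * (l ^ (0.43 : ℝ) * l ^ (-(0.48 : ℝ))) := by ring
  have h1 : ‖χ.LFunction s'‖ ≤ ‖χ.LFunction s‖ + ‖χ.LFunction s - χ.LFunction s'‖ := by
    calc ‖χ.LFunction s'‖ = ‖χ.LFunction s - (χ.LFunction s - χ.LFunction s')‖ := by ring_nf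
      _ ≤ _ := norm_sub_le _ _
  linarith

theorem sm (B : ℝ) (hB : 0 < B) : ∃ X0 : ℝ, 10 ≤ X0 ∧ ∀ X : ℝ, X0 ≤ X →
    ∀ (q : ℕ) [NeZero q], (q : ℝ) ≤ (Real.log X) ^ B → ∀ (χ : DirichletCharacter ℂ q), χ ≠ 1 →
    ∀ s : ℂ, |s.im| ≤ 2 → 1 - (Real.log X) ^ (-(1 : ℝ) / 2) ≤ s.re → s.re ≤ 2 →
    (Real.log X) ^ (-(2 * B + 1)) ≤ ‖χ.LFunction s‖ := by
  obtain ⟨c, hc, l0, hl0, hprim⟩ := sm_prim B hB
  have e1 : ∀ᶠ l : ℝ in Filter.atTop, 1 / c ≤ l ^ (0.95 : ℝ) :=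
    (tendsto_rpow_atTop (by norm_num)).eventually_ge_atTop _
  obtain ⟨l1, hl1⟩ := Filter.eventually_atTop.1 e1
  refine ⟨max 10 (Real.exp (max l0 l1)), le_max_left _ _, ?_⟩
  intro X hX q _ hq χ hχ s him hre hre2
  have hX10 : 10 ≤ X := (le_max_left _ _).trans hX
  have hXpos : 0 < X := by linarith
  have hlX : max l0 l1 ≤ Real.log X :=
    (Real.le_log_iff_exp_le hXpos).2 ((le_max_right _ _).trans hX)
  set l := Real.log X with hldef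
  have hll0 : l0 ≤ l := (le_max_left _ _).trans hlX
  have hll1 : l1 ≤ l := (le_max_right _ _).trans hlX
  have hl4 : 4 ≤ l := hl0.trans hll0
  have hl1' : 1 ≤ l := by linarith
  have hlpos : 0 < l := by linarith
  have e1 := hl1 l hll1
  have hq0 : 0 < (q : ℝ) := by exact_mod_cast Nat.pos_of_ne_zero (NeZero.ne q)
  have hsre : 1 / 2 ≤ s.re := by
    have h1 : l ^ (-(1 : ℝ) / 2) ≤ 4 ^ (-(1 : ℝ) / 2) :=
      Real.rpow_le_rpow_of_nonpos (by norm_num) hl4 (by norm_num)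
    have h2 : (4 : ℝ) ^ (-(1 : ℝ) / 2) = 1 / 2 := by
      rw [show (4 : ℝ) = 2 ^ (2 : ℝ) by norm_num, ← Real.rpow_mul (by norm_num),
        show (2 : ℝ) * (-1 / 2) = -1 by norm_num, Real.rpow_neg_one]
      norm_num
    linarith
  have : NeZero χ.conductor := ⟨by
    intro h0
    have := χ.conductor_dvd_level
    rw [h0] at this
    exact NeZero.ne q (Nat.eq_zero_of_zero_dvd this)⟩
  set ψ := χ.primitiveCharacter with hψ
  have hχψ : DirichletCharacter.changeLevel χ.conductor_dvd_level ψ = χ :=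
    χ.changeLevel_primitiveCharacter
  have hψ1 : ψ ≠ 1 := by
    intro h0
    apply hχ
    rw [← hχψ, h0, map_one]
  have hcq : ((χ.conductor : ℕ) : ℝ) ≤ l ^ B := by
    refine le_trans ?_ hq
    exact_mod_cast Nat.le_of_dvd (Nat.pos_of_ne_zero (NeZero.ne q)) χ.conductor_dvd_level
  have hL := hprim l hll0 χ.conductor hcq ψ χ.primitiveCharacter_isPrimitive hψ1 s him hre hre2
  have hfac : χ.LFunction s = ψ.LFunction s *
      ∏ p ∈ q.primeFactors, (1 - ψ p * (p : ℂ) ^ (-s)) := by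
    rw [← DirichletCharacter.LFunction_changeLevel χ.conductor_dvd_level ψ (Or.inl hψ1), hχψ]
  have hprod := sm_prod ψ q (NeZero.ne q) hsre
  have hq2 : l ^ (-(2 * B)) ≤ (q : ℝ) ^ (-(2 : ℝ)) := by
    have h2 : (l ^ B) ^ (-(2 : ℝ)) ≤ (q : ℝ) ^ (-(2 : ℝ)) :=
      Real.rpow_le_rpow_of_nonpos hq0 hq (by norm_num)
    refine le_trans (le_of_eq ?_) h2
    rw [← Real.rpow_mul hlpos.le]
    ring_nf
  rw [hfac, norm_mul]
  have h1 : c * l ^ (-(0.05 : ℝ)) * l ^ (-(2 * B)) ≤ ‖ψ.LFunction s‖ *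
      ‖∏ p ∈ q.primeFactors, (1 - ψ p * (p : ℂ) ^ (-s))‖ :=
    mul_le_mul hL (hq2.trans hprod) (by positivity) (norm_nonneg _)
  refine le_trans ?_ h1
  have h2 : l ^ (-(0.05 : ℝ)) * l ^ (-(2 * B)) = l ^ (0.95 : ℝ) * l ^ (-(2 * B + 1)) := by
    rw [← Real.rpow_add hlpos, ← Real.rpow_add hlpos]
    ring_nf
  rw [mul_assoc, h2, ← mul_assoc]
  have h3 : 1 ≤ c * l ^ (0.95 : ℝ) := by
    rw [div_le_iff₀ hc] at e1
    linarith
  have h4 : 0 ≤ l ^ (-(2 * B + 1)) := by positivity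
  nlinarith

end Pool.Agent.H43.UF
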