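import Pool.Agent.H43.UF.Ze

/-!
# [H43 UF TR] The principal character near the real segment

PROOF. `F_q = LFunctionTrivChar₁ q`. For all `w`: `F_q w = (∏_{p ∣ q} (1 - p^(-w))) * F_1 w`: for `w ≠ 1`
`DirichletCharacter.LFunctionTrivChar_eq_mul_riemannZeta` (for `q` and for `1`), for `w = 1` by definition
(`Function.update_self`; for `q = 1` the product is empty). For `Re w >= 1/2`: `‖1 - p^(-w)‖ >= 1 - p^(-1/2)
>= 1 - 2^(-1/2) >= 1/4`, the number of primes `p ∣ q` is at most `log q/log 2` (`2^ω(q) <= q`), so the product is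
`>= 4^(-ω(q)) >= q^(-2) >= (log X)^(-2B)`. With `c` from `ze`: `>= c (log X)^(-2B) >= (log X)^(-(2B+1))` for `X` large
(and `(log X)^(-1/2) <= δ`).
-/

namespace Pool.Agent.H43.UF

open Finset

theorem Tr_mul (q : ℕ) [NeZero q] (w : ℂ) : DirichletCharacter.LFunctionTrivChar₁ q w =
    (∏ p ∈ q.primeFactors, (1 - (p : ℂ) ^ (-w))) * DirichletCharacter.LFunctionTrivChar₁ 1 w := by
  by_cases hw : w = 1
  · subst hw
    simp only [DirichletCharacter.LFunctionTrivChar₁, Function.update_self, Nat.primeFactors_one,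
      prod_empty, mul_one, Complex.cpow_neg_one]
  · simp only [DirichletCharacter.LFunctionTrivChar₁]
    rw [Function.update_of_ne hw, Function.update_of_ne hw,
      DirichletCharacter.LFunctionTrivChar_eq_mul_riemannZeta hw,
      DirichletCharacter.LFunctionTrivChar_eq_mul_riemannZeta hw, Nat.primeFactors_one,
      prod_empty]
    ring

theorem Tr_one {p : ℕ} (hp : p.Prime) {w : ℂ} (hw : 1 / 2 ≤ w.re) :
    (1 : ℝ) / 4 ≤ ‖1 - (p : ℂ) ^ (-w)‖ := by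
  have h1 : ‖(p : ℂ) ^ (-w)‖ ≤ 3 / 4 := by
    rw [Complex.norm_natCast_cpow_of_pos hp.pos, Complex.neg_re]
    have hp2 : (2 : ℝ) ≤ p := by exact_mod_cast hp.two_le
    calc (p : ℝ) ^ (-w.re) ≤ (p : ℝ) ^ (-(1 / 2) : ℝ) :=
          Real.rpow_le_rpow_of_exponent_le (by linarith) (by linarith)
      _ ≤ (2 : ℝ) ^ (-(1 / 2) : ℝ) :=
          Real.rpow_le_rpow_of_nonpos (by norm_num) hp2 (by norm_num)
      _ ≤ 3 / 4 := by
          rw [Real.rpow_neg (by norm_num), ← Real.sqrt_eq_rpow]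
          have h2 : (4 : ℝ) / 3 ≤ Real.sqrt 2 := Real.le_sqrt_of_sq_le (by norm_num)
          have h3 : (Real.sqrt 2)⁻¹ ≤ ((4 : ℝ) / 3)⁻¹ := inv_anti₀ (by norm_num) h2
          linarith [show ((4 : ℝ) / 3)⁻¹ = 3 / 4 by norm_num]
  have h2 := norm_sub_norm_le (1 : ℂ) ((p : ℂ) ^ (-w))
  rw [norm_one] at h2
  linarith

theorem Tr_prod (q : ℕ) [NeZero q] {w : ℂ} (hw : 1 / 2 ≤ w.re) :
    1 / (q : ℝ) ^ 2 ≤ ‖∏ p ∈ q.primeFactors, (1 - (p : ℂ) ^ (-w))‖ := by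
  have hq : q ≠ 0 := NeZero.ne q
  rw [norm_prod]
  have h1 : (1 / 4 : ℝ) ^ q.primeFactors.card ≤ ∏ p ∈ q.primeFactors, ‖1 - (p : ℂ) ^ (-w)‖ := by
    rw [← prod_const]
    refine prod_le_prod (fun _ _ => by norm_num) fun p hp => ?_
    exact Tr_one (Nat.prime_of_mem_primeFactors hp) hw
  have h2 : 2 ^ q.primeFactors.card ≤ q := by
    have h3 : 2 ^ q.primeFactors.card ≤ ∏ p ∈ q.primeFactors, p :=
      pow_card_le_prod _ _ _ fun p hp => (Nat.prime_of_mem_primeFactors hp).two_le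
    exact h3.trans (Nat.le_of_dvd (Nat.pos_of_ne_zero hq) (Nat.prod_primeFactors_dvd q))
  have h3 : (2 : ℝ) ^ q.primeFactors.card ≤ q := by exact_mod_cast h2
  have h4 : (1 / 4 : ℝ) ^ q.primeFactors.card = 1 / ((2 : ℝ) ^ q.primeFactors.card) ^ 2 := by
    rw [← pow_mul, mul_comm, pow_mul, one_div_pow]
    norm_num
  refine le_trans ?_ h1
  rw [h4]
  exact one_div_le_one_div_of_le (by positivity) (pow_le_pow_left₀ (by positivity) h3 2)

theorem tr (B : ℝ) (hB : 0 < B) : ∃ X0 : ℝ, 10 ≤ X0 ∧ ∀ X : ℝ, X0 ≤ X →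
    ∀ (q : ℕ) [NeZero q], (q : ℝ) ≤ (Real.log X) ^ B → ∀ w : ℂ, |w.im| ≤ 2 →
    1 - (Real.log X) ^ (-(1 : ℝ) / 2) ≤ w.re → w.re ≤ 2 →
    (Real.log X) ^ (-(2 * B + 1)) ≤ ‖DirichletCharacter.LFunctionTrivChar₁ q w‖ := by
  obtain ⟨c, δ, hc, hδ, hδ4, hze⟩ := ze
  refine ⟨10 + Real.exp (max (1 / c) ((1 / δ) ^ 2)), by
    have := Real.exp_pos (max (1 / c) ((1 / δ) ^ 2))
    linarith, ?_⟩
  intro X hX q _ hq w him hre hre2
  have hXe : Real.exp (max (1 / c) ((1 / δ) ^ 2)) ≤ X := by linarith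
  have hlog : max (1 / c) ((1 / δ) ^ 2) ≤ Real.log X := by
    have := Real.log_le_log (Real.exp_pos _) hXe
    rwa [Real.log_exp] at this
  have hL1 : 1 / c ≤ Real.log X := (le_max_left _ _).trans hlog
  have hL2 : (1 / δ) ^ 2 ≤ Real.log X := (le_max_right _ _).trans hlog
  have hL : 0 < Real.log X := lt_of_lt_of_le (by positivity) hL1
  have h1 : (Real.log X) ^ (-(1 : ℝ) / 2) ≤ δ := by
    rw [show (-(1 : ℝ) / 2) = -(1 / 2) by ring, Real.rpow_neg hL.le, ← Real.sqrt_eq_rpow]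
    have h2 : 1 / δ ≤ Real.sqrt (Real.log X) := Real.le_sqrt_of_sq_le hL2
    have h3 : (Real.sqrt (Real.log X))⁻¹ ≤ (1 / δ)⁻¹ := inv_anti₀ (by positivity) h2
    rwa [one_div, inv_inv] at h3
  have hw1 : 1 - δ ≤ w.re := by linarith
  have h2 := hze w him hw1 hre2
  have h3 := Tr_prod q (w := w) (by linarith)
  rw [Tr_mul, norm_mul]
  have hq0 : (0 : ℝ) < q := by
    have := NeZero.pos q
    exact_mod_cast this
  have h4 : (Real.log X) ^ (-(2 * B)) ≤ 1 / (q : ℝ) ^ 2 := by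
    have h5 : (q : ℝ) ^ 2 ≤ (Real.log X) ^ (2 * B) := by
      have h6 : (Real.log X) ^ (2 * B) = ((Real.log X) ^ B) ^ 2 := by
        rw [← Real.rpow_natCast, ← Real.rpow_mul hL.le]
        congr 1
        push_cast
        ring
      rw [h6]
      exact pow_le_pow_left₀ hq0.le hq 2
    rw [Real.rpow_neg hL.le, one_div]
    exact inv_anti₀ (by positivity) h5
  have h5 : (Real.log X) ^ (-(1 : ℝ)) ≤ c := by
    rw [Real.rpow_neg_one]
    have h6 : (Real.log X)⁻¹ ≤ (1 / c)⁻¹ := inv_anti₀ (by positivity) hL1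
    rwa [one_div, inv_inv] at h6
  calc (Real.log X) ^ (-(2 * B + 1)) = (Real.log X) ^ (-(2 * B)) * (Real.log X) ^ (-(1 : ℝ)) := by
        rw [← Real.rpow_add hL]
        congr 1
        ring
    _ ≤ (1 / (q : ℝ) ^ 2) * c :=
        mul_le_mul h4 h5 (Real.rpow_nonneg hL.le _) (by positivity)
    _ ≤ _ := mul_le_mul h3 h2 hc.le (norm_nonneg _)

end Pool.Agent.H43.UF
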