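import Pool.Agent.H43.LF.Mud
import Pool.Agent.H43.UF.Inv
import Pool.Agent.H43.UF.Tr
import Pool.Agent.H43.UF.Sm

/-!
# [H43 UF MUD] The series of `μ(n) χ(n) (log n)^j n^(-s)`, uniform

PROOF. As in `LF/Mud.lean`: with `G = 1/L(·,χ)` the series is `(-1)^j G^(j)(s)` for `Re s > 1`. `ℓ = log X`,
`r = ℓ^(-0.94)/4`, `1 < Re s <= 3/2`, `|Im s| <= X/2`. The closed ball of radius `r` around `s` has
`Re ∈ [1 - ℓ^(-0.94), 2]`.
(a) `|Im s| >= 7/4`: on the ball `3/2 <= |Im| <= X-1`, so `G` is analytic and `|G| <= ℓ^12` (`invu`).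
(b) `|Im s| < 7/4`, `χ ≠ 1`: on the ball `|Im| <= 2`, `Re >= 1 - ℓ^(-1/2)`: `|G| <= ℓ^(2B+1)` (`sm`; `L` is entire).
(c) `|Im s| < 7/4`, `χ = 1`: `G(w) = (w-1)/F_q(w)`, `F_q = LFunctionTrivChar₁ q` (for `w ≠ 1`; define `G` on the ball by
this formula, it agrees with `1/L` for `Re w > 1`), `|G| <= 3 ℓ^(2B+1)` (`tr`).
Cauchy (`Complex.norm_iteratedDeriv_le_of_forall_mem_sphere_norm_le`):
`|G^(j)(s)| <= j! 3 ℓ^(2B+12) (4ℓ^0.94)^j <= C ℓ^(2B+13+0.95j)`.
-/

namespace Pool.Agent.H43.UF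

open Complex Filter Topology Finset

/-- the inverse of the L-function, extended to the point 1 -/
private noncomputable def GG {q : ℕ} [NeZero q] (χ : DirichletCharacter ℂ q) : ℂ → ℂ :=
  open Classical in
  if χ = 1 then fun s => (s - 1) / DirichletCharacter.LFunctionTrivChar₁ q s
    else fun s => (χ.LFunction s)⁻¹

private theorem GG_eq {q : ℕ} [NeZero q] (χ : DirichletCharacter ℂ q) {s : ℂ} (hs : s ≠ 1) :
    GG χ s = (χ.LFunction s)⁻¹ := by
  classical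
  unfold GG
  by_cases h : χ = 1
  · rw [if_pos h, DirichletCharacter.LFunctionTrivChar₁, Function.update_of_ne hs,
      div_mul_cancel_left₀ (sub_ne_zero_of_ne hs), h]
  · rw [if_neg h]

/-- the series of the statement as an iterated derivative -/
private theorem mud_series {q : ℕ} [NeZero q] (χ : DirichletCharacter ℂ q) (j : ℕ) {s : ℂ}
    (hs : 1 < s.re) :
    ‖∑' n : ℕ, ((ArithmeticFunction.moebius n : ℤ) : ℂ) * χ n * ((Real.log n) ^ j : ℝ) *
        (n : ℂ) ^ (-s)‖ = ‖iteratedDeriv j (GG χ) s‖ := by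
  have hev : GG χ =ᶠ[𝓝 s]
      LSeries ((fun n : ℕ => χ n) * (fun n : ℕ => ((ArithmeticFunction.moebius n : ℤ) : ℂ))) := by
    have h : {z : ℂ | 1 < z.re} ∈ 𝓝 s :=
      (isOpen_lt continuous_const continuous_re).mem_nhds hs
    filter_upwards [h] with z hz
    have hz : 1 < z.re := hz
    have hz1 : z ≠ 1 := by
      rintro rfl
      simp at hz
    have h1 := DirichletCharacter.LSeries.mul_mu_eq_one χ hz
    rw [GG_eq χ hz1, DirichletCharacter.LFunction_eq_LSeries χ hz]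
    exact inv_eq_of_mul_eq_one_right h1
  rw [hev.iteratedDeriv_eq]
  have hab : LSeries.abscissaOfAbsConv
      ((fun n : ℕ => χ n) * (fun n : ℕ => ((ArithmeticFunction.moebius n : ℤ) : ℂ))) < s.re := by
    have hs1 : 1 < ((((1 + s.re) / 2 : ℝ)) : ℂ).re := by
      rw [ofReal_re]
      linarith
    have h1 := (DirichletCharacter.LSeriesSummable_mul χ
      (ArithmeticFunction.LSeriesSummable_moebius_iff.mpr hs1)).abscissaOfAbsConv_le
    refine lt_of_le_of_lt h1 ?_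
    rw [ofReal_re]
    exact_mod_cast (by linarith : (1 + s.re) / 2 < s.re)
  rw [LSeries_iteratedDeriv j hab, norm_mul, norm_pow, norm_neg, norm_one, one_pow, one_mul]
  have hlog : ∀ (m : ℕ) (f : ℕ → ℂ) (n : ℕ),
      (LSeries.logMul^[m] f) n = (Complex.log n) ^ m * f n := by
    intro m f n
    induction m with
    | zero => simp
    | succ m ih =>
      rw [Function.iterate_succ_apply']
      show Complex.log n * (LSeries.logMul^[m] f) n = _
      rw [ih, pow_succ]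
      ring
  congr 1
  unfold LSeries
  refine tsum_congr fun n => ?_
  rcases eq_or_ne n 0 with h0 | h0
  · subst h0
    simp
  · rw [LSeries.term_of_ne_zero h0, hlog, cpow_neg, Pi.mul_apply, ← Complex.natCast_log]
    push_cast
    field_simp

private theorem inv_le_of {ℓ a x : ℝ} (hℓ : 0 < ℓ) (h : ℓ ^ (-a) ≤ x) : 0 < x ∧ x⁻¹ ≤ ℓ ^ a := by
  have h0 : 0 < ℓ ^ (-a) := Real.rpow_pos_of_pos hℓ _
  refine ⟨h0.trans_le h, ?_⟩
  have h1 := inv_anti₀ h0 h
  rwa [Real.rpow_neg hℓ.le, inv_inv] at h1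

private theorem GG_ball (B : ℝ) (hB : 0 < B) : ∃ X0 : ℝ, 10 ≤ X0 ∧ ∀ X : ℝ, X0 ≤ X →
    ∀ (q : ℕ) [NeZero q], (q : ℝ) ≤ (Real.log X) ^ B → ∀ (χ : DirichletCharacter ℂ q) (s : ℂ),
    1 < s.re → s.re ≤ 3 / 2 → |s.im| ≤ X / 2 →
    ∀ w ∈ Metric.closedBall s ((Real.log X) ^ (-(0.94 : ℝ)) / 4),
      DifferentiableAt ℂ (GG χ) w ∧ ‖GG χ w‖ ≤ 3 * (Real.log X) ^ (2 * B + 12) := by
  classical
  obtain ⟨X1, hX1, hinv⟩ := invu B hB
  obtain ⟨X2, hX2, htr⟩ := tr B hB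
  obtain ⟨X3, hX3, hsm⟩ := sm B hB
  refine ⟨max X1 (max X2 X3), le_max_of_le_left hX1, ?_⟩
  intro X hX q _ hq χ s hs1 hs2 hs3 w hw
  have hXX1 : X1 ≤ X := (le_max_left _ _).trans hX
  have hXX2 : X2 ≤ X := ((le_max_left _ _).trans (le_max_right _ _)).trans hX
  have hXX3 : X3 ≤ X := ((le_max_right _ _).trans (le_max_right _ _)).trans hX
  have hX10 : 10 ≤ X := hX1.trans hXX1
  set ℓ := Real.log X with hℓ
  have hℓ1 : 1 ≤ ℓ := by
    rw [hℓ, Real.le_log_iff_exp_le (by linarith)]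
    have := Real.exp_one_lt_d9
    linarith
  have hℓ0 : 0 < ℓ := by linarith
  have hp0 : 0 < ℓ ^ (-(0.94 : ℝ)) := Real.rpow_pos_of_pos hℓ0 _
  have hp1 : ℓ ^ (-(0.94 : ℝ)) ≤ 1 := Real.rpow_le_one_of_one_le_of_nonpos hℓ1 (by norm_num)
  have hp2 : ℓ ^ (-(0.94 : ℝ)) ≤ ℓ ^ (-(1 : ℝ) / 2) :=
    Real.rpow_le_rpow_of_exponent_le hℓ1 (by norm_num)
  rw [Metric.mem_closedBall, dist_eq_norm] at hw
  have h1 : |(w - s).re| ≤ ℓ ^ (-(0.94 : ℝ)) / 4 := (Complex.abs_re_le_norm _).trans hw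
  have h2 : |(w - s).im| ≤ ℓ ^ (-(0.94 : ℝ)) / 4 := (Complex.abs_im_le_norm _).trans hw
  rw [Complex.sub_re] at h1
  rw [Complex.sub_im] at h2
  have h1' := abs_le.1 h1
  have hre1 : 1 - ℓ ^ (-(0.94 : ℝ)) ≤ w.re := by linarith
  have hre2 : 1 - ℓ ^ (-(1 : ℝ) / 2) ≤ w.re := by linarith
  have hre3 : w.re ≤ 2 := by linarith
  have h4 : |w.im| ≤ |s.im| + 1 / 4 := by
    have : |w.im| ≤ |s.im| + |w.im - s.im| := by
      have := abs_add_le s.im (w.im - s.im)
      simpa using this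
    linarith
  have h5 : |s.im| - 1 / 4 ≤ |w.im| := by
    have : |s.im| ≤ |w.im| + |w.im - s.im| := by
      have h := abs_add_le w.im (s.im - w.im)
      rw [abs_sub_comm s.im w.im] at h
      simpa using h
    linarith
  have hpw : ℓ ^ (2 * B + 1) ≤ ℓ ^ (2 * B + 12) :=
    Real.rpow_le_rpow_of_exponent_le hℓ1 (by linarith)
  have hpw0 : 0 < ℓ ^ (2 * B + 12) := Real.rpow_pos_of_pos hℓ0 _
  by_cases him : 7 / 4 ≤ |s.im|
  · obtain ⟨h6, h7⟩ := hinv X hXX1 q hq χ w (by linarith) (by linarith) hre1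
    have hw1 : w ≠ 1 := by
      rintro rfl
      simp at h5
      linarith
    refine ⟨?_, ?_⟩
    · have h3 : (fun z => (χ.LFunction z)⁻¹) =ᶠ[𝓝 w] GG χ := by
        filter_upwards [isOpen_ne.mem_nhds hw1] with z hz
        exact (GG_eq χ hz).symm
      have h4 : DifferentiableAt ℂ (fun z => (χ.LFunction z)⁻¹) w :=
        (DirichletCharacter.differentiableAt_LFunction χ w (Or.inl hw1)).fun_inv h6
      exact h3.differentiableAt_iff.mp h4
    · rw [GG_eq χ hw1]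
      refine h7.trans ?_
      have : ℓ ^ (12 : ℝ) ≤ ℓ ^ (2 * B + 12) :=
        Real.rpow_le_rpow_of_exponent_le hℓ1 (by linarith)
      linarith
  · push Not at him
    have him2 : |w.im| ≤ 2 := by linarith
    by_cases hχ : χ = 1
    · have hG : GG χ = fun s => (s - 1) / DirichletCharacter.LFunctionTrivChar₁ q s := by
        unfold GG
        rw [if_pos hχ]
      obtain ⟨h6, h7⟩ := inv_le_of hℓ0 (htr X hXX2 q hq w him2 hre2 hre3)
      have h8 : DirichletCharacter.LFunctionTrivChar₁ q w ≠ 0 := norm_pos_iff.1 h6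
      rw [hG]
      refine ⟨?_, ?_⟩
      · exact (differentiableAt_id.sub_const 1).div
          (DirichletCharacter.differentiable_LFunctionTrivChar₁ q).differentiableAt h8
      · have h9 : ‖w - 1‖ ≤ 3 := by
          have h10 := Complex.norm_le_abs_re_add_abs_im (w - 1)
          have h11 : |(w - 1).re| ≤ 1 := by
            rw [Complex.sub_re, Complex.one_re, abs_le]
            constructor <;> linarith
          have h12 : |(w - 1).im| ≤ 2 := by
            rw [Complex.sub_im, Complex.one_im, sub_zero]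
            exact him2
          linarith
        rw [norm_div, div_eq_mul_inv]
        have h13 : 0 ≤ ‖DirichletCharacter.LFunctionTrivChar₁ q w‖⁻¹ := by positivity
        calc ‖w - 1‖ * ‖DirichletCharacter.LFunctionTrivChar₁ q w‖⁻¹
            ≤ 3 * ℓ ^ (2 * B + 1) := mul_le_mul h9 h7 h13 (by norm_num)
          _ ≤ 3 * ℓ ^ (2 * B + 12) := by linarith
    · have hG : GG χ = fun s => (χ.LFunction s)⁻¹ := by
        unfold GG
        rw [if_neg hχ]
      obtain ⟨h6, h7⟩ := inv_le_of hℓ0 (hsm X hXX3 q hq χ hχ w him2 hre2 hre3)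
      have h8 : χ.LFunction w ≠ 0 := norm_pos_iff.1 h6
      rw [hG]
      refine ⟨?_, ?_⟩
      · exact (DirichletCharacter.differentiable_LFunction hχ).differentiableAt.fun_inv h8
      · rw [norm_inv]
        linarith

theorem mudu (B : ℝ) (hB : 0 < B) (j : ℕ) : ∃ C X0 : ℝ, 0 < C ∧ 10 ≤ X0 ∧ ∀ X : ℝ, X0 ≤ X →
    ∀ (q : ℕ) [NeZero q], (q : ℝ) ≤ (Real.log X) ^ B → ∀ (χ : DirichletCharacter ℂ q) (s : ℂ),
    1 < s.re → s.re ≤ 3 / 2 → |s.im| ≤ X / 2 →
    ‖∑' n : ℕ, ((ArithmeticFunction.moebius n : ℤ) : ℂ) * χ n * ((Real.log n) ^ j : ℝ) *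
        (n : ℂ) ^ (-s)‖ ≤ C * (Real.log X) ^ (2 * B + 13 + 0.95 * (j : ℝ)) := by
  obtain ⟨X0, hX0, hb⟩ := GG_ball B hB
  refine ⟨(j.factorial : ℝ) * (3 * 4 ^ j), X0, by positivity, hX0, ?_⟩
  intro X hX q _ hq χ s hs1 hs2 hs3
  rw [mud_series χ j hs1]
  have hball := hb X hX q hq χ s hs1 hs2 hs3
  have hX10 : 10 ≤ X := hX0.trans hX
  set ℓ := Real.log X with hℓ
  have hℓ1 : 1 ≤ ℓ := by
    rw [hℓ, Real.le_log_iff_exp_le (by linarith)]
    have := Real.exp_one_lt_d9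
    linarith
  have hℓ0 : 0 < ℓ := by linarith
  set r : ℝ := ℓ ^ (-(0.94 : ℝ)) / 4 with hr
  have hr0 : 0 < r := by
    have : 0 < ℓ ^ (-(0.94 : ℝ)) := Real.rpow_pos_of_pos hℓ0 _
    positivity
  have hdiff : DiffContOnCl ℂ (GG χ) (Metric.ball s r) := by
    apply DifferentiableOn.diffContOnCl
    rw [closure_ball s hr0.ne']
    intro w hwm
    exact (hball w hwm).1.differentiableWithinAt
  have hC := Complex.norm_iteratedDeriv_le_of_forall_mem_sphere_norm_le j hr0 hdiff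
    (C := 3 * ℓ ^ (2 * B + 12)) (fun z hz => (hball z (Metric.sphere_subset_closedBall hz)).2)
  refine hC.trans ?_
  have hpow : (r ^ j)⁻¹ = 4 ^ j * ℓ ^ (0.94 * (j : ℝ)) := by
    rw [hr, div_pow, inv_div, ← Real.rpow_natCast (ℓ ^ (-(0.94 : ℝ))), ← Real.rpow_mul hℓ0.le,
      div_eq_mul_inv, ← Real.rpow_neg hℓ0.le]
    congr 2
    ring
  rw [div_eq_mul_inv, hpow]
  have hcomb : (j.factorial : ℝ) * (3 * ℓ ^ (2 * B + 12)) * (4 ^ j * ℓ ^ (0.94 * (j : ℝ))) =
      (j.factorial : ℝ) * (3 * 4 ^ j) * ℓ ^ (2 * B + 12 + 0.94 * (j : ℝ)) := by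
    rw [Real.rpow_add hℓ0 (2 * B + 12) (0.94 * (j : ℝ))]
    ring
  rw [hcomb]
  apply mul_le_mul_of_nonneg_left _ (by positivity)
  apply Real.rpow_le_rpow_of_exponent_le hℓ1
  have : (0 : ℝ) ≤ j := by positivity
  linarith

end Pool.Agent.H43.UF
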