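import Pool.Agent.H43.LF.Mu
import Pool.Agent.H43.UF.Mud

/-!
# [H43 UF MU] Sums of `μ(n) χ(n) n^(-1-it)`, uniform in `q <= (log X)^B`

PROOF. As `LF/Mu.lean`, with `mudu` (applied with `B + 1` and with `X' = 4X` in place of `X`: `q <= (log X)^B`
`<= (log X')^(B+1)`, `|u| <= |t| + Y <= 2X = X'/2`, `log X' <= 2 log X`). `ℓ = log X`, `j` a natural number
`>= 50(A + 2B + 20)`, `f(n) = μ(n)χ(n)(log n)^j`, `η = ℓ^(-A-2)`, `Y = ℓ^(2A+10)`,
`D = C (2ℓ)^(2B+15+0.95j)`, `κ = 1/log N <= 1/2`. `LF.smo`, then Abel summation with `(log n)^(-j)`: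
`<= C (ℓ^(2B+16+0.95j) log ℓ (log N)^(-j) + ℓ^(-A-2))` and `(log N)^j >= ℓ^(0.97j)`,
`2B + 17 - 0.02 j <= -A-2`.
-/

namespace Pool.Agent.H43.UF

open Finset

theorem muu (B A : ℝ) (hB : 0 < B) (hA : 0 < A) : ∃ X0 : ℝ, 10 ≤ X0 ∧ ∀ X : ℝ, X0 ≤ X →
    ∀ (q : ℕ) [NeZero q], (q : ℝ) ≤ (Real.log X) ^ B → ∀ (χ : DirichletCharacter ℂ q)
    (N N' : ℕ) (t : ℝ), Real.exp ((Real.log X) ^ (0.97 : ℝ)) ≤ N → (N : ℝ) ≤ X → N' ≤ 2 * N →
    |t| ≤ X →
    ‖LF.ds (fun n => ((ArithmeticFunction.moebius n : ℤ) : ℂ) * χ n) N N' t‖ ≤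
      (Real.log X) ^ (-A) := by
  obtain ⟨j, hj⟩ := exists_nat_ge (50 * (A + 2 * B + 20))
  obtain ⟨C1, X0', hC1, hX0', hmud⟩ := mudu (B + 1) (by linarith) j
  obtain ⟨C2, hC2, hsmo⟩ := LF.smo j
  set E : ℝ := 2 * (B + 1) + 13 + 0.95 * (j : ℝ) with hE
  set C3 : ℝ := C1 * 2 ^ E * (A + 3) with hC3
  have hC3pos : 0 < C3 := by positivity
  set C4 : ℝ := C2 * (C3 + 3) with hC4
  have hC4pos : 0 < C4 := by positivity
  -- conditions on X
  have ev1 : ∀ᶠ X : ℝ in Filter.atTop, max 4 C4 ≤ Real.log X :=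
    Real.tendsto_log_atTop.eventually_ge_atTop _
  have ev2 : ∀ᶠ X : ℝ in Filter.atTop, (A + 2) * Real.log (Real.log X) ≤
      (Real.log X) ^ (0.97 : ℝ) := by
    have h := (isLittleO_log_rpow_atTop (r := (0.97 : ℝ)) (by norm_num)).bound
      (c := 1 / (A + 2)) (by positivity)
    have h' := Real.tendsto_log_atTop.eventually (h.and (Filter.eventually_ge_atTop 1))
    filter_upwards [h'] with X hX
    obtain ⟨hX, hX1⟩ := hX
    rw [Real.norm_eq_abs, Real.norm_eq_abs] at hX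
    have h1 : Real.log (Real.log X) ≤ 1 / (A + 2) * (Real.log X) ^ (0.97 : ℝ) := by
      have := le_trans (le_abs_self _) hX
      rwa [abs_of_nonneg (Real.rpow_nonneg (by linarith) _)] at this
    calc (A + 2) * Real.log (Real.log X)
        ≤ (A + 2) * (1 / (A + 2) * (Real.log X) ^ (0.97 : ℝ)) := by gcongr
      _ = (Real.log X) ^ (0.97 : ℝ) := by field_simp
  have ev3 : ∀ᶠ X : ℝ in Filter.atTop, (Real.log X) ^ (2 * A + 10) ≤ X := by
    have h := (isLittleO_log_rpow_rpow_atTop (2 * A + 10) (s := (1 : ℝ)) one_pos).bound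
      (c := 1) one_pos
    filter_upwards [h, Filter.eventually_ge_atTop (1 : ℝ)] with X hX hX1
    rw [Real.norm_eq_abs, Real.norm_eq_abs, Real.rpow_one, abs_of_nonneg (by linarith : 0 ≤ X),
      one_mul] at hX
    exact le_trans (le_abs_self _) hX
  obtain ⟨X1, hX1⟩ := Filter.eventually_atTop.1 (ev1.and (ev2.and ev3))
  refine ⟨max 10 (max X0' X1), le_max_left _ _, ?_⟩
  intro X hX q _ hqB χ N N' t hN1 hN2 hN' ht
  have hX10 : 10 ≤ X := le_trans (le_max_left _ _) hX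
  have hXX0 : X0' ≤ X := le_trans (le_trans (le_max_left _ _) (le_max_right _ _)) hX
  obtain ⟨c1, c2, c3⟩ := hX1 X (le_trans (le_trans (le_max_right _ _) (le_max_right _ _)) hX)
  set ℓ := Real.log X with hℓ
  have hℓ4 : 4 ≤ ℓ := le_trans (le_max_left _ _) c1
  have hℓC4 : C4 ≤ ℓ := le_trans (le_max_right _ _) c1
  have hℓpos : 0 < ℓ := by linarith
  have hXpos : 0 < X := by linarith
  -- facts about N
  have h97 : 2 ≤ ℓ ^ (0.97 : ℝ) := by
    calc (2 : ℝ) = (4 : ℝ) ^ ((1 : ℝ) / 2) := by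
          rw [show (4 : ℝ) = 2 ^ (2 : ℝ) by norm_num, ← Real.rpow_mul (by norm_num)]
          norm_num
      _ ≤ (4 : ℝ) ^ (0.97 : ℝ) := Real.rpow_le_rpow_of_exponent_le (by norm_num) (by norm_num)
      _ ≤ ℓ ^ (0.97 : ℝ) := Real.rpow_le_rpow (by norm_num) hℓ4 (by norm_num)
  have hN3 : (3 : ℝ) ≤ N := by
    have := Real.add_one_le_exp (ℓ ^ (0.97 : ℝ))
    linarith
  have hN3' : 3 ≤ N := by exact_mod_cast hN3
  have hNpos : (0 : ℝ) < N := by linarith
  have hlogN : ℓ ^ (0.97 : ℝ) ≤ Real.log N := (Real.le_log_iff_exp_le hNpos).2 hN1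
  have hlogN2 : 2 ≤ Real.log N := le_trans h97 hlogN
  have hlogN' : Real.log N ≤ ℓ := Real.log_le_log hNpos hN2
  have hlNpos : 0 < Real.log N := by linarith
  -- the parameters
  set η : ℝ := ℓ ^ (-(A + 2)) with hη
  set Y : ℝ := ℓ ^ (2 * A + 10) with hY
  have hηpos : 0 < η := Real.rpow_pos_of_pos hℓpos _
  have hη1 : η ≤ 1 := Real.rpow_le_one_of_one_le_of_nonpos (by linarith) (by linarith)
  have hYpos : 0 < Y := Real.rpow_pos_of_pos hℓpos _
  set D : ℝ := C1 * (2 * ℓ) ^ E with hD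
  have hEpos : 0 < E := by positivity
  have hDnn : 0 ≤ D := by positivity
  set f : ℕ → ℂ := fun n => ((ArithmeticFunction.moebius n : ℤ) : ℂ) * χ n *
    ((Real.log n) ^ j : ℝ) with hf
  have hf0 : f 0 = 0 := by
    simp [hf]
  have hmunorm : ∀ n : ℕ, ‖((ArithmeticFunction.moebius n : ℤ) : ℂ) * χ n‖ ≤ 1 := by
    intro n
    rw [norm_mul]
    have h1 : ‖((ArithmeticFunction.moebius n : ℤ) : ℂ)‖ ≤ 1 := by
      rw [Complex.norm_intCast]
      have := ArithmeticFunction.abs_moebius_le_one (n := n)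
      exact_mod_cast this
    have h2 := χ.norm_le_one (n : ZMod q)
    calc _ ≤ (1 : ℝ) * 1 := mul_le_mul h1 h2 (norm_nonneg _) zero_le_one
      _ = 1 := one_mul 1
  have hfn : ∀ n : ℕ, 1 ≤ n → ‖f n‖ ≤ (Real.log n) ^ j := by
    intro n hn
    have hlog : 0 ≤ Real.log n := Real.log_natCast_nonneg n
    rw [hf]
    simp only
    rw [norm_mul, Complex.norm_real, Real.norm_eq_abs, abs_of_nonneg (pow_nonneg hlog j)]
    calc _ ≤ 1 * (Real.log n) ^ j :=
          mul_le_mul_of_nonneg_right (hmunorm n) (pow_nonneg hlog j)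
      _ = (Real.log n) ^ j := one_mul _
  have hser : ∀ u : ℝ, |u - t| ≤ Y →
      ‖∑' n : ℕ, f n * (n : ℂ) ^ (-((1 + 1 / Real.log N : ℝ) + (u : ℂ) * Complex.I))‖ ≤ D := by
    intro u hu
    have hre : (((1 + 1 / Real.log N : ℝ) : ℂ) + (u : ℂ) * Complex.I).re = 1 + 1 / Real.log N := by
      rw [Complex.add_re, Complex.ofReal_re, Complex.re_ofReal_mul, Complex.I_re, mul_zero, add_zero]
    have him : (((1 + 1 / Real.log N : ℝ) : ℂ) + (u : ℂ) * Complex.I).im = u := by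
      rw [Complex.add_im, Complex.ofReal_im, Complex.im_ofReal_mul, Complex.I_im, mul_one, zero_add]
    have hlog : Real.log (4 * X) ≤ 2 * ℓ := by
      have hX4 : 4 * X ≤ X * X := mul_le_mul_of_nonneg_right (by linarith) (by linarith)
      have := Real.log_le_log (by positivity) (show 4 * X ≤ X ^ 2 by rw [sq]; exact hX4)
      rw [Real.log_pow] at this
      simpa using this
    have hlog1 : ℓ ≤ Real.log (4 * X) := Real.log_le_log hXpos (by linarith)
    have hqB' : (q : ℝ) ≤ (Real.log (4 * X)) ^ (B + 1) := by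
      calc (q : ℝ) ≤ ℓ ^ B := hqB
        _ ≤ ℓ ^ (B + 1) := Real.rpow_le_rpow_of_exponent_le (by linarith) (by linarith)
        _ ≤ (Real.log (4 * X)) ^ (B + 1) := Real.rpow_le_rpow hℓpos.le hlog1 (by linarith)
    have h1 := hmud (4 * X) (by linarith) q hqB' χ
      (((1 + 1 / Real.log N : ℝ) : ℂ) + (u : ℂ) * Complex.I)
      (by rw [hre]; have : 0 < 1 / Real.log N := by positivity
          linarith)
      (by rw [hre]; have : 1 / Real.log N ≤ 1 / 2 := by
            apply one_div_le_one_div_of_le (by norm_num) hlogN2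
          linarith)
      (by
        rw [him]
        have h2 : |u| ≤ |u - t| + |t| := by
          calc |u| = |(u - t) + t| := by ring_nf
            _ ≤ |u - t| + |t| := abs_add_le _ _
        linarith)
    refine le_trans h1 ?_
    rw [hD]
    have := Real.rpow_le_rpow (by linarith) hlog hEpos.le
    gcongr
  set BB : ℝ := C2 * (D * (1 + Real.log (1 / η)) + (Real.log N) ^ (j + 1) / (η * Y) +
      (Real.log N) ^ j * (η + 1 / N)) with hBB
  have hBall : ∀ u, u ≤ 2 * N → ‖LF.ds f N u t‖ ≤ BB := by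
    intro u hu
    exact hsmo f N u t η Y D hf0 hfn hN3' hu hηpos hη1 hYpos hDnn hser
  have hBnn : 0 ≤ BB := le_trans (norm_nonneg _) (hBall 0 (by omega))
  -- Abel summation
  set w : ℕ → ℝ := fun n => ((Real.log n) ^ j)⁻¹ with hw
  have hab := LF.mu_abel w (fun n => f n * (n : ℂ) ^ (-(1 + (t : ℂ) * Complex.I))) N BB hBnn
    (by
      intro n hn
      have hlog : 0 ≤ Real.log n := Real.log_natCast_nonneg n
      rw [hw]; positivity)
    (by
      intro n hn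
      have h1 : (1 : ℝ) < n := by
        have : 1 < n := by omega
        exact_mod_cast this
      have hlog : 0 < Real.log n := Real.log_pos h1
      have hle : Real.log n ≤ Real.log ((n + 1 : ℕ) : ℝ) := by
        apply Real.log_le_log (by linarith)
        push_cast; linarith
      rw [hw]
      simp only
      gcongr) N' (by
      intro u hu
      exact hBall u (le_trans hu hN'))
  have hds : LF.ds (fun n => ((ArithmeticFunction.moebius n : ℤ) : ℂ) * χ n) N N' t =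
      ∑ n ∈ Ioc N N', (w n : ℂ) * (f n * (n : ℂ) ^ (-(1 + (t : ℂ) * Complex.I))) := by
    rw [LF.ds]
    apply Finset.sum_congr rfl
    intro n hn
    rw [mem_Ioc] at hn
    have h1 : (1 : ℝ) < n := by
      have : 1 < n := by omega
      exact_mod_cast this
    have hlog : 0 < Real.log n := Real.log_pos h1
    have hne : (((Real.log n) ^ j : ℝ) : ℂ) ≠ 0 := by
      have : (Real.log n) ^ j ≠ 0 := by positivity
      exact_mod_cast this
    rw [hw, hf]
    simp only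
    rw [Complex.ofReal_inv]
    field_simp
  rw [hds]
  refine le_trans hab ?_
  have hwN : w (N + 1) ≤ ((Real.log N) ^ j)⁻¹ := by
    rw [hw]
    simp only
    have hle : Real.log N ≤ Real.log ((N + 1 : ℕ) : ℝ) := by
      apply Real.log_le_log hNpos
      push_cast; linarith
    gcongr
  -- estimate of the bound
  have hD' : D * (1 + Real.log (1 / η)) ≤ C3 * ℓ ^ (E + 1) := by
    have e1 : Real.log (1 / η) = (A + 2) * Real.log ℓ := by
      rw [one_div, Real.log_inv, hη, Real.log_rpow hℓpos]; ring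
    have e2 : Real.log ℓ ≤ ℓ := le_trans (Real.log_le_sub_one_of_pos hℓpos) (by linarith)
    have e3 : 1 + Real.log (1 / η) ≤ (A + 3) * ℓ := by
      rw [e1]
      have e5 : (A + 2) * Real.log ℓ ≤ (A + 2) * ℓ :=
        mul_le_mul_of_nonneg_left e2 (by linarith)
      linarith
    have e4 : D = C1 * 2 ^ E * ℓ ^ E := by
      rw [hD, Real.mul_rpow (by norm_num) hℓpos.le]; ring
    calc D * (1 + Real.log (1 / η)) ≤ D * ((A + 3) * ℓ) := by gcongr
      _ = C3 * ℓ ^ (E + 1) := by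
          have e5 : ℓ ^ (E + 1) = ℓ ^ E * ℓ := by
            rw [Real.rpow_add hℓpos E 1, Real.rpow_one]
          rw [e4, hC3, e5]; ring
  have hsecond : (Real.log N) ^ (j + 1) / (η * Y) ≤ (Real.log N) ^ j * ℓ ^ (-(A + 2)) := by
    have e1 : η * Y = ℓ ^ (A + 8) := by
      rw [hη, hY, ← Real.rpow_add hℓpos]; congr 1; ring
    rw [e1, div_le_iff₀ (Real.rpow_pos_of_pos hℓpos _), mul_assoc, ← Real.rpow_add hℓpos,
      pow_succ]
    have e2 : ℓ ≤ ℓ ^ (-(A + 2) + (A + 8)) := by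
      calc ℓ = ℓ ^ (1 : ℝ) := (Real.rpow_one _).symm
        _ ≤ ℓ ^ (-(A + 2) + (A + 8)) :=
          Real.rpow_le_rpow_of_exponent_le (by linarith) (by linarith)
    have := le_trans hlogN' e2
    gcongr
  have hthird : η + 1 / (N : ℝ) ≤ 2 * ℓ ^ (-(A + 2)) := by
    have e1 : 1 / (N : ℝ) ≤ ℓ ^ (-(A + 2)) := by
      rw [Real.rpow_neg hℓpos.le, one_div]
      apply inv_anti₀ (Real.rpow_pos_of_pos hℓpos _)
      refine le_trans ?_ hN1
      rw [Real.rpow_def_of_pos hℓpos]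
      apply Real.exp_le_exp.2
      linarith
    rw [hη]; linarith
  have hBle : BB ≤ C2 * (C3 * ℓ ^ (E + 1) + 3 * ((Real.log N) ^ j * ℓ ^ (-(A + 2)))) := by
    rw [hBB]
    have h3 : (Real.log N) ^ j * (η + 1 / N) ≤ (Real.log N) ^ j * (2 * ℓ ^ (-(A + 2))) := by
      gcongr
    apply mul_le_mul_of_nonneg_left _ hC2.le
    linarith
  have hlNj : (ℓ ^ (0.97 * (j : ℝ))) ≤ (Real.log N) ^ j := by
    calc ℓ ^ (0.97 * (j : ℝ)) = (ℓ ^ (0.97 : ℝ)) ^ j := by
          rw [Real.rpow_mul hℓpos.le, Real.rpow_natCast]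
      _ ≤ (Real.log N) ^ j := by gcongr
  have hlNjpos : 0 < (Real.log N) ^ j := by positivity
  have hpow : ℓ ^ (E + 1) * ((Real.log N) ^ j)⁻¹ ≤ ℓ ^ (-(A + 2)) := by
    have h1 : ((Real.log N) ^ j)⁻¹ ≤ (ℓ ^ (0.97 * (j : ℝ)))⁻¹ :=
      inv_anti₀ (Real.rpow_pos_of_pos hℓpos _) hlNj
    calc ℓ ^ (E + 1) * ((Real.log N) ^ j)⁻¹ ≤ ℓ ^ (E + 1) * (ℓ ^ (0.97 * (j : ℝ)))⁻¹ := by
          gcongr
      _ = ℓ ^ (E + 1 - 0.97 * (j : ℝ)) := by
          rw [Real.rpow_sub hℓpos, div_eq_mul_inv]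
      _ ≤ ℓ ^ (-(A + 2)) := by
          apply Real.rpow_le_rpow_of_exponent_le (by linarith)
          rw [hE]
          linarith
  calc BB * w (N + 1) ≤ BB * ((Real.log N) ^ j)⁻¹ := by gcongr
    _ ≤ (C2 * (C3 * ℓ ^ (E + 1) + 3 * ((Real.log N) ^ j * ℓ ^ (-(A + 2))))) *
        ((Real.log N) ^ j)⁻¹ := by gcongr
    _ = C2 * (C3 * (ℓ ^ (E + 1) * ((Real.log N) ^ j)⁻¹) + 3 * ℓ ^ (-(A + 2))) := by
        field_simp
    _ ≤ C2 * (C3 * ℓ ^ (-(A + 2)) + 3 * ℓ ^ (-(A + 2))) := by gcongr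
    _ = C4 * ℓ ^ (-(A + 2)) := by rw [hC4]; ring
    _ ≤ ℓ ^ (2 : ℝ) * ℓ ^ (-(A + 2)) := by
        gcongr
        calc C4 ≤ ℓ := hℓC4
          _ = ℓ ^ (1 : ℝ) := (Real.rpow_one _).symm
          _ ≤ ℓ ^ (2 : ℝ) := Real.rpow_le_rpow_of_exponent_le (by linarith) (by norm_num)
    _ = ℓ ^ (-A) := by
        rw [← Real.rpow_add hℓpos]; congr 1; ring

end Pool.Agent.H43.UF
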