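import Pool.Agent.H43.SI.Psi
import Pool.Agent.H43.UF.Msum

/-!
# [H43 UF PSI] Siegel-Walfisz: `ψ(x,χ)`, uniform in `q <= (log x)^B`

PROOF, `χ ≠ 1`. As `SI/Psi.lean`. `Λχ = (μχ) * (χ log)`, `G(y) = Σ_{b<=y} χ(b) log b`, `|G(y)| <= 2q log(2y)`,
`M(y) = Σ_{a<=y} μ(a)χ(a)`, `ℓ = log x`, `z = ℓ^(A+B+4)`. Hyperbola method:
`Σ_{ab<=x} μχ(a) χ(b)log b = Σ_{a<=x/z} μχ(a) G(x/a) + Σ_{b<=z} χ(b) log b (M(x/b) - M(x/z))`.
First sum `<= (x/z) 2q log(2x) <= 4 x ℓ^(-A-3)`. Second: `msumu` with the exponents `B+1` (for `q`: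
`q <= ℓ^B <= (log(x/b))^(B+1)`, as `x/b >= x/z >= √x`) and `A' = A + 4`: `<= Σ_{b<=z} log b (2x/b) 2^(A'+1) ℓ^(-A')`
`<= C x ℓ^(-A') (1+log z)^2 <= x ℓ^(-A-1)` for `x` large.
`χ = 1` (principal mod `q`): `Σ_{n<=x} Λ(n)χ(n)` differs from `ψ(x)` by the prime powers of the primes dividing `q`:
`<= ω(q) log x <= q log x <= ℓ^(B+1)` (this step is in `SI/Psi.lean`), and `|ψ(x) - x| <= C x ℓ^(-A-1)` is `SI.psi_log` with
`q = 1` (a fixed constant `C`).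
-/

namespace Pool.Agent.H43.UF

open Finset
open Pool.Agent.H43.SI (ps_hyp ps_triv ps_gb ps_ev ps_Icc psF psG psF_norm psFG ps_V ps_princ
  ps_logpow ps_fl psi_log ps_one psF_apply)

private lemma psu_large (A : ℝ) (hA : 0 < A) (K C : ℝ) (hK : 0 < K) (hC : 0 < C)
    (f g : ArithmeticFunction ℂ) (hf : ∀ n, ‖f n‖ ≤ 1)
    (hV : ∀ n : ℕ, ‖∑ b ∈ Ioc 0 n, g b‖ ≤ K * Real.sqrt n)
    (N : ℕ) (hM : ∀ n : ℕ, n ≤ N → (N : ℝ) ^ (1 / 4 : ℝ) ≤ n →
      ‖∑ a ∈ Ioc 0 n, f a‖ ≤ C * n * (Real.log n) ^ (-(5 * A)))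
    (h1 : (Real.log N) ^ (2 * A) ≤ Real.sqrt N) (h2 : (2 : ℝ) ≤ (N : ℝ) ^ (1 / 4 : ℝ))
    (h3 : (N : ℝ) ^ (1 / 4 : ℝ) ≤ Real.sqrt N - 1) (h4 : 1 ≤ Real.log N) :
    ‖∑ n ∈ Ioc 0 N, (f * g) n‖ ≤
      (2 * K + 4 * K * C * (4 : ℝ) ^ (5 * A)) * N * (Real.log N) ^ (-A) := by
  set L := Real.log N with hL
  set z := L ^ (2 * A) with hz
  have hL0 : 0 < L := by linarith
  have hz1 : 1 ≤ z := Real.one_le_rpow h4 (by positivity)
  have hz0 : 0 < z := by linarith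
  have hN0 : (0 : ℝ) < N := by
    rcases Nat.eq_zero_or_pos N with h | h
    · exfalso; rw [h] at h2; norm_num at h2
    · exact_mod_cast h
  have hs0 : 0 < Real.sqrt N := Real.sqrt_pos.2 hN0
  have hss : Real.sqrt N * Real.sqrt N = N := Real.mul_self_sqrt hN0.le
  set Y := ⌊(N : ℝ) / z⌋₊ with hYd
  have hYle : (Y : ℝ) ≤ N / z := Nat.floor_le (by positivity)
  have hYlt : (N : ℝ) / z < Y + 1 := Nat.lt_floor_add_one _
  have hNz : (N : ℝ) / z ≤ N := div_le_self hN0.le hz1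
  have hYN : Y ≤ N := by exact_mod_cast hYle.trans hNz
  have hsNz : Real.sqrt N ≤ (N : ℝ) / z := by
    rw [le_div_iff₀ hz0]
    calc Real.sqrt N * z ≤ Real.sqrt N * Real.sqrt N := mul_le_mul_of_nonneg_left h1 hs0.le
      _ = N := hss
  have hYq : (N : ℝ) ^ (1 / 4 : ℝ) ≤ Y := by linarith
  rw [ps_hyp f g N Y hYN]
  have hfirst : ‖∑ a ∈ Ioc 0 Y, f a * ∑ b ∈ Ioc 0 (N / a), g b‖ ≤ 2 * K * N * L ^ (-A) := by
    refine (ps_triv f g K hK hf hV N Y hYN).trans ?_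
    have h5 : Real.sqrt Y ≤ Real.sqrt N * L ^ (-A) := by
      have h6 : Real.sqrt N * L ^ (-A) = Real.sqrt (N / z) := by
        rw [Real.sqrt_div hN0.le, hz, Real.sqrt_eq_rpow (L ^ (2 * A)), ← Real.rpow_mul hL0.le,
          Real.rpow_neg hL0.le, div_eq_mul_inv]
        congr 3
        ring
      rw [h6]
      exact Real.sqrt_le_sqrt hYle
    calc K * Real.sqrt N * (2 * Real.sqrt Y) ≤
        K * Real.sqrt N * (2 * (Real.sqrt N * L ^ (-A))) := by gcongr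
      _ = 2 * K * (Real.sqrt N * Real.sqrt N) * L ^ (-A) := by ring
      _ = 2 * K * N * L ^ (-A) := by rw [hss]
  have hMn : ∀ n : ℕ, n ≤ N → (N : ℝ) ^ (1 / 4 : ℝ) ≤ n →
      ‖∑ a ∈ Ioc 0 n, f a‖ ≤ C * N * ((4 : ℝ) ^ (5 * A) * L ^ (-(5 * A))) := by
    intro n hn hn4
    have hn2 : 2 ≤ n := by exact_mod_cast h2.trans hn4
    have hn0 : (0 : ℝ) < n := by positivity
    refine (hM n hn hn4).trans ?_
    have h5 : L / 4 ≤ Real.log n := by
      have h6 : Real.log ((N : ℝ) ^ (1 / 4 : ℝ)) ≤ Real.log n :=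
        Real.log_le_log (by positivity) hn4
      rw [Real.log_rpow hN0] at h6
      linarith
    have h6 : (Real.log n) ^ (-(5 * A)) ≤ (4 : ℝ) ^ (5 * A) * L ^ (-(5 * A)) := by
      calc (Real.log n) ^ (-(5 * A)) ≤ (L / 4) ^ (-(5 * A)) :=
            Real.rpow_le_rpow_of_nonpos (by positivity) h5 (by linarith)
        _ = (4 : ℝ) ^ (5 * A) * L ^ (-(5 * A)) := by
            rw [Real.div_rpow hL0.le (by norm_num), Real.rpow_neg (by norm_num : (0 : ℝ) ≤ 4)]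
            field_simp
    have h7 : (n : ℝ) ≤ N := by exact_mod_cast hn
    have h8 : 0 ≤ (Real.log n) ^ (-(5 * A)) :=
      Real.rpow_nonneg (Real.log_nonneg (by exact_mod_cast (by omega : 1 ≤ n))) _
    calc C * n * (Real.log n) ^ (-(5 * A)) ≤ C * N * (Real.log n) ^ (-(5 * A)) := by gcongr
      _ ≤ _ := by gcongr
  have hsecond : ‖∑ b ∈ Ioc 0 (N / (Y + 1)),
      g b * ((∑ a ∈ Ioc 0 (N / b), f a) - ∑ a ∈ Ioc 0 Y, f a)‖ ≤
      4 * K * C * (4 : ℝ) ^ (5 * A) * N * L ^ (-A) := by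
    have hcard : ((N / (Y + 1) : ℕ) : ℝ) ≤ z := by
      calc ((N / (Y + 1) : ℕ) : ℝ) ≤ (N : ℝ) / ((Y + 1 : ℕ) : ℝ) := Nat.cast_div_le
        _ ≤ z := by
            rw [div_le_iff₀ (by positivity)]
            push_cast
            rw [div_lt_iff₀ hz0] at hYlt
            linarith
    have hterm : ∀ b ∈ Ioc 0 (N / (Y + 1)),
        ‖g b * ((∑ a ∈ Ioc 0 (N / b), f a) - ∑ a ∈ Ioc 0 Y, f a)‖ ≤
        2 * K * z * (2 * (C * N * ((4 : ℝ) ^ (5 * A) * L ^ (-(5 * A))))) := by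
      intro b hb
      rw [Finset.mem_Ioc] at hb
      have hbz : (b : ℝ) ≤ z := le_trans (by exact_mod_cast hb.2) hcard
      have hNb : Y ≤ N / b := by
        rw [Nat.le_div_iff_mul_le hb.1]
        have := (Nat.le_div_iff_mul_le (Nat.succ_pos Y)).1 hb.2
        nlinarith
      rw [norm_mul]
      refine mul_le_mul ((ps_gb g K hK hV b hb.1).trans ?_) ?_ (norm_nonneg _) (by positivity)
      · gcongr
      · refine (norm_sub_le _ _).trans ?_
        have h5 := hMn (N / b) (Nat.div_le_self _ _) (hYq.trans (by exact_mod_cast hNb))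
        have h6 := hMn Y hYN hYq
        linarith
    calc _ ≤ ∑ b ∈ Ioc 0 (N / (Y + 1)),
          2 * K * z * (2 * (C * N * ((4 : ℝ) ^ (5 * A) * L ^ (-(5 * A))))) :=
          (norm_sum_le _ _).trans (Finset.sum_le_sum hterm)
      _ = ((N / (Y + 1) : ℕ) : ℝ) *
          (2 * K * z * (2 * (C * N * ((4 : ℝ) ^ (5 * A) * L ^ (-(5 * A)))))) := by
          rw [Finset.sum_const, Nat.card_Ioc, nsmul_eq_mul, Nat.sub_zero]
      _ ≤ z * (2 * K * z * (2 * (C * N * ((4 : ℝ) ^ (5 * A) * L ^ (-(5 * A)))))) := by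
          gcongr
      _ = 4 * K * C * (4 : ℝ) ^ (5 * A) * N * (z * z * L ^ (-(5 * A))) := by ring
      _ = 4 * K * C * (4 : ℝ) ^ (5 * A) * N * L ^ (-A) := by
          rw [hz, ← Real.rpow_add hL0, ← Real.rpow_add hL0]
          congr 2
          ring
  calc _ ≤ 2 * K * N * L ^ (-A) + 4 * K * C * (4 : ℝ) ^ (5 * A) * N * L ^ (-A) :=
        (norm_add_le _ _).trans (add_le_add hfirst hsecond)
    _ = _ := by ring

/-- non-principal characters -/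
private lemma psu_np (B A : ℝ) (hB : 0 < B) (hA : 0 < A) : ∃ X0 : ℝ, 10 ≤ X0 ∧ ∀ x : ℝ, X0 ≤ x →
    ∀ (q : ℕ) [NeZero q], (q : ℝ) ≤ (Real.log x) ^ B → ∀ (χ : DirichletCharacter ℂ q), χ ≠ 1 →
    ‖∑ n ∈ Icc 1 ⌊x⌋₊, ((ArithmeticFunction.vonMangoldt n : ℝ) : ℂ) * χ n‖ ≤
      x * (Real.log x) ^ (-A) := by
  set A1 : ℝ := A + B + 1 with hA1
  have hA10 : 0 < A1 := by linarith
  obtain ⟨N0, hN03, hN0⟩ := ps_ev A1 hA10
  obtain ⟨X1, hX1, hms⟩ := msumu (B + 1) (5 * A1) (by linarith) (by linarith)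
  set c0 : ℝ := (8 + 16 * (4 : ℝ) ^ (5 * A1)) * (2 : ℝ) ^ A1 with hc0
  have hc00 : 0 < c0 := by positivity
  refine ⟨max 10 (max (N0 + 1) (max (X1 ^ 4 + 1) (Real.exp (max c0 ((8 : ℝ) ^ (B + 1)))))),
    le_max_left _ _, fun x hx q _ hq χ hχ => ?_⟩
  simp only [max_le_iff] at hx
  obtain ⟨hx10, hxN, hxX, hxe⟩ := hx
  obtain ⟨h1, h2, h3, h4⟩ := ps_fl (x := x) (by linarith)
  have hx0 : 0 < x := by linarith
  have hl : 0 < Real.log x := Real.log_pos (by linarith)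
  have hle : max c0 ((8 : ℝ) ^ (B + 1)) ≤ Real.log x := by
    rw [Real.le_log_iff_exp_le hx0]
    exact hxe
  have hlc : c0 ≤ Real.log x := (le_max_left _ _).trans hle
  have hl8 : (8 : ℝ) ^ (B + 1) ≤ Real.log x := (le_max_right _ _).trans hle
  set N := ⌊x⌋₊ with hN
  have hNN0 : N0 ≤ N := by
    have : (N0 : ℝ) ≤ N := by linarith
    exact_mod_cast this
  obtain ⟨e1, e2, e3, e4⟩ := hN0 N hNN0
  have hN1 : (1 : ℝ) ≤ N := by exact_mod_cast (by omega : 1 ≤ N)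
  have hNX : X1 ≤ (N : ℝ) ^ (1 / 4 : ℝ) := by
    have h5 : X1 ^ 4 ≤ (N : ℝ) := by linarith
    calc X1 = ((X1 ^ 4 : ℝ)) ^ (1 / 4 : ℝ) := by
          rw [← Real.rpow_natCast, ← Real.rpow_mul (by linarith)]
          norm_num
      _ ≤ _ := Real.rpow_le_rpow (by positivity) h5 (by norm_num)
  have hq0 : (0 : ℝ) < q := by exact_mod_cast Nat.pos_of_ne_zero (NeZero.ne q)
  have hM : ∀ n : ℕ, n ≤ N → (N : ℝ) ^ (1 / 4 : ℝ) ≤ n →
      ‖∑ a ∈ Ioc 0 n, psF χ a‖ ≤ 1 * n * (Real.log n) ^ (-(5 * A1)) := by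
    intro n hn hn4
    have h5 : Real.log x / 8 ≤ Real.log n := by
      have h6 : Real.log ((N : ℝ) ^ (1 / 4 : ℝ)) ≤ Real.log n :=
        Real.log_le_log (by positivity) hn4
      rw [Real.log_rpow (by linarith)] at h6
      linarith
    have h8B : (8 : ℝ) ^ B ≤ Real.log x / 8 := by
      rw [le_div_iff₀ (by norm_num : (0 : ℝ) < 8)]
      rw [Real.rpow_add (by norm_num), Real.rpow_one] at hl8
      exact hl8
    have h6 : (q : ℝ) ≤ (Real.log n) ^ (B + 1) := by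
      calc (q : ℝ) ≤ (Real.log x) ^ B := hq
        _ = (8 : ℝ) ^ B * (Real.log x / 8) ^ B := by
            rw [← Real.mul_rpow (by norm_num) (by positivity)]
            congr 1
            ring
        _ ≤ (Real.log x / 8) * (Real.log x / 8) ^ B := by gcongr
        _ = (Real.log x / 8) ^ (B + 1) := by
            rw [Real.rpow_add (by positivity), Real.rpow_one, mul_comm]
        _ ≤ (Real.log n) ^ (B + 1) := Real.rpow_le_rpow (by positivity) h5 (by linarith)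
    have h7 := hms n (hNX.trans hn4) q h6 χ
    rw [Nat.floor_natCast, ps_Icc] at h7
    rw [one_mul]
    exact h7
  have hmain := psu_large A1 hA10 (4 * q) 1 (by positivity) one_pos (psF χ) (psG χ) (psF_norm χ)
    (ps_V hχ) N hM e1 e2 e3 e4
  rw [ps_Icc, Finset.sum_congr rfl fun n _ => (psFG χ n).symm]
  refine hmain.trans ?_
  have hlogN : (Real.log N) ^ (-A1) ≤ (2 : ℝ) ^ A1 * (Real.log x) ^ (-A1) := by
    calc (Real.log N) ^ (-A1) ≤ (Real.log x / 2) ^ (-A1) :=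
          Real.rpow_le_rpow_of_nonpos (by positivity) (by linarith) (by linarith)
      _ = (2 : ℝ) ^ A1 * (Real.log x) ^ (-A1) := by
          rw [Real.div_rpow hl.le (by norm_num), Real.rpow_neg (by norm_num : (0 : ℝ) ≤ 2)]
          field_simp
  calc (2 * (4 * (q : ℝ)) + 4 * (4 * q) * 1 * (4 : ℝ) ^ (5 * A1)) * N * (Real.log N) ^ (-A1)
      = (8 + 16 * (4 : ℝ) ^ (5 * A1)) * q * N * (Real.log N) ^ (-A1) := by ring
    _ ≤ (8 + 16 * (4 : ℝ) ^ (5 * A1)) * (Real.log x) ^ B * x *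
        ((2 : ℝ) ^ A1 * (Real.log x) ^ (-A1)) := by
        gcongr
    _ = c0 * x * ((Real.log x) ^ B * (Real.log x) ^ (-A1)) := by
        rw [hc0]
        ring
    _ ≤ Real.log x * x * ((Real.log x) ^ B * (Real.log x) ^ (-A1)) := by gcongr
    _ = x * ((Real.log x) ^ (1 : ℝ) * (Real.log x) ^ B * (Real.log x) ^ (-A1)) := by
        rw [Real.rpow_one]
        ring
    _ = x * (Real.log x) ^ (-A) := by
        rw [← Real.rpow_add hl, ← Real.rpow_add hl]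
        congr 2
        rw [hA1]
        ring

/-- principal characters -/
private lemma psu_pr (B A : ℝ) (hB : 0 < B) (hA : 0 < A) : ∃ X0 : ℝ, 10 ≤ X0 ∧ ∀ x : ℝ, X0 ≤ x →
    ∀ (q : ℕ) [NeZero q], (q : ℝ) ≤ (Real.log x) ^ B →
    ‖∑ n ∈ Icc 1 ⌊x⌋₊, ((ArithmeticFunction.vonMangoldt n : ℝ) : ℂ) *
        (1 : DirichletCharacter ℂ q) n - (x : ℂ)‖ ≤ x * (Real.log x) ^ (-A) := by
  obtain ⟨C, hC, hpsi⟩ := psi_log 1 (A + 1) (by linarith)
  obtain ⟨D, hD, hlog⟩ := ps_logpow (A + B + 1) (by linarith)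
  refine ⟨max 10 (Real.exp (max (8 * D + C) 1)), le_max_left _ _, fun x hx q _ hq => ?_⟩
  simp only [max_le_iff] at hx
  obtain ⟨hx10, hxe⟩ := hx
  obtain ⟨h1, h2, h3, h4⟩ := ps_fl (x := x) (by linarith)
  have hx0 : 0 < x := by linarith
  have hl : 0 < Real.log x := Real.log_pos (by linarith)
  have hle : max (8 * D + C) 1 ≤ Real.log x := by
    rw [Real.le_log_iff_exp_le hx0]
    exact hxe
  have hlc : 8 * D + C ≤ Real.log x := (le_max_left _ _).trans hle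
  have hl1 : 1 ≤ Real.log x := (le_max_right _ _).trans hle
  set N := ⌊x⌋₊ with hN
  have hN1 : 1 ≤ N := by omega
  have hp := ps_princ q N hN1
  have hps := hpsi 1 x (by linarith)
  rw [if_pos rfl, ps_Icc, ← hN] at hps
  rw [ps_Icc]
  have hS : ∑ n ∈ Ioc 0 N, ((ArithmeticFunction.vonMangoldt n : ℝ) : ℂ) *
      (1 : DirichletCharacter ℂ 1) n = ∑ n ∈ Ioc 0 N, ((ArithmeticFunction.vonMangoldt n : ℝ) : ℂ) :=
    Finset.sum_congr rfl fun n _ => by rw [ps_one, mul_one]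
  rw [hS] at hps
  have hlogN : Real.log N ≤ Real.log x := Real.log_le_log (by positivity) h2
  have hlogN0 : 0 ≤ Real.log N := Real.log_nonneg (by exact_mod_cast hN1)
  have hq1 : (q : ℝ) + 1 ≤ 2 * (Real.log x) ^ B := by
    have : (1 : ℝ) ≤ (Real.log x) ^ B := Real.one_le_rpow hl1 hB.le
    linarith
  have hlog2 : (((q + 1) * (Nat.log 2 N + 1) : ℕ) : ℝ) * Real.log N ≤
      8 * (Real.log x) ^ B * (Real.log x) ^ 2 := by
    have h5 : ((Nat.log 2 N : ℕ) : ℝ) ≤ 2 * Real.log N := by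
      have h6 : (2 : ℝ) ^ (Nat.log 2 N) ≤ N := by
        exact_mod_cast Nat.pow_log_le_self 2 (by omega)
      have h7 : Real.log ((2 : ℝ) ^ (Nat.log 2 N)) ≤ Real.log N :=
        Real.log_le_log (by positivity) h6
      rw [Real.log_pow] at h7
      have h8 := Real.log_two_gt_d9
      have h9 : (0 : ℝ) ≤ (Nat.log 2 N : ℕ) := Nat.cast_nonneg _
      nlinarith
    have h6 : ((Nat.log 2 N : ℕ) : ℝ) + 1 ≤ 4 * Real.log x := by linarith
    push_cast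
    calc ((q : ℝ) + 1) * (((Nat.log 2 N : ℕ) : ℝ) + 1) * Real.log N
        ≤ (2 * (Real.log x) ^ B) * (4 * Real.log x) * Real.log x := by gcongr
      _ = 8 * (Real.log x) ^ B * (Real.log x) ^ 2 := by ring
  set S1 := ∑ n ∈ Ioc 0 N, ((ArithmeticFunction.vonMangoldt n : ℝ) : ℂ) *
    (1 : DirichletCharacter ℂ q) n
  set S2 := ∑ n ∈ Ioc 0 N, ((ArithmeticFunction.vonMangoldt n : ℝ) : ℂ)
  have hL2 := hlog x (by linarith)
  have e1 : (Real.log x) ^ B * (Real.log x) ^ (-(A + B + 1)) = (Real.log x) ^ (-(A + 1)) := by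
    rw [← Real.rpow_add hl]
    congr 1
    ring
  have e2 : Real.log x * (Real.log x) ^ (-(A + 1)) = (Real.log x) ^ (-A) := by
    nth_rewrite 1 [← Real.rpow_one (Real.log x)]
    rw [← Real.rpow_add hl]
    congr 1
    ring
  have hdec : S1 - (x : ℂ) = (S1 - S2) + (S2 - (x : ℂ)) := by ring
  rw [hdec]
  calc ‖(S1 - S2) + (S2 - (x : ℂ))‖ ≤ ‖S1 - S2‖ + ‖S2 - (x : ℂ)‖ := norm_add_le _ _
    _ ≤ 8 * (Real.log x) ^ B * (Real.log x) ^ 2 + C * x * (Real.log x) ^ (-(A + 1)) :=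
        add_le_add (hp.trans hlog2) hps
    _ ≤ 8 * (Real.log x) ^ B * (D * (x * (Real.log x) ^ (-(A + B + 1)))) +
        C * x * (Real.log x) ^ (-(A + 1)) := by gcongr
    _ = (8 * D) * x * ((Real.log x) ^ B * (Real.log x) ^ (-(A + B + 1))) +
        C * x * (Real.log x) ^ (-(A + 1)) := by ring
    _ = (8 * D + C) * x * (Real.log x) ^ (-(A + 1)) := by rw [e1]; ring
    _ ≤ Real.log x * x * (Real.log x) ^ (-(A + 1)) := by gcongr
    _ = x * (Real.log x * (Real.log x) ^ (-(A + 1))) := by ring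
    _ = x * (Real.log x) ^ (-A) := by rw [e2]

theorem psiu (B A : ℝ) (hB : 0 < B) (hA : 0 < A) : ∃ X0 : ℝ, 10 ≤ X0 ∧ ∀ x : ℝ, X0 ≤ x →
    ∀ (q : ℕ) [NeZero q], (q : ℝ) ≤ (Real.log x) ^ B → ∀ (χ : DirichletCharacter ℂ q),
    ‖∑ n ∈ Icc 1 ⌊x⌋₊, ((ArithmeticFunction.vonMangoldt n : ℝ) : ℂ) * χ n -
        (open Classical in if χ = 1 then (x : ℂ) else 0)‖ ≤ x * (Real.log x) ^ (-A) := by
  obtain ⟨X1, hX1, h1⟩ := psu_np B A hB hA
  obtain ⟨X2, hX2, h2⟩ := psu_pr B A hB hA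
  refine ⟨max X1 X2, hX1.trans (le_max_left _ _), fun x hx q _ hq χ => ?_⟩
  by_cases hχ : χ = 1
  · subst hχ
    rw [if_pos rfl]
    exact h2 x ((le_max_right _ _).trans hx) q hq
  · rw [if_neg hχ, sub_zero]
    exact h1 x ((le_max_left _ _).trans hx) q hq χ hχ

end Pool.Agent.H43.UF
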