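import Pool.Agent.H43.ZS.Fin
import Pool.Agent.H43.LF.Cls
import Pool.Agent.H43.LF.Em
import Pool.Agent.H43.LF.Smf
import Pool.Agent.H43.UF.Defs

/-!
# [H43 UF LWB] Long smooth sums: power saving, uniform in `q <= (log X)^B`

There is an absolute `c > 0`: for `X^(3/8)/4 <= N <= X^2`, `N' <= 2N`, `1 <= |t| <= X`, `X >= X0(B)`:
`‖Σ_{N<n<=N'} χ(n) n^(-1-it)‖ <= (log X)^(B+1)/|t| + X^(-c)`.

PROOF. `ℓ = log X`. If `|t| <= N^(1/2)`: `LF.em`: `<= 10q(1/|t| + 2|t|/N) <= 10 ℓ^B/|t| + 20 ℓ^B N^(-1/2)`.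
Let `|t| > N^(1/2)`. Classes as in `LF/Chi.lean` (`LF.cls_chi`, every upper limit `u <= N'`): for a class the sum is
`Σ_{M1<m<=M2} exp(-i|t| log(m+a/q))`, `M1 = (N-a)/q`, `N/q - 2 <= M1 <= N/q`, at most `2M1+2` terms; the part with
`m <= 2M1` is bounded as in `ZS/Fin.lean`: `κ = log|t|/log M1 ∈ [1/2, 3]` (`|t| > N^(1/2) >= M1^(1/2)`,
`|t| <= X <= (4N)^(8/3) <= M1^3` for `X` large since `M1 >= N/ℓ^(B+1)`), `k = ⌈3κ⌉₊ ∈ {2,...,9}`,
`M1^((k-1)/3) < |t| <= M1^(k/3)`, `A = ⌊M1^(1/3)⌋₊`, `ZS.shift` and `ZS.wb` (constants `C, c0`):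
`<= M1 exp(729 C)(1+log M1) M1^(-c0/81) + 2 M1^(2/3) + M1 |t| (M1^(-1/3))^(k+1)`, the last `<= M1^(2/3)`
`<= M1^(1-c1)` with `c1 = min(c0/100, 1/10)` for `X` large. All classes: `<= q (N/q)^(1-c1) + 2q <= ℓ^B N^(1-c1) + 2ℓ^B`;
removing `1/n` (partial summation with the decreasing weight `1/n <= 1/N`) costs a factor `2/N`:
`<= 4 ℓ^B N^(-c1) + 4 ℓ^B/N <= X^(-c1/4)` for `X` large. Take `c = min(c1/4, 1/8)`.
-/

namespace Pool.Agent.H43.UF

open Finset

private theorem lwb_ev (C c : ℝ) (hc : 0 < c) : ∃ l0 : ℝ, 2 ≤ l0 ∧ ∀ l : ℝ, l0 ≤ l →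
    Real.exp (729 * C) * (1 + l) * Real.exp (-(c / 81) * l) + 3 * Real.exp (-l / 3) ≤
      Real.exp (-(min (c / 100) (1 / 10)) * l) := by
  set c1 : ℝ := min (c / 100) (1 / 10) with hc1
  have hc1a : c1 ≤ c / 100 := min_le_left _ _
  have hc1b : c1 ≤ 1 / 10 := min_le_right _ _
  set b : ℝ := c / 81 - c / 100 with hb
  have hb0 : 0 < b := by rw [hb]; linarith
  have t0 : Filter.Tendsto (fun l : ℝ => l ^ (0 : ℝ) * Real.exp (-b * l)) Filter.atTop (nhds 0) :=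
    tendsto_rpow_mul_exp_neg_mul_atTop_nhds_zero 0 b hb0
  have t1 : Filter.Tendsto (fun l : ℝ => l ^ (1 : ℝ) * Real.exp (-b * l)) Filter.atTop (nhds 0) :=
    tendsto_rpow_mul_exp_neg_mul_atTop_nhds_zero 1 b hb0
  have t2 : Filter.Tendsto (fun l : ℝ => l ^ (0 : ℝ) * Real.exp (-(1 / 5) * l)) Filter.atTop
      (nhds 0) :=
    tendsto_rpow_mul_exp_neg_mul_atTop_nhds_zero 0 (1 / 5) (by norm_num)
  have hsum : Filter.Tendsto (fun l : ℝ => Real.exp (729 * C) * (l ^ (0 : ℝ) * Real.exp (-b * l)) +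
      Real.exp (729 * C) * (l ^ (1 : ℝ) * Real.exp (-b * l)) +
      3 * (l ^ (0 : ℝ) * Real.exp (-(1 / 5) * l))) Filter.atTop (nhds 0) := by
    have := ((t0.const_mul (Real.exp (729 * C))).add (t1.const_mul (Real.exp (729 * C)))).add
      (t2.const_mul 3)
    simpa using this
  obtain ⟨l1, hl1⟩ := Filter.eventually_atTop.1 (hsum.eventually_le_const (zero_lt_one))
  refine ⟨max 2 l1, le_max_left _ _, ?_⟩
  intro l hl
  have hl2 : 2 ≤ l := (le_max_left _ _).trans hl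
  have h1 := hl1 l ((le_max_right _ _).trans hl)
  rw [Real.rpow_zero, Real.rpow_one, one_mul, one_mul] at h1
  have e1 : Real.exp (-(c / 81) * l) ≤ Real.exp (-c1 * l) * Real.exp (-b * l) := by
    rw [← Real.exp_add]
    apply Real.exp_le_exp.2
    rw [hb]
    nlinarith
  have e2 : Real.exp (-l / 3) ≤ Real.exp (-c1 * l) * Real.exp (-(1 / 5) * l) := by
    rw [← Real.exp_add]
    apply Real.exp_le_exp.2
    nlinarith
  have hE : 0 < Real.exp (-c1 * l) := Real.exp_pos _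
  have hK : 0 < Real.exp (729 * C) := Real.exp_pos _
  calc Real.exp (729 * C) * (1 + l) * Real.exp (-(c / 81) * l) + 3 * Real.exp (-l / 3)
      ≤ Real.exp (729 * C) * (1 + l) * (Real.exp (-c1 * l) * Real.exp (-b * l)) +
        3 * (Real.exp (-c1 * l) * Real.exp (-(1 / 5) * l)) := by
        gcongr
    _ = Real.exp (-c1 * l) * (Real.exp (729 * C) * Real.exp (-b * l) +
        Real.exp (729 * C) * (l * Real.exp (-b * l)) + 3 * Real.exp (-(1 / 5) * l)) := by ring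
    _ ≤ Real.exp (-c1 * l) * 1 := by gcongr
    _ = Real.exp (-c1 * l) := mul_one _

/-- power saving for the sums over `(M, M']`, `M^(1/2) <= t <= M^3` -/
private theorem lwb_class : ∃ c1 : ℝ, 0 < c1 ∧ c1 ≤ 1 / 10 ∧ ∃ M0 : ℝ, 2 ≤ M0 ∧ ∀ t : ℝ, 1 < t →
    ∀ N N' : ℕ, M0 ≤ N → (N : ℝ) ≤ t ^ 2 → t ≤ (N : ℝ) ^ 3 → N' ≤ 2 * N →
    ∀ β : ℝ, 0 ≤ β → β ≤ 1 →
    ‖∑ m ∈ Ioc N N', Complex.exp (-(t * Real.log ((m : ℝ) + β) : ℝ) * Complex.I)‖ ≤
      (N : ℝ) ^ (1 - c1) := by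
  obtain ⟨C, c, hC, hc, hwb⟩ := ZS.wb
  obtain ⟨l0, hl02, hl0⟩ := lwb_ev C c hc
  refine ⟨min (c / 100) (1 / 10), by positivity, min_le_right _ _, max 8 (Real.exp l0),
    le_trans (by norm_num) (le_max_left _ _), ?_⟩
  intro t ht N N' hNM hN2 hN3 hN' β hβ0 hβ1
  have htpos : 0 < t := by linarith
  have hN8 : (8 : ℝ) ≤ N := (le_max_left _ _).trans hNM
  have hNe : Real.exp l0 ≤ N := (le_max_right _ _).trans hNM
  have hNpos : (0 : ℝ) < N := by linarith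
  set L := Real.log t with hL
  have htL : t = Real.exp L := (Real.exp_log htpos).symm
  set ℓ := Real.log N with hℓ
  have hℓ1 : l0 ≤ ℓ := (Real.le_log_iff_exp_le hNpos).2 hNe
  have hℓpos : 0 < ℓ := by linarith
  have hℓ2 : ℓ ≤ 2 * L := by
    have := Real.log_le_log hNpos hN2
    rw [Real.log_pow] at this
    simpa using this
  have hℓ3 : L ≤ 3 * ℓ := by
    have := Real.log_le_log htpos hN3
    rw [Real.log_pow] at this
    simpa using this
  have hNℓ : (N : ℝ) = Real.exp ℓ := (Real.exp_log hNpos).symm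
  have hNrpow : ∀ a : ℝ, (N : ℝ) ^ a = Real.exp (a * ℓ) := by
    intro a
    rw [Real.rpow_def_of_pos hNpos]
    congr 1; ring
  -- κ
  set κ := L / ℓ with hκ
  have hκℓ : κ * ℓ = L := by rw [hκ]; field_simp
  have hκhalf : 1 / 2 ≤ κ := by
    rw [hκ, le_div_iff₀ hℓpos]; linarith
  have hκu : κ ≤ 3 := by
    rw [hκ, div_le_iff₀ hℓpos]; linarith
  set k := ⌈3 * κ⌉₊ with hk
  have hk1 : 3 * κ ≤ k := Nat.le_ceil _
  have hk2 : (k : ℝ) < 3 * κ + 1 := Nat.ceil_lt_add_one (by linarith)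
  have hkge2 : 2 ≤ k := by
    have : (1 : ℝ) < k := by linarith
    exact_mod_cast this
  have hk9 : (k : ℝ) ≤ 9 := by
    have : k ≤ 9 := by
      rw [hk, Nat.ceil_le]; push_cast; linarith
    exact_mod_cast this
  have hkpos : (0 : ℝ) < k := by linarith
  -- A
  set A := ⌊(N : ℝ) ^ ((1 : ℝ) / 3)⌋₊ with hA
  have hN13 : 2 ≤ (N : ℝ) ^ ((1 : ℝ) / 3) := by
    calc (2 : ℝ) = (8 : ℝ) ^ ((1 : ℝ) / 3) := by
          rw [show (8 : ℝ) = 2 ^ (3 : ℝ) by norm_num, ← Real.rpow_mul (by norm_num)]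
          norm_num
      _ ≤ (N : ℝ) ^ ((1 : ℝ) / 3) := Real.rpow_le_rpow (by norm_num) hN8 (by norm_num)
  have hA1 : 1 ≤ A := by
    rw [hA]; exact Nat.le_floor (by push_cast; linarith)
  have hAle : (A : ℝ) ≤ (N : ℝ) ^ ((1 : ℝ) / 3) := Nat.floor_le (by linarith)
  have hApos : (0 : ℝ) < A := by exact_mod_cast hA1
  have hA2le : (A : ℝ) ^ 2 ≤ N * Real.exp (-ℓ / 3) := by
    calc (A : ℝ) ^ 2 ≤ ((N : ℝ) ^ ((1 : ℝ) / 3)) ^ 2 := by gcongr
      _ = N * Real.exp (-ℓ / 3) := by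
          rw [hNrpow, ← Real.exp_nat_mul]
          conv_rhs => rw [hNℓ]
          rw [← Real.exp_add]
          congr 1; push_cast; ring
  have hN13' : (N : ℝ) * Real.exp (-ℓ / 3) * 2 ≤ N := by
    have h2 : Real.exp (-ℓ / 3) * (N : ℝ) ^ ((1 : ℝ) / 3) = 1 := by
      rw [hNrpow, ← Real.exp_add, show -ℓ / 3 + 1 / 3 * ℓ = 0 by ring, Real.exp_zero]
    have h3 : Real.exp (-ℓ / 3) * 2 ≤ 1 := by
      rw [← h2]
      gcongr
    calc (N : ℝ) * Real.exp (-ℓ / 3) * 2 = N * (Real.exp (-ℓ / 3) * 2) := by ring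
      _ ≤ N * 1 := by gcongr
      _ = N := mul_one _
  have h2A : 2 * A ^ 2 ≤ N := by
    have : (2 : ℝ) * (A : ℝ) ^ 2 ≤ N := by linarith
    exact_mod_cast this
  have hsh := ZS.shift t β htpos.le hβ0 N N' A k (by omega) hA1 h2A hN'
  refine le_trans hsh ?_
  -- the W part
  have hlow : (N : ℝ) ^ (((k : ℝ) - 1) / 3) < t := by
    rw [hNrpow, htL]
    apply Real.exp_lt_exp.2
    rw [← hκℓ]
    have : ((k : ℝ) - 1) / 3 < κ := by linarith
    exact mul_lt_mul_of_pos_right this hℓpos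
  have hup : t ≤ (N : ℝ) ^ ((k : ℝ) / 3) := by
    rw [hNrpow, htL]
    apply Real.exp_le_exp.2
    rw [← hκℓ]
    have : κ ≤ (k : ℝ) / 3 := by linarith
    exact mul_le_mul_of_nonneg_right this hℓpos.le
  have hN2nat : 2 ≤ N := by
    have : (2 : ℝ) ≤ N := by linarith
    exact_mod_cast this
  set B := Real.exp (C * (k : ℝ) ^ 3) * (1 + Real.log N) * (N : ℝ) ^ (-(c / (k : ℝ) ^ 2)) with hB
  have hWle : ∀ m ∈ Ioc N N', ‖ZS.W k A (ZS.al k t β m)‖ ≤ (A : ℝ) ^ 2 * B := by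
    intro m hm
    rw [mem_Ioc] at hm
    have := hwb k N t β m hkge2 hN2nat hlow hup hN2 hm.1 (le_trans hm.2 hN') hβ0 hβ1
    rw [hB]
    calc _ ≤ _ := this
      _ = _ := by ring
  have hBnn : 0 ≤ B := by
    rw [hB]
    have : 0 ≤ 1 + Real.log N := by rw [← hℓ]; linarith
    positivity
  have hcard : ((Ioc N N').card : ℝ) ≤ N := by
    rw [Nat.card_Ioc]
    have : N' - N ≤ N := by omega
    exact_mod_cast this
  have hsumW : (1 / (A : ℝ) ^ 2) * ∑ m ∈ Ioc N N', ‖ZS.W k A (ZS.al k t β m)‖ ≤ N * B := by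
    have h1 := Finset.sum_le_sum hWle
    rw [Finset.sum_const, nsmul_eq_mul] at h1
    calc (1 / (A : ℝ) ^ 2) * ∑ m ∈ Ioc N N', ‖ZS.W k A (ZS.al k t β m)‖
        ≤ (1 / (A : ℝ) ^ 2) * (((Ioc N N').card : ℝ) * ((A : ℝ) ^ 2 * B)) := by gcongr
      _ = ((Ioc N N').card : ℝ) * B := by
          have hA2 : (A : ℝ) ^ 2 ≠ 0 := by positivity
          generalize ((Ioc N N').card : ℝ) = w
          generalize B = b
          field_simp
      _ ≤ N * B := by gcongr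
  -- bound for B
  have hBle : B ≤ Real.exp (729 * C) * (1 + ℓ) * Real.exp (-(c / 81) * ℓ) := by
    rw [hB, hNrpow]
    have e1 : C * (k : ℝ) ^ 3 ≤ 729 * C := by
      have : (k : ℝ) ^ 3 ≤ 9 ^ 3 := by gcongr
      calc C * (k : ℝ) ^ 3 ≤ C * 9 ^ 3 := by gcongr
        _ = 729 * C := by ring
    have e2 : c / 81 ≤ c / (k : ℝ) ^ 2 := by
      have h1 : (k : ℝ) ^ 2 ≤ 9 ^ 2 := by gcongr
      have h2 : c / 9 ^ 2 ≤ c / (k : ℝ) ^ 2 := by
        gcongr
      norm_num at h2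
      exact h2
    have e3 : -(c / (k : ℝ) ^ 2) * ℓ ≤ -(c / 81) * ℓ := by
      apply mul_le_mul_of_nonneg_right _ hℓpos.le
      linarith
    gcongr
  -- third term
  have hthird : N * t * ((A : ℝ) ^ 2 / N) ^ (k + 1) ≤ N * Real.exp (-ℓ / 3) := by
    have h1 : (A : ℝ) ^ 2 / N ≤ Real.exp (-ℓ / 3) := by
      rw [div_le_iff₀ hNpos]
      linarith
    have h2 : ((A : ℝ) ^ 2 / N) ^ (k + 1) ≤ (Real.exp (-ℓ / 3)) ^ (k + 1) := by
      gcongr
    have h3 : t * (Real.exp (-ℓ / 3)) ^ (k + 1) ≤ Real.exp (-ℓ / 3) := by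
      rw [← Real.exp_nat_mul, htL, ← Real.exp_add]
      apply Real.exp_le_exp.2
      rw [← hκℓ]
      push_cast
      have : κ * ℓ ≤ (k : ℝ) / 3 * ℓ := by
        apply mul_le_mul_of_nonneg_right _ hℓpos.le
        linarith
      linarith
    calc N * t * ((A : ℝ) ^ 2 / N) ^ (k + 1) ≤ N * t * (Real.exp (-ℓ / 3)) ^ (k + 1) := by
          gcongr
      _ = N * (t * (Real.exp (-ℓ / 3)) ^ (k + 1)) := by ring
      _ ≤ N * Real.exp (-ℓ / 3) := by gcongr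
  have hfin := hl0 ℓ hℓ1
  have hgoal : (N : ℝ) ^ (1 - min (c / 100) (1 / 10)) =
      N * Real.exp (-(min (c / 100) (1 / 10)) * ℓ) := by
    rw [hNrpow]
    conv_rhs => rw [hNℓ]
    rw [← Real.exp_add]
    congr 1
    ring
  rw [hgoal]
  calc (1 / (A : ℝ) ^ 2) * ∑ m ∈ Ioc N N', ‖ZS.W k A (ZS.al k t β m)‖ + 2 * (A : ℝ) ^ 2 +
        N * t * ((A : ℝ) ^ 2 / N) ^ (k + 1)
      ≤ N * B + 2 * (N * Real.exp (-ℓ / 3)) + N * Real.exp (-ℓ / 3) := by
        gcongr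
    _ = N * (B + 3 * Real.exp (-ℓ / 3)) := by ring
    _ ≤ N * (Real.exp (729 * C) * (1 + ℓ) * Real.exp (-(c / 81) * ℓ) +
        3 * Real.exp (-ℓ / 3)) := by
        gcongr
    _ ≤ _ := by
        gcongr

private theorem lwb_pow (K B a : ℝ) (ha : 0 < a) : ∃ l0 : ℝ, ∀ l : ℝ, l0 ≤ l →
    K * l ^ B ≤ Real.exp (a * l) := by
  have h1 := (tendsto_rpow_mul_exp_neg_mul_atTop_nhds_zero B a ha).const_mul K
  rw [mul_zero] at h1
  obtain ⟨l0, hl0⟩ := Filter.eventually_atTop.1 (h1.eventually_le_const zero_lt_one)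
  refine ⟨l0, fun l hl => ?_⟩
  have h2 := hl0 l hl
  have h3 : Real.exp (-a * l) * Real.exp (a * l) = 1 := by
    rw [← Real.exp_add]; simp
  calc K * l ^ B = (K * (l ^ B * Real.exp (-a * l))) * Real.exp (a * l) := by
        rw [mul_assoc, mul_assoc, h3, mul_one]
    _ ≤ 1 * Real.exp (a * l) := by gcongr
    _ = Real.exp (a * l) := one_mul _

theorem lwb : ∃ c : ℝ, 0 < c ∧ ∀ B : ℝ, 0 < B → ∃ X0 : ℝ, 10 ≤ X0 ∧ ∀ X : ℝ, X0 ≤ X →
    ∀ (q : ℕ) [NeZero q], (q : ℝ) ≤ (Real.log X) ^ B → ∀ (χ : DirichletCharacter ℂ q)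
    (N N' : ℕ) (t : ℝ), X ^ ((3 : ℝ) / 8) / 4 ≤ N → (N : ℝ) ≤ X ^ 2 → N' ≤ 2 * N → 1 ≤ |t| → |t| ≤ X →
    ‖LF.ds (fun n => χ n) N N' t‖ ≤ (Real.log X) ^ (B + 1) / |t| + X ^ (-c) := by
  obtain ⟨c1, hc1, hc1', M0, hM0, hcl⟩ := lwb_class
  refine ⟨min (c1 / 4) (1 / 8), by positivity, ?_⟩
  intro B hB
  obtain ⟨l1, hl1⟩ := lwb_pow 40 B (1 / 16) (by norm_num)
  obtain ⟨l2, hl2⟩ := lwb_pow 12 B (1 / 24) (by norm_num)
  obtain ⟨l3, hl3⟩ := lwb_pow 12 B (c1 / 8) (by positivity)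
  obtain ⟨l4, hl4⟩ := lwb_pow M0 0 (1 / 3) (by norm_num)
  refine ⟨max 10 (Real.exp (max 10 (max l1 (max l2 (max l3 l4))))), le_max_left _ _, ?_⟩
  intro X hX q _ hq χ N N' t hN hN2 hN' ht1 htX
  have hX10 : 10 ≤ X := (le_max_left _ _).trans hX
  have hXpos : 0 < X := by linarith
  have hlX : max 10 (max l1 (max l2 (max l3 l4))) ≤ Real.log X :=
    (Real.le_log_iff_exp_le hXpos).2 ((le_max_right _ _).trans hX)
  set l := Real.log X with hldef
  have hl10 : 10 ≤ l := (le_max_left _ _).trans hlX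
  have hr := (le_max_right _ _).trans hlX
  have e1 := hl1 l ((le_max_left _ _).trans hr)
  have hr := (le_max_right _ _).trans hr
  have e2 := hl2 l ((le_max_left _ _).trans hr)
  have hr := (le_max_right _ _).trans hr
  have e3 := hl3 l ((le_max_left _ _).trans hr)
  have e4 := hl4 l ((le_max_right _ _).trans hr)
  rw [Real.rpow_zero, mul_one] at e4
  have hlpos : 0 < l := by linarith
  have hlB : 1 ≤ l ^ B := Real.one_le_rpow (by linarith) hB.le
  have hXr : ∀ a : ℝ, X ^ a = Real.exp (a * l) := by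
    intro a
    rw [Real.rpow_def_of_pos hXpos]
    congr 1; ring
  have hqpos : 0 < q := Nat.pos_of_ne_zero (NeZero.ne q)
  have hq0 : (0 : ℝ) < q := by exact_mod_cast hqpos
  have hq1 : (1 : ℝ) ≤ q := by exact_mod_cast hqpos
  have ht0 : 0 < |t| := by linarith
  have ht0' : t ≠ 0 := abs_pos.1 ht0
  -- size of N
  have hXsplit : X ^ ((3 : ℝ) / 8) = X ^ ((1 : ℝ) / 24) * X ^ ((1 : ℝ) / 3) := by
    rw [← Real.rpow_add hXpos]; norm_num
  have e2' : 12 * l ^ B ≤ X ^ ((1 : ℝ) / 24) := by rw [hXr]; exact e2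
  have hX3 : M0 ≤ X ^ ((1 : ℝ) / 3) := by rw [hXr]; exact e4
  have hX3' : 2 ≤ X ^ ((1 : ℝ) / 3) := hM0.trans hX3
  have hNbig : 3 * l ^ B * X ^ ((1 : ℝ) / 3) ≤ N := by
    refine le_trans ?_ hN
    rw [hXsplit, le_div_iff₀ (by norm_num)]
    have : 0 ≤ X ^ ((1 : ℝ) / 3) := by positivity
    nlinarith
  have hqN : (q : ℝ) * (3 * X ^ ((1 : ℝ) / 3)) ≤ N := by
    refine le_trans ?_ hNbig
    have : 0 ≤ X ^ ((1 : ℝ) / 3) := by positivity
    nlinarith
  have hqN' : (q : ℝ) ≤ N := by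
    refine le_trans ?_ hqN
    nlinarith
  have hN0 : (0 : ℝ) < N := by linarith
  have hN1 : 1 ≤ N := by
    have : 0 < N := by exact_mod_cast hN0
    omega
  have hcle1 : min (c1 / 4) (1 / 8) ≤ 1 / 8 := min_le_right _ _
  have hcle2 : min (c1 / 4) (1 / 8) ≤ c1 / 4 := min_le_left _ _
  have hterm1 : 0 ≤ l ^ (B + 1) / |t| := by positivity
  rcases le_or_gt (t ^ 2) N with hcase | hcase
  · refine (LF.em χ N N' hN1 hN' t ht0').trans ?_
    have hexp : 10 * (q : ℝ) ≤ l ^ (B + 1) := by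
      rw [Real.rpow_add hlpos, Real.rpow_one]
      nlinarith
    have hA : 10 * (q : ℝ) * (1 / |t|) ≤ l ^ (B + 1) / |t| := by
      rw [mul_one_div]
      gcongr
    have hsq : |t| ≤ Real.sqrt N := by
      apply Real.le_sqrt_of_sq_le
      rwa [sq_abs]
    have hsN : 0 < Real.sqrt N := Real.sqrt_pos.2 hN0
    have h7 : (1 + |t|) / N ≤ 2 / Real.sqrt N := by
      rw [div_le_div_iff₀ hN0 hsN]
      have h8 : Real.sqrt N * Real.sqrt N = N := Real.mul_self_sqrt hN0.le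
      nlinarith
    have h9 : X ^ ((3 : ℝ) / 16) / 2 ≤ Real.sqrt N := by
      apply Real.le_sqrt_of_sq_le
      refine le_trans (le_of_eq ?_) hN
      rw [div_pow, ← Real.rpow_natCast, ← Real.rpow_mul hXpos.le]
      norm_num
    have hX316 : 0 < X ^ ((3 : ℝ) / 16) := by positivity
    have h10 : 2 / Real.sqrt N ≤ 4 * X ^ (-((3 : ℝ) / 16)) := by
      rw [div_le_iff₀ hsN]
      have h11 : X ^ (-((3 : ℝ) / 16)) * X ^ ((3 : ℝ) / 16) = 1 := by
        rw [← Real.rpow_add hXpos]; simp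
      have h12 : 0 < X ^ (-((3 : ℝ) / 16)) := by positivity
      have h13 : 4 * X ^ (-((3 : ℝ) / 16)) * (X ^ ((3 : ℝ) / 16) / 2) ≤
          4 * X ^ (-((3 : ℝ) / 16)) * Real.sqrt N := by gcongr
      have h14 : 4 * X ^ (-((3 : ℝ) / 16)) * (X ^ ((3 : ℝ) / 16) / 2) = 2 := by
        linear_combination 2 * h11
      linarith
    have hB' : 10 * (q : ℝ) * ((1 + |t|) / N) ≤ X ^ (-(min (c1 / 4) (1 / 8))) := by
      have h11 : 10 * (q : ℝ) * ((1 + |t|) / N) ≤ 10 * l ^ B * (4 * X ^ (-((3 : ℝ) / 16))) := by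
        have := h7.trans h10
        gcongr
      refine h11.trans ?_
      have h12 : 40 * l ^ B ≤ X ^ ((1 : ℝ) / 16) := by rw [hXr]; exact e1
      have h13 : 0 < X ^ (-((3 : ℝ) / 16)) := by positivity
      have h14 : X ^ ((1 : ℝ) / 16) * X ^ (-((3 : ℝ) / 16)) = X ^ (-((1 : ℝ) / 8)) := by
        rw [← Real.rpow_add hXpos]; norm_num
      calc 10 * l ^ B * (4 * X ^ (-((3 : ℝ) / 16))) = 40 * l ^ B * X ^ (-((3 : ℝ) / 16)) := by ring
        _ ≤ X ^ ((1 : ℝ) / 16) * X ^ (-((3 : ℝ) / 16)) := by gcongr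
        _ = X ^ (-((1 : ℝ) / 8)) := h14
        _ ≤ X ^ (-(min (c1 / 4) (1 / 8))) :=
            Real.rpow_le_rpow_of_exponent_le (by linarith) (by linarith)
    have hsum : 10 * (q : ℝ) * (1 / |t| + (1 + |t|) / N) =
        10 * (q : ℝ) * (1 / |t|) + 10 * (q : ℝ) * ((1 + |t|) / N) := by ring
    rw [hsum]
    exact add_le_add hA hB'
  · rcases lt_or_ge N' N with hlt | hge
    · unfold LF.ds
      rw [Ioc_eq_empty_of_le hlt.le]
      simp only [sum_empty, norm_zero]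
      positivity
    have ht1' : 1 < |t| := by
      have h1 : (1 : ℝ) < t ^ 2 := by
        refine lt_of_le_of_lt ?_ hcase
        exact_mod_cast hN1
      rw [← sq_abs] at h1
      by_contra hcon
      push Not at hcon
      nlinarith
    have hqNn : q ≤ N := by exact_mod_cast hqN'
    have hNc : (0 : ℝ) ≤ (N : ℝ) ^ (1 - c1) := by positivity
    have hN1R : (1 : ℝ) ≤ N := by exact_mod_cast hN1
    have hNc1 : (1 : ℝ) ≤ (N : ℝ) ^ (1 - c1) := Real.one_le_rpow hN1R (by linarith)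
    have hchi : ∀ m, N ≤ m → m ≤ N' →
        ‖∑ n ∈ Ioc N m, χ n * (n : ℂ) ^ (-((t : ℂ) * Complex.I))‖ ≤
          q * ((N : ℝ) ^ (1 - c1) + 2) := by
      intro K hNK hKN'
      refine LF.cls_chi q χ t N K hqNn _ (by linarith) ?_
      intro _ a ha
      have hd1 := Nat.div_add_mod (N - a) q
      have hd2 := Nat.mod_lt (N - a) hqpos
      have hd3 := Nat.div_add_mod (K - a) q
      have hd4 := Nat.mod_lt (K - a) hqpos
      set M1 := (N - a) / q
      set M2 := (K - a) / q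
      have hM2 : M2 ≤ 2 * M1 + 2 := by
        by_contra hcon
        push Not at hcon
        have h1 : q * (2 * M1 + 3) ≤ q * M2 := Nat.mul_le_mul_left q (by omega)
        have h2 : q * (2 * M1 + 3) = 2 * (q * M1) + 3 * q := by ring
        omega
      have hM1u : (M1 : ℝ) ≤ N := by
        have h1 : q * M1 ≤ N := by omega
        have h2 : M1 ≤ q * M1 := Nat.le_mul_of_pos_left _ hqpos
        exact_mod_cast h2.trans h1
      have hM1l : X ^ ((1 : ℝ) / 3) ≤ M1 := by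
        have h1 : N ≤ q * M1 + 2 * q := by omega
        have h2 : (N : ℝ) ≤ ((q * M1 + 2 * q : ℕ) : ℝ) := by exact_mod_cast h1
        push_cast at h2
        have h3 : (q : ℝ) * (3 * X ^ ((1 : ℝ) / 3)) ≤ q * (M1 + 2) := by linarith
        have h4 : 3 * X ^ ((1 : ℝ) / 3) ≤ M1 + 2 := le_of_mul_le_mul_left h3 hq0
        linarith
      have hM1t : (M1 : ℝ) ≤ |t| ^ 2 := by
        rw [sq_abs]
        linarith
      have htM1 : |t| ≤ (M1 : ℝ) ^ 3 := by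
        refine htX.trans ?_
        have h1 : (X ^ ((1 : ℝ) / 3)) ^ 3 ≤ (M1 : ℝ) ^ 3 := by gcongr
        have h2 : (X ^ ((1 : ℝ) / 3)) ^ 3 = X := by
          rw [← Real.rpow_natCast, ← Real.rpow_mul hXpos.le]
          norm_num
        linarith
      have hβ0 : (0 : ℝ) ≤ (a : ℝ) / q := by positivity
      have hβ1 : (a : ℝ) / q ≤ 1 := by
        rw [div_le_one hq0]
        exact_mod_cast ha.le
      have hz1 := hcl |t| ht1' M1 (min M2 (2 * M1)) (hX3.trans hM1l) hM1t htM1 (min_le_right _ _)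
        ((a : ℝ) / q) hβ0 hβ1
      have hsub : Ioc M1 (min M2 (2 * M1)) ⊆ Ioc M1 M2 :=
        Ioc_subset_Ioc_right (min_le_left _ _)
      rw [← Finset.sum_sdiff hsub]
      refine (norm_add_le _ _).trans ?_
      have h4 : ‖∑ m ∈ Ioc M1 M2 \ Ioc M1 (min M2 (2 * M1)),
          Complex.exp (-(|t| * Real.log ((m : ℝ) + (a : ℝ) / q) : ℝ) * Complex.I)‖ ≤ 2 := by
        refine (norm_sum_le _ _).trans ?_
        have h5 : ∀ m ∈ Ioc M1 M2 \ Ioc M1 (min M2 (2 * M1)),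
            ‖Complex.exp (-(|t| * Real.log ((m : ℝ) + (a : ℝ) / q) : ℝ) * Complex.I)‖ ≤ 1 := by
          intro m _
          have := Complex.norm_exp_ofReal_mul_I (-(|t| * Real.log ((m : ℝ) + (a : ℝ) / q)))
          push_cast at this ⊢
          exact this.le
        refine (Finset.sum_le_card_nsmul _ _ _ h5).trans ?_
        have h6 : (Ioc M1 M2 \ Ioc M1 (min M2 (2 * M1))).card ≤ 2 := by
          have h7 : Ioc M1 M2 \ Ioc M1 (min M2 (2 * M1)) ⊆ Ioc (2 * M1) (2 * M1 + 2) := by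
            intro m hm
            rw [mem_sdiff, mem_Ioc, mem_Ioc] at hm
            rw [mem_Ioc]
            obtain ⟨⟨h8, h9⟩, h10⟩ := hm
            have h11 : ¬ m ≤ min M2 (2 * M1) := fun h => h10 ⟨h8, h⟩
            rw [le_min_iff] at h11
            have h12 : ¬ m ≤ 2 * M1 := fun h => h11 ⟨h9, h⟩
            omega
          refine (card_le_card h7).trans ?_
          rw [Nat.card_Ioc]
          omega
        rw [nsmul_eq_mul, mul_one]
        exact_mod_cast h6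
      have h13 : (M1 : ℝ) ^ (1 - c1) ≤ (N : ℝ) ^ (1 - c1) :=
        Real.rpow_le_rpow (Nat.cast_nonneg _) hM1u (by linarith)
      linarith
    have h3 := LF.smf_abel (fun n => χ n * (n : ℂ) ^ (-((t : ℂ) * Complex.I)))
      (q * ((N : ℝ) ^ (1 - c1) + 2)) (by positivity) N N' hN1 hge hchi
    have h4 : LF.ds (fun n => χ n) N N' t = ∑ n ∈ Ioc N N',
        χ n * (n : ℂ) ^ (-((t : ℂ) * Complex.I)) * ((1 / (n : ℝ) : ℝ) : ℂ) := by
      unfold LF.ds
      refine sum_congr rfl fun n hn => ?_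
      have hn0 : (n : ℂ) ≠ 0 := by
        rw [mem_Ioc] at hn
        exact_mod_cast (by omega : n ≠ 0)
      have h5 : (-(1 + (t : ℂ) * Complex.I)) = -((t : ℂ) * Complex.I) + (-1) := by ring
      rw [h5, Complex.cpow_add _ _ hn0, Complex.cpow_neg_one]
      push_cast
      ring
    rw [h4]
    refine h3.trans ?_
    have h5 : (q : ℝ) * ((N : ℝ) ^ (1 - c1) + 2) / N ≤ 3 * l ^ B * (N : ℝ) ^ (-c1) := by
      rw [div_le_iff₀ hN0]
      have h6 : (N : ℝ) ^ (1 - c1) = (N : ℝ) ^ (-c1) * N := by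
        rw [show 1 - c1 = -c1 + 1 by ring, Real.rpow_add hN0, Real.rpow_one]
      rw [mul_assoc, ← h6]
      have h7 : (N : ℝ) ^ (1 - c1) + 2 ≤ 3 * (N : ℝ) ^ (1 - c1) := by linarith
      calc (q : ℝ) * ((N : ℝ) ^ (1 - c1) + 2) ≤ l ^ B * (3 * (N : ℝ) ^ (1 - c1)) := by gcongr
        _ = 3 * l ^ B * (N : ℝ) ^ (1 - c1) := by ring
    have h6 : (N : ℝ) ^ (-c1) ≤ 4 * X ^ (-(3 * c1 / 8)) := by
      have h7 : (N : ℝ) ^ (-c1) ≤ (X ^ ((3 : ℝ) / 8) / 4) ^ (-c1) :=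
        Real.rpow_le_rpow_of_nonpos (by positivity) hN (by linarith)
      refine h7.trans ?_
      rw [div_eq_mul_inv, Real.mul_rpow (by positivity) (by norm_num), ← Real.rpow_mul hXpos.le]
      have h8 : ((4 : ℝ)⁻¹) ^ (-c1) ≤ 4 := by
        rw [Real.inv_rpow (by norm_num), ← Real.rpow_neg (by norm_num), neg_neg]
        calc (4 : ℝ) ^ c1 ≤ 4 ^ (1 : ℝ) :=
              Real.rpow_le_rpow_of_exponent_le (by norm_num) (by linarith)
          _ = 4 := Real.rpow_one 4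
      have h9 : (3 : ℝ) / 8 * (-c1) = -(3 * c1 / 8) := by ring
      rw [h9, mul_comm]
      gcongr
    have h7 : 12 * l ^ B ≤ X ^ (c1 / 8) := by rw [hXr]; exact e3
    have h8 : X ^ (c1 / 8) * X ^ (-(3 * c1 / 8)) = X ^ (-(c1 / 4)) := by
      rw [← Real.rpow_add hXpos]
      congr 1
      ring
    have h9 : (q : ℝ) * ((N : ℝ) ^ (1 - c1) + 2) / N ≤ X ^ (-(min (c1 / 4) (1 / 8))) := by
      calc (q : ℝ) * ((N : ℝ) ^ (1 - c1) + 2) / N ≤ 3 * l ^ B * (N : ℝ) ^ (-c1) := h5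
        _ ≤ 3 * l ^ B * (4 * X ^ (-(3 * c1 / 8))) := by gcongr
        _ = 12 * l ^ B * X ^ (-(3 * c1 / 8)) := by ring
        _ ≤ X ^ (c1 / 8) * X ^ (-(3 * c1 / 8)) := by gcongr
        _ = X ^ (-(c1 / 4)) := h8
        _ ≤ X ^ (-(min (c1 / 4) (1 / 8))) :=
            Real.rpow_le_rpow_of_exponent_le (by linarith) (by linarith)
    linarith

end Pool.Agent.H43.UF
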