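import Pool.Agent.H43.UF.Defs
import Pool.Agent.H43.LF.Chi

/-!
# [H43 UF CHI] Sums of `χ(n) n^(-it)`, all moduli `8q <= exp(√(log|t|)/4)`

PROOF. Copy `LF/Chi.lean` (`chi_ev`, `chi`). The hypothesis `(8q)^2 <= L` of `chi_ev` is used only for
`8q <= exp(L^0.9)` and `4q <= exp(√L/2)`; both follow from `8q <= exp(√L/4)` (`√L <= L^0.9`, `L >= 1`).
`t1 := max 3 (max t0 (exp (2^50)))`, with `t0` from `ZS.zsum` (absolute).
-/

namespace Pool.Agent.H43.UF

open Finset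

/-- the conditions on `L` -/
private theorem chiu_ev (q : ℕ) (hq : 0 < q) (L : ℝ) (h1 : (2 : ℝ) ^ (50 : ℕ) ≤ L)
    (h2 : 8 * (q : ℝ) ≤ Real.exp (Real.sqrt L / 4)) (N : ℝ) (hN : Real.exp (L ^ (0.92 : ℝ)) ≤ N) :
    q ≤ N ∧ Real.exp (L ^ (0.9 : ℝ)) ≤ N / q - 2 ∧
      N * Real.exp (-Real.sqrt L) + q * 2 ≤ N * Real.exp (-(Real.sqrt L / 2)) := by
  have hq1 : (1 : ℝ) ≤ q := by exact_mod_cast hq
  have hL1 : (1 : ℝ) ≤ L := le_trans (by norm_num) h1
  have hL0 : (0 : ℝ) < L := by linarith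
  have hsq0 : 0 ≤ Real.sqrt L := Real.sqrt_nonneg L
  have h9s : Real.sqrt L ≤ L ^ (0.9 : ℝ) := by
    rw [Real.sqrt_eq_rpow]
    exact Real.rpow_le_rpow_of_exponent_le hL1 (by norm_num)
  have h002 : (2 : ℝ) ≤ L ^ (0.02 : ℝ) := by
    have e1 : (2 : ℝ) = ((2 : ℝ) ^ (50 : ℕ)) ^ (0.02 : ℝ) := by
      rw [← Real.rpow_natCast, ← Real.rpow_mul (by norm_num)]
      norm_num
    rw [e1]
    exact Real.rpow_le_rpow (by positivity) h1 (by norm_num)
  have h92 : 2 * L ^ (0.9 : ℝ) ≤ L ^ (0.92 : ℝ) := by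
    have e1 : L ^ (0.92 : ℝ) = L ^ (0.9 : ℝ) * L ^ (0.02 : ℝ) := by
      rw [← Real.rpow_add hL0]
      norm_num
    rw [e1, mul_comm]
    exact mul_le_mul_of_nonneg_left h002 (by positivity)
  have hE9 : 8 * (q : ℝ) ≤ Real.exp (L ^ (0.9 : ℝ)) := by
    exact h2.trans (Real.exp_le_exp.2 (by linarith))
  have hE92 : Real.exp (L ^ (0.9 : ℝ)) * Real.exp (L ^ (0.9 : ℝ)) ≤ N := by
    refine le_trans ?_ hN
    rw [← Real.exp_add]
    exact Real.exp_le_exp.2 (by linarith)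
  have hE1 : 1 ≤ Real.exp (L ^ (0.9 : ℝ)) := by linarith
  have hqN : (q : ℝ) ≤ N := by nlinarith
  refine ⟨hqN, ?_, ?_⟩
  · have h3 : Real.exp (L ^ (0.9 : ℝ)) + 2 ≤ N / q := by
      rw [le_div_iff₀ (by linarith)]
      nlinarith
    linarith
  · have hsq : 0 ≤ Real.sqrt L := Real.sqrt_nonneg L
    have h4 : Real.exp (-Real.sqrt L) = Real.exp (-(Real.sqrt L / 2)) * Real.exp (-(Real.sqrt L / 2)) := by
      rw [← Real.exp_add]
      congr 1
      ring
    have h5 : Real.exp (-(Real.sqrt L / 2)) * Real.exp (Real.sqrt L / 2) = 1 := by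
      rw [← Real.exp_add]
      simp
    have h6 : 4 * (q : ℝ) ≤ Real.exp (Real.sqrt L / 2) := by
      have h60 : Real.exp (Real.sqrt L / 4) ≤ Real.exp (Real.sqrt L / 2) :=
        Real.exp_le_exp.2 (by linarith)
      linarith
    have h7 : Real.exp (Real.sqrt L / 2) * Real.exp (Real.sqrt L / 2) ≤ N := by
      refine le_trans ?_ hE92
      rw [← Real.exp_add, ← Real.exp_add]
      exact Real.exp_le_exp.2 (by linarith)
    have hx : 0 < Real.exp (-(Real.sqrt L / 2)) := Real.exp_pos _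
    set x := Real.exp (-(Real.sqrt L / 2))
    set y := Real.exp (Real.sqrt L / 2)
    have hy : 0 < y := Real.exp_pos _
    have h8 : x ≤ 1 / 2 := by
      have : x * 2 ≤ x * y := mul_le_mul_of_nonneg_left (by linarith) hx.le
      linarith
    have h9 : 4 * (q : ℝ) ≤ N * x := by
      have h10 : y * y * x ≤ N * x := mul_le_mul_of_nonneg_right h7 hx.le
      have h11 : y * y * x = y := by
        rw [mul_assoc, mul_comm y x, h5, mul_one]
      linarith
    rw [h4]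
    have h12 : N * (x * x) ≤ N * x * (1 / 2) := by
      have hNx : 0 ≤ N * x := mul_nonneg (by linarith) hx.le
      rw [← mul_assoc]
      exact mul_le_mul_of_nonneg_left h8 hNx
    linarith

theorem chiu : ∃ t1 : ℝ, 3 ≤ t1 ∧ ∀ (q : ℕ) [NeZero q] (χ : DirichletCharacter ℂ q) (t : ℝ),
    t1 ≤ |t| → 8 * (q : ℝ) ≤ Real.exp (Real.sqrt (Real.log |t|) / 4) → ∀ N N' : ℕ,
    Real.exp ((Real.log |t|) ^ (0.92 : ℝ)) ≤ N → (N : ℝ) ≤ t ^ 2 → N' ≤ 2 * N →
    ‖∑ n ∈ Ioc N N', χ n * (n : ℂ) ^ (-((t : ℂ) * Complex.I))‖ ≤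
      N * Real.exp (-(Real.sqrt (Real.log |t|) / 2)) := by
  obtain ⟨t0, ht02, hz⟩ := ZS.zsum
  refine ⟨max 3 (max t0 (Real.exp ((2 : ℝ) ^ (50 : ℕ)))), le_max_left _ _, ?_⟩
  intro q _ χ t ht hqt N N' hN hNt hN'
  have hq : 0 < q := Nat.pos_of_ne_zero (NeZero.ne q)
  have hq0 : (0 : ℝ) < q := by exact_mod_cast hq
  have ht3 : 3 ≤ |t| := (le_max_left _ _).trans ht
  have ht0 : t0 ≤ |t| := ((le_max_left _ _).trans (le_max_right _ _)).trans ht
  have htE : Real.exp ((2 : ℝ) ^ (50 : ℕ)) ≤ |t| :=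
    ((le_max_right _ _).trans (le_max_right _ _)).trans ht
  have htL : (2 : ℝ) ^ (50 : ℕ) ≤ Real.log |t| :=
    (Real.le_log_iff_exp_le (by linarith)).2 htE
  obtain ⟨hqN, hM, hfin⟩ := chiu_ev q hq (Real.log |t|) htL hqt N hN
  have hqN' : q ≤ N := by exact_mod_cast hqN
  have hE : 0 < Real.exp (-Real.sqrt (Real.log |t|)) := Real.exp_pos _
  have hB : 0 ≤ (N : ℝ) / q * Real.exp (-Real.sqrt (Real.log |t|)) + 2 := by positivity
  refine (LF.cls_chi q χ t N N' hqN' _ hB ?_).trans ?_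
  · intro hNN a ha
    have hd1 := Nat.div_add_mod (N - a) q
    have hd2 := Nat.mod_lt (N - a) hq
    have hd3 := Nat.div_add_mod (N' - a) q
    have hd4 := Nat.mod_lt (N' - a) hq
    set M1 := (N - a) / q
    set M2 := (N' - a) / q
    have hM2 : M2 ≤ 2 * M1 + 2 := by
      by_contra hcon
      push Not at hcon
      have h1 : q * (2 * M1 + 3) ≤ q * M2 := Nat.mul_le_mul_left q (by omega)
      have h2 : q * (2 * M1 + 3) = 2 * (q * M1) + 3 * q := by ring
      omega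
    have hM1u : (M1 : ℝ) ≤ (N : ℝ) / q := by
      rw [le_div_iff₀ hq0]
      have : q * M1 ≤ N := by omega
      have h3 : ((q * M1 : ℕ) : ℝ) ≤ N := by exact_mod_cast this
      push_cast at h3
      linarith
    have hM1l : (N : ℝ) / q - 2 ≤ M1 := by
      rw [sub_le_iff_le_add, div_le_iff₀ hq0]
      have : N ≤ q * M1 + 2 * q := by omega
      have h3 : (N : ℝ) ≤ ((q * M1 + 2 * q : ℕ) : ℝ) := by exact_mod_cast this
      push_cast at h3
      linarith
    have hM1t : (M1 : ℝ) ≤ |t| ^ 2 := by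
      rw [sq_abs]
      refine le_trans ?_ hNt
      refine hM1u.trans (div_le_self (Nat.cast_nonneg _) ?_)
      exact_mod_cast hq
    have hβ0 : (0 : ℝ) ≤ (a : ℝ) / q := by positivity
    have hβ1 : (a : ℝ) / q ≤ 1 := by
      rw [div_le_one hq0]
      exact_mod_cast ha.le
    have hz1 := hz |t| ht0 M1 (min M2 (2 * M1)) (hM.trans hM1l) hM1t (min_le_right _ _)
      ((a : ℝ) / q) hβ0 hβ1
    have hsub : Ioc M1 (min M2 (2 * M1)) ⊆ Ioc M1 M2 :=
      Ioc_subset_Ioc_right (min_le_left _ _)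
    rw [← Finset.sum_sdiff hsub]
    refine (norm_add_le _ _).trans ?_
    have h4 : ‖∑ m ∈ Ioc M1 M2 \ Ioc M1 (min M2 (2 * M1)),
        Complex.exp (-(|t| * Real.log ((m : ℝ) + (a : ℝ) / q) : ℝ) * Complex.I)‖ ≤ 2 := by
      refine (norm_sum_le _ _).trans ?_
      have h5 : ∀ m ∈ Ioc M1 M2 \ Ioc M1 (min M2 (2 * M1)),
          ‖Complex.exp (-(|t| * Real.log ((m : ℝ) + (a : ℝ) / q) : ℝ) * Complex.I)‖ ≤ 1 := by
        intro m _
        have := Complex.norm_exp_ofReal_mul_I (-(|t| * Real.log ((m : ℝ) + (a : ℝ) / q)))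
        push_cast at this ⊢
        exact this.le
      refine (Finset.sum_le_card_nsmul _ _ _ h5).trans ?_
      have h6 : (Ioc M1 M2 \ Ioc M1 (min M2 (2 * M1))).card ≤ 2 := by
        have h7 : Ioc M1 M2 \ Ioc M1 (min M2 (2 * M1)) ⊆ Ioc (2 * M1) (2 * M1 + 2) := by
          intro m hm
          rw [mem_sdiff, mem_Ioc, mem_Ioc] at hm
          rw [mem_Ioc]
          obtain ⟨⟨h8, h9⟩, h10⟩ := hm
          have h11 : ¬ m ≤ min M2 (2 * M1) := fun h => h10 ⟨h8, h⟩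
          rw [le_min_iff] at h11
          have h12 : ¬ m ≤ 2 * M1 := fun h => h11 ⟨h9, h⟩
          omega
        refine (card_le_card h7).trans ?_
        rw [Nat.card_Ioc]
        omega
      rw [nsmul_eq_mul, mul_one]
      exact_mod_cast h6
    have h13 : (M1 : ℝ) * Real.exp (-Real.sqrt (Real.log |t|)) ≤
        (N : ℝ) / q * Real.exp (-Real.sqrt (Real.log |t|)) :=
      mul_le_mul_of_nonneg_right hM1u hE.le
    linarith
  · refine le_trans (le_of_eq ?_) hfin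
    field_simp

end Pool.Agent.H43.UF
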