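import Pool.Agent.H43.LF.Smf
import Pool.Agent.H43.UF.Chi

/-!
# [H43 UF SMF] Smooth sums, `N` not too small, uniform in `q <= (log X)^B`

PROOF. As `LF/Smf.lean`. If `|t| <= N^(1/2)`: `LF.em` gives `10q(1/|t| + (1+|t|)/N) <= 10 ℓ^B (ℓ^(-A-B-1) + 2N^(-1/2))`.
If `|t| > N^(1/2)`: `log|t| >= (1/2) ℓ^0.97`, so `8q <= 8ℓ^B <= exp(√(log|t|)/4)` for `X` large and
`N >= exp(ℓ^0.97) >= exp((log|t|)^0.92)`, `N < t^2`: `chiu` for all upper limits, partial summation:
`<= 2 exp(-√(log|t|)/2)`.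
-/

namespace Pool.Agent.H43.UF

open Finset

open Filter in
theorem smfu (B A : ℝ) (hB : 0 < B) (hA : 0 < A) : ∃ X0 : ℝ, 10 ≤ X0 ∧ ∀ X : ℝ, X0 ≤ X →
    ∀ (q : ℕ) [NeZero q], (q : ℝ) ≤ (Real.log X) ^ B → ∀ (χ : DirichletCharacter ℂ q)
    (N N' : ℕ) (t : ℝ), Real.exp ((Real.log X) ^ (0.97 : ℝ)) ≤ N → (N : ℝ) ≤ X → N' ≤ 2 * N →
    (Real.log X) ^ (A + B + 1) ≤ |t| → |t| ≤ X →
    ‖LF.ds (fun n => χ n) N N' t‖ ≤ (Real.log X) ^ (-A) := by
  obtain ⟨t1, ht1, hchi⟩ := chiu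
  have e1 : ∀ᶠ L : ℝ in atTop, 20 ≤ L := eventually_ge_atTop _
  have e2 := LF.smf_lim (A + B) (1 / 2) 0.97 40 (by norm_num) (by norm_num)
  have e3 := LF.smf_lim A (1 / 4) 0.485 1 (by norm_num) (by norm_num)
  have e4 : ∀ᶠ L : ℝ in atTop, t1 ≤ L ^ (0.97 : ℝ) / 2 :=
    ((tendsto_rpow_atTop (by norm_num : (0 : ℝ) < 0.97)).atTop_div_const
      (by norm_num)).eventually_ge_atTop t1
  have e5 : ∀ᶠ L : ℝ in atTop, (1 : ℝ) ≤ L := eventually_ge_atTop _
  have e6 := LF.smf_lim B (1 / 8) 0.485 8 (by norm_num) (by norm_num)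
  obtain ⟨L0, hL0⟩ := eventually_atTop.1 (e1.and (e2.and (e3.and (e4.and (e5.and e6)))))
  refine ⟨max 10 (Real.exp L0), le_max_left _ _, ?_⟩
  intro X hX q _ hqB χ N N' t hNl hNX hN' htl htX
  have hq : 0 < q := Nat.pos_of_ne_zero (NeZero.ne q)
  have hqR : (1 : ℝ) ≤ q := by exact_mod_cast hq
  have hX0 : 0 < X := lt_of_lt_of_le (by positivity) ((le_max_left _ _).trans hX)
  have hL : L0 ≤ Real.log X := by
    rw [Real.le_log_iff_exp_le hX0]
    exact (le_max_right _ _).trans hX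
  obtain ⟨f1, f2, f3, f4, f5, f6⟩ := hL0 _ hL
  set L := Real.log X with hLdef
  have hL0' : 0 < L := by linarith
  have hN0 : (0 : ℝ) < N := lt_of_lt_of_le (Real.exp_pos _) hNl
  have hN1 : 1 ≤ N := by
    have : 0 < N := by exact_mod_cast hN0
    omega
  have hlogN : L ^ (0.97 : ℝ) ≤ Real.log N := by
    rwa [Real.le_log_iff_exp_le hN0]
  have ht1' : 1 ≤ |t| := le_trans (Real.one_le_rpow f5 (by linarith)) htl
  have ht0 : t ≠ 0 := by
    rw [← abs_pos]
    linarith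
  have ht0' : 0 < |t| := by linarith
  have hLB : 0 < L ^ B := Real.rpow_pos_of_pos hL0' _
  have hsplit : L ^ B * L ^ (-(A + B)) = L ^ (-A) := by
    rw [← Real.rpow_add hL0']
    congr 1
    ring
  rcases le_or_gt (t ^ 2) N with hcase | hcase
  · -- first case
    have h1 := LF.em χ N N' hN1 hN' t ht0
    refine h1.trans ?_
    have h2 : 1 / |t| ≤ L ^ (-(A + B)) / L := by
      have h3 : L ^ (-(A + B)) / L = 1 / L ^ (A + B + 1) := by
        rw [Real.rpow_add hL0', Real.rpow_one, Real.rpow_neg hL0'.le]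
        field_simp
      rw [h3]
      exact one_div_le_one_div_of_le (Real.rpow_pos_of_pos hL0' _) htl
    have hsq : Real.sqrt N = Real.exp (Real.log N / 2) := by
      rw [Real.exp_half, Real.exp_log hN0]
    have h3 : (1 + |t|) / N ≤ 2 * Real.exp (-(1 / 2 * L ^ (0.97 : ℝ))) := by
      have h4 : |t| ≤ Real.sqrt N := by
        apply Real.le_sqrt_of_sq_le
        rwa [sq_abs]
      have h5 : Real.exp (1 / 2 * L ^ (0.97 : ℝ)) ≤ Real.sqrt N := by
        rw [hsq]
        apply Real.exp_le_exp.2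
        linarith
      have h6 : 0 < Real.sqrt N := Real.sqrt_pos.2 hN0
      have h7 : (1 + |t|) / N ≤ 2 / Real.sqrt N := by
        rw [div_le_div_iff₀ hN0 h6]
        have h8 : Real.sqrt N * Real.sqrt N = N := Real.mul_self_sqrt hN0.le
        nlinarith
      refine h7.trans ?_
      rw [Real.exp_neg, ← div_eq_mul_inv]
      exact div_le_div_of_nonneg_left (by norm_num) (Real.exp_pos _) h5
    have h4 : 0 < L ^ (-(A + B)) := Real.rpow_pos_of_pos hL0' _
    have h5 : 10 * (L ^ (-(A + B)) / L) ≤ L ^ (-(A + B)) / 2 := by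
      rw [mul_div_assoc', div_le_div_iff₀ hL0' (by norm_num)]
      nlinarith
    have h6 : 10 * (2 * Real.exp (-(1 / 2 * L ^ (0.97 : ℝ)))) ≤ L ^ (-(A + B)) / 2 := by
      linarith
    have h7 : 0 ≤ 1 / |t| + (1 + |t|) / (N : ℝ) := by positivity
    calc 10 * (q : ℝ) * (1 / |t| + (1 + |t|) / N) ≤
          10 * L ^ B * (1 / |t| + (1 + |t|) / N) := by gcongr
      _ = L ^ B * (10 * (1 / |t|) + 10 * ((1 + |t|) / N)) := by ring
      _ ≤ L ^ B * (10 * (L ^ (-(A + B)) / L) +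
          10 * (2 * Real.exp (-(1 / 2 * L ^ (0.97 : ℝ))))) := by gcongr
      _ ≤ L ^ B * L ^ (-(A + B)) := by
          apply mul_le_mul_of_nonneg_left _ hLB.le
          linarith
      _ = L ^ (-A) := hsplit
  · -- second case
    rcases lt_or_ge N' N with hlt | hge
    · unfold LF.ds
      rw [Ioc_eq_empty_of_le hlt.le]
      simp only [sum_empty, norm_zero]
      positivity
    have hlogt : L ^ (0.97 : ℝ) / 2 ≤ Real.log |t| := by
      have h1 : Real.log N ≤ Real.log (t ^ 2) := Real.log_le_log hN0 hcase.le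
      rw [← sq_abs, Real.log_pow] at h1
      push_cast at h1
      linarith
    have hlogt2 : Real.log |t| ≤ L := Real.log_le_log ht0' htX
    have hlogt0 : 0 ≤ Real.log |t| := Real.log_nonneg ht1'
    have h1 : t1 ≤ |t| := by
      have h2 : t1 ≤ Real.log |t| := f4.trans hlogt
      have h3 : Real.log |t| ≤ |t| := (Real.log_le_sub_one_of_pos ht0').trans (by linarith)
      exact h2.trans h3
    have h2 : Real.exp ((Real.log |t|) ^ (0.92 : ℝ)) ≤ N := by
      refine le_trans (Real.exp_le_exp.2 ?_) hNl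
      calc (Real.log |t|) ^ (0.92 : ℝ) ≤ L ^ (0.92 : ℝ) :=
            Real.rpow_le_rpow hlogt0 hlogt2 (by norm_num)
        _ ≤ L ^ (0.97 : ℝ) := Real.rpow_le_rpow_of_exponent_le f5 (by norm_num)
    have h6 : L ^ (0.485 : ℝ) / 2 ≤ Real.sqrt (Real.log |t|) := by
      apply Real.le_sqrt_of_sq_le
      have h7 : (L ^ (0.485 : ℝ) / 2) ^ 2 = L ^ (0.97 : ℝ) / 4 := by
        rw [div_pow, ← Real.rpow_natCast, ← Real.rpow_mul hL0'.le]
        norm_num
      rw [h7]
      have h8 : 0 ≤ L ^ (0.97 : ℝ) := by positivity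
      linarith
    have hq8 : 8 * (q : ℝ) ≤ Real.exp (Real.sqrt (Real.log |t|) / 4) := by
      have g1 : Real.exp (1 / 8 * L ^ (0.485 : ℝ)) ≤ Real.exp (Real.sqrt (Real.log |t|) / 4) := by
        apply Real.exp_le_exp.2
        linarith
      refine le_trans ?_ g1
      have g2 : 0 < Real.exp (1 / 8 * L ^ (0.485 : ℝ)) := Real.exp_pos _
      rw [Real.exp_neg, Real.rpow_neg hL0'.le, ← div_eq_mul_inv, div_le_iff₀ g2,
        inv_mul_eq_div, le_div_iff₀ hLB] at f6
      linarith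
    have h3 := LF.smf_abel (fun n => χ n * (n : ℂ) ^ (-((t : ℂ) * Complex.I)))
      (N * Real.exp (-(Real.sqrt (Real.log |t|) / 2))) (by positivity) N N' hN1 hge
      (fun m _ hm' => hchi q χ t h1 hq8 N m h2 hcase.le (hm'.trans hN'))
    have h4 : LF.ds (fun n => χ n) N N' t = ∑ n ∈ Ioc N N',
        χ n * (n : ℂ) ^ (-((t : ℂ) * Complex.I)) * ((1 / (n : ℝ) : ℝ) : ℂ) := by
      unfold LF.ds
      refine sum_congr rfl fun n hn => ?_
      have hn0 : (n : ℂ) ≠ 0 := by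
        rw [mem_Ioc] at hn
        exact_mod_cast (by omega : n ≠ 0)
      have h5 : (-(1 + (t : ℂ) * Complex.I)) = -((t : ℂ) * Complex.I) + (-1) := by ring
      rw [h5, Complex.cpow_add _ _ hn0, Complex.cpow_neg_one]
      push_cast
      ring
    rw [h4]
    refine h3.trans ?_
    have h5 : (N : ℝ) * Real.exp (-(Real.sqrt (Real.log |t|) / 2)) / N =
        Real.exp (-(Real.sqrt (Real.log |t|) / 2)) := by
      field_simp
    rw [h5]
    refine le_trans (Real.exp_le_exp.2 ?_) (by simpa only [one_mul] using f3)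
    linarith

end Pool.Agent.H43.UF
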