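import Pool.Agent.H43.SI.Pw
import Pool.Agent.H43.UF.Mu
import Pool.Agent.H43.UF.Smf

/-!
# [H43 UF PW] Pointwise bounds for one factor, uniform in `q <= (log X)^B`

PROOF. As (2) of `SI/Pw.lean`, with `muu` and `smfu` in place of `LF.mu_sum` and `LF.smf`. `N = 2^a/2`, `N' = 2N`,
`N >= exp(ℓ^0.98)/2 >= exp(ℓ^0.97)`. `i < 3`: `muu`. `i = 4,5`: `smfu` with `A`. `i = 3`: `SI.pw_log` and `smfu` with
`A + 2` (it needs `|t| >= ℓ^(A+B+3)`).
-/

namespace Pool.Agent.H43.UF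

open Finset

theorem pwu (B A : ℝ) (hB : 0 < B) (hA : 0 < A) : ∃ X0 : ℝ, 10 ≤ X0 ∧ ∀ X : ℝ, X0 ≤ X →
    ∀ (q : ℕ) [NeZero q], (q : ℝ) ≤ (Real.log X) ^ B → ∀ (χ : DirichletCharacter ℂ q)
    (i : Fin 6) (a : ℕ) (t : ℝ), Real.exp ((Real.log X) ^ (0.98 : ℝ)) ≤ 2 ^ a → (2 : ℝ) ^ a ≤ X →
    (Real.log X) ^ (A + B + 3) ≤ |t| → |t| ≤ X →
    ‖SI.pol (SI.cf χ i) a t‖ ≤ (Real.log X) ^ (-A) := by
  obtain ⟨X1, hX1, h1⟩ := muu B A hB hA
  obtain ⟨X2, hX2, h2⟩ := smfu B A hB hA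
  obtain ⟨X3, hX3, h3⟩ := smfu B (A + 2) hB (by linarith)
  refine ⟨max X1 (max X2 (max X3 (Real.exp ((2 : ℝ) ^ (100 : ℕ))))), hX1.trans (le_max_left _ _), ?_⟩
  intro X hX q _ hq χ i a t ha1 ha2 ht1 ht2
  have hXX1 : X1 ≤ X := (le_max_left _ _).trans hX
  have hXX2 : X2 ≤ X := ((le_max_left _ _).trans (le_max_right _ _)).trans hX
  have hXX3 : X3 ≤ X :=
    (((le_max_left _ _).trans (le_max_right _ _)).trans (le_max_right _ _)).trans hX
  have hXX4 : Real.exp ((2 : ℝ) ^ (100 : ℕ)) ≤ X :=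
    (((le_max_right _ _).trans (le_max_right _ _)).trans (le_max_right _ _)).trans hX
  have hX0 : 0 < X := by linarith
  set L := Real.log X with hL
  have hL100 : (2 : ℝ) ^ (100 : ℕ) ≤ L := (Real.le_log_iff_exp_le hX0).2 hXX4
  have hL2 : (2 : ℝ) ≤ L := le_trans (by norm_num) hL100
  have hL1 : (1 : ℝ) ≤ L := by linarith
  have hL0 : (0 : ℝ) < L := by linarith
  have hL97 : (1 : ℝ) ≤ L ^ (0.97 : ℝ) := Real.one_le_rpow hL1 (by norm_num)
  have hL98 : L ^ (0.97 : ℝ) + Real.log 2 ≤ L ^ (0.98 : ℝ) := by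
    have e1 : L ^ (0.98 : ℝ) = L ^ (0.97 : ℝ) * L ^ (0.01 : ℝ) := by
      rw [← Real.rpow_add hL0]
      norm_num
    have e2 : (2 : ℝ) ≤ L ^ (0.01 : ℝ) := by
      have e3 : (2 : ℝ) = ((2 : ℝ) ^ (100 : ℕ)) ^ (0.01 : ℝ) := by
        rw [← Real.rpow_natCast, ← Real.rpow_mul (by norm_num)]
        norm_num
      rw [e3]
      exact Real.rpow_le_rpow (by positivity) hL100 (by norm_num)
    have e4 : Real.log 2 ≤ 1 := by
      have := Real.log_two_lt_d9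
      linarith
    rw [e1]
    nlinarith
  have hexp : 2 * Real.exp (L ^ (0.97 : ℝ)) ≤ 2 ^ a := by
    refine le_trans ?_ ha1
    have e1 : 2 * Real.exp (L ^ (0.97 : ℝ)) = Real.exp (L ^ (0.97 : ℝ) + Real.log 2) := by
      rw [Real.exp_add, Real.exp_log (by norm_num)]
      ring
    rw [e1]
    exact Real.exp_le_exp.2 hL98
  have hapos : 1 ≤ a := by
    by_contra hcon
    have h0 : a = 0 := by omega
    subst h0
    have := Real.add_one_le_exp (L ^ (0.97 : ℝ))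
    norm_num at hexp
    linarith
  obtain ⟨b, rfl⟩ : ∃ b, a = b + 1 := ⟨a - 1, by omega⟩
  have hdiv : 2 ^ (b + 1) / 2 = 2 ^ b := by
    rw [pow_succ]
    omega
  have hN1 : Real.exp (L ^ (0.97 : ℝ)) ≤ ((2 ^ b : ℕ) : ℝ) := by
    rw [pow_succ] at hexp
    push_cast
    linarith
  have hb0 : (0 : ℝ) < 2 ^ b := by positivity
  have hN2 : ((2 ^ b : ℕ) : ℝ) ≤ X := by
    rw [pow_succ] at ha2
    push_cast
    linarith
  have hN3 : 2 ^ (b + 1) ≤ 2 * 2 ^ b := by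
    rw [pow_succ]
    omega
  have hlow : ∀ c : ℝ, c ≤ A + B + 3 → L ^ c ≤ |t| := fun c hc =>
    (Real.rpow_le_rpow_of_exponent_le hL1 hc).trans ht1
  unfold SI.pol
  rw [hdiv]
  by_cases hi3 : (i : ℕ) < 3
  · have e1 : SI.cf χ i = fun n : ℕ => ((ArithmeticFunction.moebius n : ℤ) : ℂ) * χ n := by
      funext n
      unfold SI.cf
      rw [if_pos hi3]
    rw [e1]
    exact h1 X hXX1 q hq χ _ _ t hN1 hN2 hN3 ht2
  · by_cases hi4 : (i : ℕ) = 3
    · have e1 : LF.ds (SI.cf χ i) (2 ^ b) (2 ^ (b + 1)) t = ∑ n ∈ Ioc ((2 : ℕ) ^ b) ((2 : ℕ) ^ (b + 1)),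
          ((Real.log n : ℝ) : ℂ) * (χ n * (n : ℂ) ^ (-(1 + (t : ℂ) * Complex.I))) := by
        unfold LF.ds
        refine Finset.sum_congr rfl fun n _ => ?_
        unfold SI.cf
        rw [if_neg hi3, if_pos hi4]
        ring
      rw [e1]
      have h4 := SI.pw_log (fun n : ℕ => χ n * (n : ℂ) ^ (-(1 + (t : ℂ) * Complex.I))) (2 ^ b)
        (2 ^ (b + 1)) (by rw [pow_succ]; have : 0 < 2 ^ b := by positivity
                          omega) (L ^ (-(A + 2))) (by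
          intro K hK
          exact h3 X hXX3 q hq χ (2 ^ b) K t hN1 hN2 (hK.trans hN3) (hlow _ (by linarith)) ht2)
      refine h4.trans ?_
      have h5 : Real.log ((2 ^ (b + 1) : ℕ) : ℝ) ≤ L := by
        refine Real.log_le_log (by positivity) ?_
        push_cast
        exact ha2
      have h6 : 0 < L ^ (-(A + 2)) := by positivity
      have h7 : L ^ (-A) = L ^ (-(A + 2)) * L ^ (2 : ℝ) := by
        rw [← Real.rpow_add hL0]
        congr 1
        ring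
      rw [h7, Real.rpow_two]
      have h8 : 2 * Real.log ((2 ^ (b + 1) : ℕ) : ℝ) ≤ L ^ 2 := by nlinarith
      calc 2 * Real.log ((2 ^ (b + 1) : ℕ) : ℝ) * L ^ (-(A + 2))
          ≤ L ^ 2 * L ^ (-(A + 2)) := mul_le_mul_of_nonneg_right h8 h6.le
        _ = L ^ (-(A + 2)) * L ^ 2 := mul_comm _ _
    · have e1 : SI.cf χ i = fun n : ℕ => χ n := by
        funext n
        unfold SI.cf
        rw [if_neg hi3, if_neg hi4]
      rw [e1]
      exact h2 X hXX2 q hq χ _ _ t hN1 hN2 hN3 (hlow _ (by linarith)) ht2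

end Pool.Agent.H43.UF
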