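import Pool.Agent.H43.UF.Defs

/-!
# [H43 UF ZE] `(s-1) ζ(s)` is bounded below near the real segment

PROOF. `F = LFunctionTrivChar₁ 1` (that is `(s-1) ζ(s)` with value `1` at `s = 1`) is entire
(`DirichletCharacter.differentiable_LFunctionTrivChar₁`). On the compact set `K = {1 <= Re <= 2, |Im| <= 2}` it has no zero
(`DirichletCharacter.LFunctionTrivChar₁_apply_one_ne_zero`; for `s ≠ 1`, `Re s >= 1`:
`DirichletCharacter.LFunction_ne_zero_of_one_le_re`), so `‖F‖ >= 2c` on `K`. `F` is uniformly continuous on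
`{1/2 <= Re <= 2, |Im| <= 2}`: there is `δ <= 1/4` with `‖F w - F w'‖ <= c` if `‖w-w'‖ <= δ`; take
`w' = max(Re w, 1) + i Im w`.
-/

namespace Pool.Agent.H43.UF

open Finset

theorem ze : ∃ c δ : ℝ, 0 < c ∧ 0 < δ ∧ δ ≤ 1 / 4 ∧ ∀ w : ℂ, |w.im| ≤ 2 → 1 - δ ≤ w.re → w.re ≤ 2 →
    c ≤ ‖DirichletCharacter.LFunctionTrivChar₁ 1 w‖ := by
  set F : ℂ → ℂ := DirichletCharacter.LFunctionTrivChar₁ 1 with hF
  have hFc : Continuous F := (DirichletCharacter.differentiable_LFunctionTrivChar₁ 1).continuous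
  have hF0 : ∀ w : ℂ, 1 ≤ w.re → F w ≠ 0 := by
    intro w hw
    by_cases h1 : w = 1
    · rw [h1]
      exact DirichletCharacter.LFunctionTrivChar₁_apply_one_ne_zero 1
    · have h2 : F w = (w - 1) * DirichletCharacter.LFunctionTrivChar 1 w := by
        rw [hF]
        show Function.update _ _ _ w = _
        rw [Function.update_of_ne h1]
      rw [h2]
      exact mul_ne_zero (sub_ne_zero.mpr h1)
        (DirichletCharacter.LFunction_ne_zero_of_one_le_re _ (Or.inr h1) hw)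
  have hK : IsCompact (Set.Icc (1 : ℝ) 2 ×ℂ Set.Icc (-2 : ℝ) 2) :=
    isCompact_Icc.reProdIm isCompact_Icc
  have hK' : IsCompact (Set.Icc (1 / 2 : ℝ) 2 ×ℂ Set.Icc (-2 : ℝ) 2) :=
    isCompact_Icc.reProdIm isCompact_Icc
  obtain ⟨w0, hw0, hmin⟩ := hK.exists_isMinOn ⟨1, by
    rw [Complex.mem_reProdIm]
    constructor <;> simp⟩ hFc.norm.continuousOn
  have hm0 : 0 < ‖F w0‖ := norm_pos_iff.mpr (hF0 w0 ((Complex.mem_reProdIm.mp hw0).1.1))
  have huc := hK'.uniformContinuousOn_of_continuous hFc.continuousOn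
  obtain ⟨δ0, hδ0, hd⟩ := Metric.uniformContinuousOn_iff.mp huc (‖F w0‖ / 2) (by positivity)
  refine ⟨‖F w0‖ / 2, min (δ0 / 2) (1 / 4), by positivity, by positivity, min_le_right _ _, ?_⟩
  intro w him hre1 hre2
  rw [abs_le] at him
  have hδ4 : min (δ0 / 2) (1 / 4) ≤ 1 / 4 := min_le_right _ _
  have hδ2 : min (δ0 / 2) (1 / 4) ≤ δ0 / 2 := min_le_left _ _
  set w' : ℂ := ⟨max w.re 1, w.im⟩ with hw'
  have hw'K : w' ∈ Set.Icc (1 : ℝ) 2 ×ℂ Set.Icc (-2 : ℝ) 2 := by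
    rw [Complex.mem_reProdIm]
    exact ⟨⟨le_max_right _ _, max_le hre2 (by norm_num)⟩, him⟩
  have hw'K' : w' ∈ Set.Icc (1 / 2 : ℝ) 2 ×ℂ Set.Icc (-2 : ℝ) 2 := by
    rw [Complex.mem_reProdIm]
    exact ⟨⟨le_trans (by norm_num) (le_max_right _ _), max_le hre2 (by norm_num)⟩, him⟩
  have hwK' : w ∈ Set.Icc (1 / 2 : ℝ) 2 ×ℂ Set.Icc (-2 : ℝ) 2 := by
    rw [Complex.mem_reProdIm]
    exact ⟨⟨by linarith, hre2⟩, him⟩
  have hdist : dist w w' < δ0 := by
    rw [dist_eq_norm]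
    have e1 : w - w' = ((w.re - max w.re 1 : ℝ) : ℂ) := by
      apply Complex.ext
      · simp [hw']
      · simp [hw']
    rw [e1, Complex.norm_real, Real.norm_eq_abs, abs_lt]
    rcases le_total w.re 1 with h | h
    · rw [max_eq_right h]
      constructor <;> linarith
    · rw [max_eq_left h]
      constructor <;> linarith
  have h3 := hd w hwK' w' hw'K' hdist
  have h4 : ‖F w0‖ ≤ ‖F w'‖ := hmin hw'K
  rw [dist_eq_norm] at h3
  have h5 : ‖F w'‖ - ‖F w‖ ≤ ‖F w - F w'‖ := by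
    rw [norm_sub_rev]
    exact norm_sub_norm_le _ _
  linarith

end Pool.Agent.H43.UF
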